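import Mathlib

namespace Pool.Agent.MP_c4ca5b_lc

/-- An LCL problem on `ℤ^n`: a finite label set, a radius, and a set of allowed maps from the
sup-norm ball of that radius to the labels. -/
structure LCL (n : ℕ) : Type 1 where
  Label : Type
  finite_label : Finite Label
  radius : ℕ
  allowed : Set ({v : Fin n → ℤ // ∀ i, |v i| ≤ (radius : ℤ)} → Label)

/-- The action of `ℤ^n` on `X` is free. -/
def IsFree (n : ℕ) (X : Type) [AddAction (Fin n → ℤ) X] : Prop :=
  ∀ (v : Fin n → ℤ) (x : X), v ≠ 0 → v +ᵥ x ≠ x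

/-- `X` has a Baire-measurable `P`-labelling: a Baire-measurable map to the (discrete) label set
that is a `P`-labelling of some invariant comeager set. -/
def HasBaireLabelling {n : ℕ} (P : LCL n) (X : Type) [TopologicalSpace X]
    [AddAction (Fin n → ℤ) X] : Prop :=
  ∃ f : X → P.Label, (∀ l : P.Label, BaireMeasurableSet (f ⁻¹' {l})) ∧
    ∃ Y ∈ residual X, (∀ (v : Fin n → ℤ), ∀ y ∈ Y, v +ᵥ y ∈ Y) ∧
      ∀ y ∈ Y, (fun v : {v : Fin n → ℤ // ∀ i, |v i| ≤ (P.radius : ℤ)} => f (v.1 +ᵥ y)) ∈ P.allowed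

/-- `P` lies in `BAIRE(ℤ^n)`: every free Borel action of `ℤ^n` on a Polish space has a
Baire-measurable `P`-labelling. -/
def InBaire {n : ℕ} (P : LCL n) : Prop :=
  ∀ (Y : Type) [TopologicalSpace Y] [PolishSpace Y] [MeasurableSpace Y] [BorelSpace Y]
    [AddAction (Fin n → ℤ) Y],
    (∀ v : Fin n → ℤ, Measurable fun y : Y => v +ᵥ y) → IsFree n Y → HasBaireLabelling P Y

end Pool.Agent.MP_c4ca5b_lc
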