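import Pool.Agent.MP_c4ca5b_lc.Rules

set_option linter.unusedSectionVars false

namespace Pool.Agent.MP_c4ca5b_lc

open Finset

variable {n : ℕ}

abbrev RF (n : ℕ) := Z n → Fin n → ℝ

lemma nb_iff_norm {y : Z n} {R : ℤ} (hR : 0 ≤ R) : nb y R ↔ ‖y‖ ≤ R := by
  rw [pi_norm_le_iff_of_nonneg (by exact_mod_cast hR)]
  refine forall_congr' fun k => ?_
  rw [Int.norm_eq_abs]; norm_cast

noncomputable def bump (R L : ℤ) (y : Z n) : ℝ := max 0 (min 1 (((R : ℝ) - ‖y‖) / L))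

lemma bump_nonneg (R L : ℤ) (y : Z n) : 0 ≤ bump R L y := le_max_left _ _

lemma bump_le_one (R L : ℤ) (y : Z n) : bump R L y ≤ 1 :=
  max_le zero_le_one (min_le_left _ _)

lemma bump_eq_one {R L : ℤ} (hL : 0 < L) (hLR : L ≤ R) {y : Z n} (hy : nb y (R - L)) :
    bump R L y = 1 := by
  rw [nb_iff_norm (by omega)] at hy
  push_cast at hy
  have hL' : (0:ℝ) < L := by exact_mod_cast hL
  unfold bump
  rw [min_eq_left, max_eq_right zero_le_one]
  rw [le_div_iff₀ hL']; linarith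

lemma bump_lip {R L S : ℤ} (hL : 0 < L) (hS : 0 ≤ S) {y y' : Z n} (h : nb (y - y') S) :
    |bump R L y - bump R L y'| ≤ S / L := by
  rw [nb_iff_norm hS] at h
  have hL' : (0:ℝ) < L := by exact_mod_cast hL
  have h1 : |‖y‖ - ‖y'‖| ≤ S := (abs_norm_sub_norm_le y y').trans h
  have h2 : |((R : ℝ) - ‖y‖) / L - ((R : ℝ) - ‖y'‖) / L| ≤ S / L := by
    rw [← sub_div, abs_div, abs_of_pos hL']
    refine div_le_div_of_nonneg_right ?_ hL'.le
    rw [show (R : ℝ) - ‖y‖ - (R - ‖y'‖) = -(‖y‖ - ‖y'‖) by ring, abs_neg]; exact h1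
  unfold bump
  refine le_trans ?_ h2
  rw [max_comm 0, max_comm 0]
  refine (abs_max_sub_max_le_abs _ _ _).trans ?_
  rw [min_comm 1, min_comm 1]
  exact abs_min_sub_min_le_max _ _ _ _ |>.trans (by simp)

lemma bump_eq_zero {R L : ℤ} (hL : 0 < L) (hR : 0 ≤ R) {y : Z n} (hy : ¬ nb y R) :
    bump R L y = 0 := by
  rw [nb_iff_norm hR, not_le] at hy
  have hL' : (0:ℝ) < L := by exact_mod_cast hL
  unfold bump
  refine max_eq_left ((min_le_right _ _).trans ?_)
  exact div_nonpos_of_nonpos_of_nonneg (by linarith) hL'.le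

noncomputable def eta (K : ℕ) (G : ℝ) : ℝ :=
  3 ^ (K + 1) * Int.fract ((3 ^ K / 2 + 3 ^ K - G) / 3 ^ (K + 1))

lemma eta_nonneg (K : ℕ) (G : ℝ) : 0 ≤ eta K G :=
  mul_nonneg (by positivity) (Int.fract_nonneg _)

lemma eta_le (K : ℕ) (G : ℝ) : eta K G ≤ 3 ^ (K + 1) := by
  unfold eta
  have := (Int.fract_lt_one ((3 ^ K / 2 + 3 ^ K - G) / 3 ^ (K + 1))).le
  have h2 : (0:ℝ) < 3 ^ (K + 1) := by positivity
  nlinarith

lemma eta_add (K : ℕ) (G : ℝ) (m : ℤ) : eta K (G + 3 ^ (K + 1) * m) = eta K G := by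
  unfold eta
  rw [show (3 ^ K / 2 + 3 ^ K - (G + 3 ^ (K + 1) * m)) / (3:ℝ) ^ (K + 1) =
    (3 ^ K / 2 + 3 ^ K - G) / 3 ^ (K + 1) - m by field_simp; ring, Int.fract_sub_intCast]

lemma eta_spec (K : ℕ) (G : ℝ) : ∃ m : ℤ, G + eta K G = 3 ^ K / 2 + 3 ^ K * (1 + 3 * m) := by
  refine ⟨-⌊(3 ^ K / 2 + 3 ^ K - G) / 3 ^ (K + 1)⌋, ?_⟩
  unfold eta Int.fract
  push_cast
  field_simp
  ring

def Sep (O : Set (Z n)) (g : ℤ) : Prop := ∀ w ∈ O, ∀ w' ∈ O, nb (w - w') g → w = w'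

open Classical in
noncomputable def step (O : Set (Z n)) (K : ℕ) (R L : ℤ) (Φ : RF n) : RF n := fun y =>
  if h : ∃ w ∈ O, nb (y - w) R then
    fun k => Φ h.choose k + bump R L (y - h.choose) * eta K (h.choose k / 2 + Φ h.choose k)
  else Φ y

section Step

variable {O : Set (Z n)} {K : ℕ} {R L : ℤ} {Φ : RF n}

lemma step_mem (hO : Sep O (2 * R)) {w y : Z n} (hw : w ∈ O) (hy : nb (y - w) R) (k : Fin n) :
    step O K R L Φ y k = Φ w k + bump R L (y - w) * eta K (w k / 2 + Φ w k) := by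
  have h : ∃ w ∈ O, nb (y - w) R := ⟨w, hw, hy⟩
  have h1 : h.choose = w := hO _ h.choose_spec.1 _ hw (by
    have := hy.sub h.choose_spec.2
    rw [show y - w - (y - h.choose) = h.choose - w by abel, ← two_mul] at this
    exact this)
  unfold step
  rw [dif_pos h, h1]

lemma step_not {y : Z n} (h : ¬ ∃ w ∈ O, nb (y - w) R) : step O K R L Φ y = Φ y := by
  unfold step; rw [dif_neg h]

def Osc (Φ : RF n) (S : ℤ) (ε : ℝ) : Prop :=
  ∀ y y', nb (y - y') S → ∀ k, |Φ y k - Φ y' k| ≤ ε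

lemma step_osc (hO : Sep O (2 * R)) (hL : 0 < L) (hR : 0 ≤ R) {S S' : ℤ} {ε : ℝ} (hS : 0 ≤ S)
    (hS' : S + 2 * R ≤ S') (h : Osc Φ S' ε) :
    Osc (step O K R L Φ) S (ε + 2 * 3 ^ (K + 1) * (S / L)) := by
  have hL' : (0:ℝ) < L := by exact_mod_cast hL
  have hS0 : (0:ℝ) ≤ S / L := div_nonneg (by exact_mod_cast hS) hL'.le
  have hN : (0:ℝ) < 3 ^ (K + 1) := by positivity
  have small : ∀ (y y' w : Z n) (G : ℝ), nb (y - y') S → ¬ nb (y' - w) R →
      |bump R L (y - w) * eta K G| ≤ 3 ^ (K + 1) * (S / L) := by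
    intro y y' w G h1 h2
    have h3 := bump_lip (R := R) hL hS (y := y - w) (y' := y' - w) (by simpa using h1)
    rw [bump_eq_zero hL hR h2, sub_zero] at h3
    rw [abs_mul, abs_of_nonneg (eta_nonneg _ _), mul_comm]
    exact mul_le_mul (eta_le _ _) h3 (abs_nonneg _) hN.le
  have one : ∀ y y', nb (y - y') S → (∃ w ∈ O, nb (y - w) R) → (¬ ∃ w ∈ O, nb (y' - w) R) → ∀ k,
      |step O K R L Φ y k - step O K R L Φ y' k| ≤ ε + 2 * 3 ^ (K + 1) * (S / L) := by
    rintro y y' h1 ⟨w, hw, hy⟩ h2 k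
    rw [step_mem hO hw hy, step_not h2]
    have a1 := h w y' ((by simpa using h1.sub hy : nb (w - y') (S + R)).mono (by omega)) k
    have a2 := small y y' w (w k / 2 + Φ w k) h1 (fun h3 => h2 ⟨w, hw, h3⟩)
    rw [abs_le] at *
    constructor <;> nlinarith [a1.1, a1.2, a2.1, a2.2]
  intro y y' h1 k
  by_cases c1 : ∃ w ∈ O, nb (y - w) R
  · by_cases c2 : ∃ w ∈ O, nb (y' - w) R
    · obtain ⟨w, hw, hy⟩ := c1
      obtain ⟨w', hw', hy'⟩ := c2
      rw [step_mem hO hw hy, step_mem hO hw' hy']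
      have a1 := h w w' (by
        have := (h1.sub hy).add hy'
        rw [show y - y' - (y - w) + (y' - w') = w - w' by abel] at this
        exact this.mono (by omega)) k
      by_cases hww : w = w'
      · subst hww
        have h3 := bump_lip (R := R) hL hS (y := y - w) (y' := y' - w) (by simpa using h1)
        have h4 : |bump R L (y - w) * eta K (w k / 2 + Φ w k) -
            bump R L (y' - w) * eta K (w k / 2 + Φ w k)| ≤ 3 ^ (K + 1) * (S / L) := by
          rw [← sub_mul, abs_mul, abs_of_nonneg (eta_nonneg _ _), mul_comm]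
          exact mul_le_mul (eta_le _ _) h3 (abs_nonneg _) hN.le
        rw [abs_le] at *
        constructor <;> nlinarith [a1.1, a1.2, h4.1, h4.2]
      · have a2 := small y y' w (w k / 2 + Φ w k) h1 (fun h3 => hww (hO _ hw _ hw' (by
          have := hy'.sub h3
          rw [show y' - w' - (y' - w) = w - w' by abel, ← two_mul] at this; exact this)))
        have a3 := small y' y w' (w' k / 2 + Φ w' k) h1.comm (fun h3 => hww (hO _ hw _ hw' (by
          have := h3.sub hy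
          rw [show y - w' - (y - w) = w - w' by abel, ← two_mul] at this; exact this)))
        rw [abs_le] at *
        constructor <;> nlinarith [a1.1, a1.2, a2.1, a2.2, a3.1, a3.2]
    · exact one y y' h1 c1 c2 k
  · by_cases c2 : ∃ w ∈ O, nb (y' - w) R
    · rw [abs_sub_comm]; exact one y' y h1.comm c2 c1 k
    · rw [step_not c1, step_not c2]
      have := h y y' (h1.mono (by omega)) k
      nlinarith

lemma step_bound (hO : Sep O (2 * R)) {κ B : ℝ} (h : ∀ y k, |Φ y k - κ| ≤ B) (y : Z n)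
    (k : Fin n) : |step O K R L Φ y k - κ| ≤ B + 3 ^ (K + 1) := by
  have hN : (0:ℝ) < 3 ^ (K + 1) := by positivity
  by_cases c1 : ∃ w ∈ O, nb (y - w) R
  · obtain ⟨w, hw, hy⟩ := c1
    rw [step_mem hO hw hy]
    have a1 := h w k
    have a2 := bump_nonneg R L (y - w)
    have a3 := bump_le_one R L (y - w)
    have a4 := eta_nonneg K (w k / 2 + Φ w k)
    have a5 := eta_le K (w k / 2 + Φ w k)
    rw [abs_le] at *
    constructor <;> nlinarith [a1.1, a1.2]
  · rw [step_not c1]; linarith [h y k]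

lemma step_local {O' : Set (Z n)} {Φ' : RF n} (hO : Sep O (2 * R)) (hO' : Sep O' (2 * R))
    (hR : 0 ≤ R) {w0 m : Z n} {ρ : ℤ} (hag : ∀ y, nb y ρ → (w0 + y ∈ O ↔ y ∈ O'))
    (h : ∀ y, nb y ρ → ∀ k, Φ (w0 + y) k + w0 k / 2 = Φ' y k + 3 ^ (K + 1) * m k) :
    ∀ y, nb y (ρ - R) → ∀ k, step O K R L Φ (w0 + y) k + w0 k / 2 =
      step O' K R L Φ' y k + 3 ^ (K + 1) * m k := by
  intro y hy k
  by_cases c1 : ∃ w ∈ O', nb (y - w) R
  · obtain ⟨w, hw, h1⟩ := c1
    have h2 : nb w ρ := by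
      have := hy.sub h1
      simpa using this
    rw [step_mem hO' hw h1, step_mem hO ((hag w h2).2 hw) (by simpa using h1)]
    have h3 := h w h2 k
    rw [show (((w0 + w) k : ℤ) : ℝ) / 2 + Φ (w0 + w) k = w k / 2 + Φ' w k + 3 ^ (K + 1) * m k by
      simp only [Pi.add_apply]; push_cast; linarith, eta_add, add_sub_add_left_eq_sub]
    linarith
  · rw [step_not c1, step_not]
    · exact h y (hy.mono (by omega)) k
    · rintro ⟨w, hw, h1⟩
      have h2 : nb (y - (w - w0)) R := by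
        rwa [show y - (w - w0) = w0 + y - w by abel]
      refine c1 ⟨w - w0, (hag _ ?_).1 (by simpa using hw), h2⟩
      have := hy.sub h2
      simpa using this

lemma step_center (hO : Sep O (2 * R)) (hL : 0 < L) (hLR : L ≤ R) {w : Z n} (hw : w ∈ O) :
    ∃ q : Z n, pos q = ctr ∧ ∀ y, nb y (R - L) → ∀ k,
      step O K R L Φ (w + y) k + w k / 2 = 3 ^ K / 2 + 3 ^ K * q k := by
  choose m hm using fun k => eta_spec K (w k / 2 + Φ w k)
  refine ⟨fun k => 1 + 3 * m k, (pos_eq_ctr_iff _).2 fun k => by omega, fun y hy k => ?_⟩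
  rw [step_mem hO hw (by simpa using hy.mono (by omega)), add_sub_cancel_left,
    bump_eq_one hL hLR hy, one_mul]
  push_cast
  linarith [hm k]

end Step

lemma floor_diff {x y : ℝ} {m : ℤ} (h : |x - y - m| < 1) : |⌊x⌋ - ⌊y⌋ - m| ≤ 1 := by
  have h1 := Int.floor_le x
  have h2 := Int.lt_floor_add_one x
  have h3 := Int.floor_le y
  have h4 := Int.lt_floor_add_one y
  rw [abs_lt] at h
  have a1 : ((⌊x⌋ - ⌊y⌋ - m : ℤ) : ℝ) < 2 := by push_cast; linarith [h.2]
  have a2 : (-2 : ℝ) < ((⌊x⌋ - ⌊y⌋ - m : ℤ) : ℝ) := by push_cast; linarith [h.1]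
  have a3 : ⌊x⌋ - ⌊y⌋ - m < 2 := by exact_mod_cast a1
  have a4 : -2 < ⌊x⌋ - ⌊y⌋ - m := by exact_mod_cast a2
  rw [abs_le]; omega

noncomputable def flo (Φ : RF n) : Z n → Z n := fun u k => ⌊(u k : ℝ) / 2 + Φ u k⌋

lemma grid_of_osc {Φ : RF n} (h : Osc Φ (Rw n) (1 / 8)) : IsGrid (flo Φ) := by
  have hR := Rw_pos n
  have sur : ∀ u c, nb (c - flo Φ u) 1 → ∃ y, nb y (Rw n) ∧ flo Φ (u + y) = c := by
    intro u c hc
    let m : Z n := fun k => ⌈2 * (c k : ℝ) + 1 / 2 - 2 * Φ u k⌉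
    have hm : ∀ k, 2 * (c k : ℝ) + 1 / 2 - 2 * Φ u k ≤ m k ∧
        (m k : ℝ) < 2 * (c k : ℝ) + 1 / 2 - 2 * Φ u k + 1 := fun k =>
      ⟨Int.le_ceil _, Int.ceil_lt_add_one _⟩
    have hy : nb (m - u) (Rw n) := fun k => by
      have h1 := hm k
      have h2 := hc k
      have h3 := Int.floor_le ((u k : ℝ) / 2 + Φ u k)
      have h4 := Int.lt_floor_add_one ((u k : ℝ) / 2 + Φ u k)
      simp only [Pi.sub_apply, flo] at h2 ⊢
      rw [abs_le] at h2
      have h5 : (-1 : ℝ) ≤ c k - ⌊(u k : ℝ) / 2 + Φ u k⌋ := by exact_mod_cast h2.1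
      have h6 : (c k : ℝ) - ⌊(u k : ℝ) / 2 + Φ u k⌋ ≤ 1 := by exact_mod_cast h2.2
      have a1 : ((m k - u k : ℤ) : ℝ) < 4 := by push_cast; linarith [h1.2]
      have a2 : (-4 : ℝ) < ((m k - u k : ℤ) : ℝ) := by push_cast; linarith [h1.1]
      have a3 : m k - u k < 4 := by exact_mod_cast a1
      have a4 : -4 < m k - u k := by exact_mod_cast a2
      rw [abs_le]; omega
    refine ⟨m - u, hy, ?_⟩
    funext k
    have h1 := hm k
    have h2 := h m u hy k
    rw [add_sub_cancel]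
    simp only [flo]
    rw [Int.floor_eq_iff, abs_le] at *
    constructor <;> linarith [h1.1, h1.2, h2.1, h2.2]
  refine ⟨fun u i k => ?_, fun u i k => ?_, fun u k => sur u _ (by simpa using nb_e k),
    fun u k => ?_⟩
  · have h1 := h (u + e i) u (by simpa using (nb_e i).mono (by omega)) k
    have := floor_diff (x := ((u + e i) k : ℝ) / 2 + Φ (u + e i) k) (y := (u k : ℝ) / 2 + Φ u k)
      (m := 0) (by
        rw [abs_le] at h1
        simp only [Pi.add_apply, e_apply]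
        split_ifs <;> push_cast <;> rw [abs_lt] <;> constructor <;> linarith [h1.1, h1.2])
    simpa [flo] using this
  · have h0 : nb (Mc n • e i) (Rw n) := fun l => by
      have := Mc_pos n
      have := C1_pos n
      simp only [Pi.smul_apply, smul_eq_mul, e_apply, Rw]
      split_ifs
      · rw [mul_one, abs_of_nonneg (by omega)]; omega
      · simp; omega
    have h1 := h (u + Mc n • e i) u (by simpa using h0) k
    exact floor_diff (by
      rw [abs_le] at h1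
      simp only [Pi.add_apply, Pi.smul_apply, smul_eq_mul, Mc] at h1 ⊢
      push_cast
      rw [abs_lt]; constructor <;> linarith [h1.1, h1.2])
  · obtain ⟨y, h1, h2⟩ := sur u (flo Φ u - e k) (by simpa using (nb_e k).neg)
    exact ⟨y, h1, by rw [h2]; simp⟩

/-! ### The multi-scale drift -/

def rho (n K : ℕ) : ℤ := Mc n * (2 * 3 ^ K) + C1 n

def Lp (t K : ℕ) (S : ℤ) : ℤ := 2 * 3 ^ (K + 1) * S * 2 ^ (t + 4)

def Rp (n t K : ℕ) (S : ℤ) : ℤ := Lp t K S + S + rho n K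

lemma rho_pos (n K : ℕ) : 2 * 3 ^ K ≤ rho n K := by
  unfold rho
  have := Mc_pos n; have := C1_pos n
  have : (0:ℤ) < 3 ^ K := by positivity
  nlinarith

lemma rho_nonneg (n K : ℕ) : 0 ≤ rho n K := le_trans (by positivity) (rho_pos n K)

structure ParOK (n : ℕ) (K : ℕ → ℕ) (S : ℕ → ℤ) : Prop where
  s0 : ∀ t, Rw n ≤ S t
  ss : ∀ t s, t < s → S t + 2 * Rp n t (K t) (S t) ≤ S s
  kk : ∀ t s, t < s → K t < K s

noncomputable def down (O : ℕ → Set (Z n)) (K : ℕ → ℕ) (S : ℕ → ℤ) : ℕ → RF n → RF n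
  | 0, Φ => Φ
  | t + 1, Φ => down O K S t (step (O t) (K t) (Rp n t (K t) (S t)) (Lp t (K t) (S t)) Φ)

noncomputable def psi (O : ℕ → Set (Z n)) (K : ℕ → ℕ) (S : ℕ → ℤ) (s : ℕ) : Z n → Z n :=
  flo (down O K S s fun _ _ => 3 ^ K s / 2)

section Down

variable {K : ℕ → ℕ} {S : ℕ → ℤ} (hp : ParOK n K S)
include hp

lemma ParOK.Spos (t : ℕ) : 0 < S t := by have := hp.s0 t; have := Rw_pos n; omega

lemma ParOK.Lpos (t : ℕ) : 0 < Lp t (K t) (S t) := by
  have := hp.Spos t; unfold Lp; positivity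

lemma ParOK.Rpos (t : ℕ) : 0 ≤ Rp n t (K t) (S t) := by
  have := hp.Spos t; have := hp.Lpos t; have := rho_nonneg n (K t); unfold Rp; omega

lemma ParOK.rho_le (t : ℕ) : rho n (K t) ≤ Rp n t (K t) (S t) := by
  have := hp.Spos t; have := hp.Lpos t; unfold Rp; omega

lemma down_osc {O : ℕ → Set (Z n)} (hO : ∀ t, Sep (O t) (2 * Rp n t (K t) (S t))) :
    ∀ (s : ℕ) (Φ : RF n) (ε : ℝ), Osc Φ (S s) ε →
      Osc (down O K S s Φ) (Rw n) (ε + (1 / 8 - 1 / 2 ^ (s + 3))) := by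
  intro s
  induction s with
  | zero =>
    intro Φ ε h y y' hy k
    have := h y y' (hy.mono (hp.s0 0)) k
    norm_num [down]; exact this
  | succ s ih =>
    intro Φ ε h
    have h1 := step_osc (K := K s) (hO s) (hp.Lpos s) (hp.Rpos s) (hp.Spos s).le
      (hp.ss s (s + 1) (by omega)) h
    have h2 := ih _ _ h1
    have h3 : (0:ℝ) < S s := by exact_mod_cast hp.Spos s
    rw [down]
    convert h2 using 1
    unfold Lp
    push_cast
    field_simp
    ring

lemma psi_grid {O : ℕ → Set (Z n)} (hO : ∀ t, Sep (O t) (2 * Rp n t (K t) (S t))) (s : ℕ) :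
    IsGrid (psi O K S s) := by
  refine grid_of_osc fun y y' hy k => ?_
  have := down_osc hp hO s (fun _ _ => 3 ^ K s / 2) 0 (fun _ _ _ _ => by simp) y y' hy k
  have h2 : (0:ℝ) < 1 / 2 ^ (s + 3) := by positivity
  linarith

lemma down_bound {O : ℕ → Set (Z n)} (hO : ∀ t, Sep (O t) (2 * Rp n t (K t) (S t))) (κ : ℝ) :
    ∀ (s a : ℕ) (Φ : RF n) (B : ℝ), (∀ t, t < s → K t + 2 ≤ a) → (∀ y k, |Φ y k - κ| ≤ B) →
      ∀ y k, |down O K S s Φ y k - κ| ≤ B + 3 ^ a := by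
  intro s
  induction s with
  | zero =>
    intro a Φ B _ h y k
    have : (0:ℝ) < 3 ^ a := by positivity
    rw [down]; linarith [h y k]
  | succ s ih =>
    intro a Φ B ha h y k
    rw [down]
    have h1 := ih (K s + 1) _ _ (fun t ht => by have := hp.kk t s ht; omega)
      (step_bound (K := K s) (L := Lp s (K s) (S s)) (hO s) h) y k
    have h2 : (3:ℝ) ^ (K s + 2) ≤ 3 ^ a := pow_le_pow_right₀ (by norm_num) (ha s (by omega))
    have h3 : (0:ℝ) < 3 ^ (K s + 1) := by positivity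
    rw [pow_succ (3:ℝ) (K s + 1)] at h2
    linarith

lemma psi_bound {O : ℕ → Set (Z n)} (hO : ∀ t, Sep (O t) (2 * Rp n t (K t) (S t))) {s a : ℕ}
    (ha : ∀ t, t < s → K t + 2 ≤ a) (u : Z n) (k : Fin n) :
    u k + 3 ^ K s - 2 * 3 ^ a - 2 < 2 * psi O K S s u k ∧
      2 * psi O K S s u k ≤ u k + 3 ^ K s + 2 * 3 ^ a := by
  have h1 := down_bound hp hO (3 ^ K s / 2) s a (fun _ _ => 3 ^ K s / 2) 0 ha
    (fun _ _ => by simp) u k
  rw [abs_le] at h1
  have h2 := Int.floor_le ((u k : ℝ) / 2 + down O K S s (fun _ _ => 3 ^ K s / 2) u k)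
  have h3 := Int.lt_floor_add_one ((u k : ℝ) / 2 + down O K S s (fun _ _ => 3 ^ K s / 2) u k)
  have a1 : ((u k + 3 ^ K s - 2 * 3 ^ a - 2 : ℤ) : ℝ) < ((2 * psi O K S s u k : ℤ) : ℝ) := by
    simp only [psi, flo]; push_cast; linarith [h1.1]
  have a2 : ((2 * psi O K S s u k : ℤ) : ℝ) ≤ ((u k + 3 ^ K s + 2 * 3 ^ a : ℤ) : ℝ) := by
    simp only [psi, flo]; push_cast; linarith [h1.2]
  exact ⟨by exact_mod_cast a1, by exact_mod_cast a2⟩

lemma down_local {O O' : ℕ → Set (Z n)} (hO : ∀ t, Sep (O t) (2 * Rp n t (K t) (S t)))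
    (hO' : ∀ t, Sep (O' t) (2 * Rp n t (K t) (S t))) {w0 : Z n} {q : Z n} :
    ∀ (t : ℕ) (Φ Φ' : RF n) (ρ : ℤ) (M : ℕ), (∀ t', t' < t → K t' < M) →
      (∀ t', t' < t → ∀ y, nb y (ρ + S t) → (w0 + y ∈ O t' ↔ y ∈ O' t')) →
      (∀ y, nb y (ρ + S t) → ∀ k, Φ (w0 + y) k + w0 k / 2 = Φ' y k + 3 ^ M * q k) →
      ∀ y, nb y ρ → ∀ k, down O K S t Φ (w0 + y) k + w0 k / 2 =
        down O' K S t Φ' y k + 3 ^ M * q k := by
  intro t
  induction t with
  | zero =>
    intro Φ Φ' ρ M _ _ h y hy k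
    exact h y (hy.mono (by have := hp.Spos 0; omega)) k
  | succ t ih =>
    intro Φ Φ' ρ M hM hag h
    rw [down, down]
    have h1 := hp.ss t (t + 1) (by omega)
    have h2 := hp.Rpos t
    refine ih _ _ ρ M (fun t' ht => hM t' (by omega))
      (fun t' ht y hy => hag t' (by omega) y (hy.mono (by omega))) fun y hy k => ?_
    obtain ⟨d, hd⟩ := Nat.exists_eq_add_of_lt (hM t (by omega))
    have key : ∀ k, (3:ℝ) ^ M * q k = 3 ^ (K t + 1) * ((((3:ℤ) ^ d) • q) k : ℤ) := fun k => by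
      rw [hd]; simp only [Pi.smul_apply, smul_eq_mul]; push_cast; ring
    rw [key]
    exact step_local (hO t) (hO' t) h2 (hag t (by omega))
      (fun y hy k => by rw [← key]; exact h y hy k) y (hy.mono (by omega)) k

omit hp in
lemma down_split (O : ℕ → Set (Z n)) {t : ℕ} : ∀ (s : ℕ) (Φ : RF n), t < s → ∃ Φ',
    down O K S s Φ =
      down O K S t (step (O t) (K t) (Rp n t (K t) (S t)) (Lp t (K t) (S t)) Φ') := by
  intro s
  induction s with
  | zero => intro _ h; omega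
  | succ s ih =>
    intro Φ h
    rcases Nat.lt_succ_iff_lt_or_eq.1 h with h | rfl
    · rw [down]; exact ih _ h
    · exact ⟨Φ, by rw [down]⟩

lemma psi_copy {O O' : ℕ → Set (Z n)} (hO : ∀ t, Sep (O t) (2 * Rp n t (K t) (S t)))
    (hO' : ∀ t, Sep (O' t) (2 * Rp n t (K t) (S t))) {s t : ℕ} (hts : t < s) {w : Z n}
    (hw : w ∈ O t)
    (hag : ∀ t', t' < t → ∀ y, nb y (Rp n t (K t) (S t)) → (w + y ∈ O t' ↔ y ∈ O' t')) :
    ∃ q : Z n, pos q = ctr ∧ ∀ y, nb y (rho n (K t)) →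
      psi O K S s (w + y) = psi O' K S t y + ((3:ℤ) ^ K t) • q := by
  obtain ⟨Φ', h1⟩ := down_split (K := K) (S := S) O s (fun _ _ => 3 ^ K s / 2) hts
  have hL := hp.Lpos t
  have hS := hp.Spos t
  have hr := rho_nonneg n (K t)
  obtain ⟨q, hq, h2⟩ := step_center (K := K t) (Φ := Φ') (hO t) hL (by unfold Rp; omega) hw
  refine ⟨q, hq, fun y hy => ?_⟩
  have h3 := down_local hp hO hO' (w0 := w) (q := q) t _ (fun _ _ => 3 ^ K t / 2) (rho n (K t))
    (K t) (fun t' ht => hp.kk t' t ht)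
    (fun t' ht y hy => hag t' ht y (hy.mono (by unfold Rp; omega)))
    (fun y hy k => h2 y (hy.mono (by unfold Rp; omega)) k) y hy
  funext k
  simp only [psi, flo, Pi.add_apply, Pi.smul_apply, smul_eq_mul]
  rw [h1, ← Int.floor_add_intCast]
  congr 1
  push_cast
  linarith [h3 k]

end Down

end Pool.Agent.MP_c4ca5b_lc
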