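import Pool.Agent.MP_c4ca5b_lc.Grid

namespace Pool.Agent.MP_c4ca5b_lc

open Finset

variable {n : ℕ}

/-- A system of local rules on the ternary pyramid. -/
structure Sys (n : ℕ) (L : Type) : Type where
  sp : L → Prop
  SR : L → Prop
  VR : Pos n → L → L → Prop
  PS : L → Prop
  HR : Fin n → Pos n → L → L → L → Prop

structure Mk (n : ℕ) (L : Type) : Type where
  ps : Pos n
  lam : L
  mu : L

structure Face (n : ℕ) (L : Type) : Type where
  tag : Pos n
  lo : Mk n L
  up : Mk n L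

structure Pay (n : ℕ) (L : Type) : Type where
  fp : Fin n → Face n L
  fm : Fin n → Face n L

instance {L : Type} [Finite L] : Finite (Mk n L) :=
  Finite.of_injective (fun m : Mk n L => (m.ps, m.lam, m.mu)) (by
    rintro ⟨a, b, c⟩ ⟨a', b', c'⟩ h; simp at h; simp [h])

instance {L : Type} [Finite L] : Finite (Face n L) :=
  Finite.of_injective (fun m : Face n L => (m.tag, m.lo, m.up)) (by
    rintro ⟨a, b, c⟩ ⟨a', b', c'⟩ h; simp at h; simp [h])

instance {L : Type} [Finite L] : Finite (Pay n L) :=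
  Finite.of_injective (fun m : Pay n L => (m.fp, m.fm)) (by
    rintro ⟨a, b⟩ ⟨a', b'⟩ h; simp at h; simp [h])

instance {L : Type} [Inhabited L] : Inhabited (Mk n L) := ⟨⟨0, default, default⟩⟩
instance {L : Type} [Inhabited L] : Inhabited (Face n L) := ⟨⟨0, default, default⟩⟩
instance {L : Type} [Inhabited L] : Inhabited (Pay n L) := ⟨⟨default, default⟩⟩

def proper (k : Fin n) (π : Pos n) : Prop := ∃ l, l ≠ k ∧ π l ≠ 0

lemma proper_add (k : Fin n) (π : Pos n) : proper k (π + ep k) ↔ proper k π := by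
  unfold proper
  refine exists_congr fun l => and_congr_right fun hl => ?_
  simp [ep, hl]

variable {L : Type} (S : Sys n L)

def Sys.Rel (k : Fin n) (m m' : Mk n L) : Prop :=
  m'.ps = m.ps + ep k ∧ (m.ps k ≠ 2 → ¬ S.sp m.lam → ¬ S.sp m'.lam → m.mu = m'.mu) ∧
  S.SR m.lam ∧ (S.sp m.lam → m.ps = ctr) ∧
  (¬ S.sp m.lam → S.VR m.ps m.lam m.mu ∧ S.HR k m.ps m.lam m'.lam m.mu)

def Sys.PC (m : Mk n L) (lp : L) : Prop :=
  (S.sp m.lam → S.PS lp) ∧ (¬ S.sp m.lam → m.mu = lp)

def Sys.Chk (k : Fin n) (m : Mk n L) (f : Face n L) : Prop :=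
  proper k m.ps → f.tag = m.ps ∧ S.PC m f.lo.lam

def Sys.Kind (π : Pos n) (M : Mk n L) (p : Pay n L) : Prop :=
  (∀ k, proper k π → (p.fp k).tag = π ∧ (p.fp k).lo = M ∧ (p.fm k).tag + ep k = π ∧
      (p.fm k).up = M ∧ (π k ≠ 2 → (p.fp k).up = M) ∧ (π k = 2 → S.Rel k M (p.fp k).up)) ∧
  (∀ k, ¬ proper k π → p.fp k = p.fm k ∧ S.Chk k M (p.fp k))

def Sys.K0 (p : Pay n L) : Prop := ∃ π M, π ≠ 0 ∧ S.Kind π M p

abbrev Cfg (n : ℕ) (L : Type) := Z n → Mk n L × Pay n L

structure Sys.Valid (ζ : Cfg n L) : Prop where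
  k0 : ∀ c, S.K0 (ζ c).2
  rel : ∀ c k, S.Rel k (ζ c).1 (ζ (c + e k)).1
  face : ∀ c k, (ζ c).2.fp k = (ζ (c + e k)).2.fm k
  chk : ∀ c k, S.Chk k (ζ c).1 ((ζ c).2.fp k)

def offs (ζ : Cfg n L) : Z n := fun k => -(((ζ 0).1.ps k).val : ℤ)

def one : Z n := fun _ => 1

def der (k0 : Fin n) (ζ : Cfg n L) : Cfg n L := fun C =>
  (((ζ ((3 : ℤ) • C + offs ζ + one)).2.fp k0).lo, (ζ ((3 : ℤ) • C + offs ζ)).2)

variable {S}

lemma ep_ne_zero (k : Fin n) : ep k ≠ 0 := by
  intro h; have := congrFun h k; simp [ep] at this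

lemma Sys.Valid.ps_eq {ζ : Cfg n L} (h : S.Valid ζ) (c : Z n) :
    (ζ c).1.ps = pos (c - offs ζ) := by
  refine unit_induction (P := fun c => (ζ c).1.ps = pos (c - offs ζ)) 0 ?_ ?_ c
  · funext k; simp [pos, offs]
  · intro u k
    rw [(h.rel u k).1, show u + e k - offs ζ = u - offs ζ + e k by abel, pos_add_e]
    simp

lemma exists_proper [Nontrivial (Fin n)] {π : Pos n} (h : π ≠ 0) : ∃ k, proper k π := by
  obtain ⟨l, hl⟩ : ∃ l, π l ≠ 0 := by
    by_contra h'; push Not at h'; exact h (funext h')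
  obtain ⟨k, hk⟩ := exists_ne l
  exact ⟨k, l, hk.symm, hl⟩

lemma Sys.Valid.kind [Nontrivial (Fin n)] {ζ : Cfg n L} (h : S.Valid ζ) (c : Z n)
    (hc : (ζ c).1.ps ≠ 0) : ∃ M, S.Kind (ζ c).1.ps M (ζ c).2 := by
  obtain ⟨π, M, hπ, hK⟩ := h.k0 c
  obtain ⟨k, hk⟩ := exists_proper hc
  have h1 := (h.chk c k hk).1
  have h2 : (ζ c).1.ps = (ζ (c - e k)).1.ps + ep k := by
    have := (h.rel (c - e k) k).1
    rwa [sub_add_cancel] at this
  have h3 : ((ζ c).2.fm k).tag = (ζ (c - e k)).1.ps := by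
    have := h.face (c - e k) k
    rw [sub_add_cancel] at this
    rw [← this]
    exact (h.chk _ k (by rw [h2, proper_add] at hk; exact hk)).1
  by_cases hp : proper k π
  · have := (hK.1 k hp).1
    rw [h1] at this
    exact ⟨M, this ▸ hK⟩
  · have := (hK.2 k hp).1
    rw [this, h3] at h1
    rw [h1] at h2
    exact absurd (by simpa using h2) (ep_ne_zero k)

lemma pos_tri (C o : Z n) (y : Z n) : pos ((3 : ℤ) • C + o + y - o) = pos y := by
  rw [show (3 : ℤ) • C + o + y - o = y + (3:ℤ) • C by abel, pos_add_smul]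

lemma proper_pos_iff (k : Fin n) (y : Z n) : proper k (pos y) ↔ ∃ l, l ≠ k ∧ y l % 3 ≠ 0 := by
  unfold proper
  simp only [Ne, pos_zero_iff]

lemma pos_ne_zero_iff (y : Z n) : pos y ≠ 0 ↔ ∃ l, y l % 3 ≠ 0 := by
  rw [Ne, funext_iff, not_forall]
  simp only [Pi.zero_apply, pos_zero_iff]

/-- The internal label of a cell with non-zero position is the label of its parent. -/
lemma Sys.Valid.kind_der [Nontrivial (Fin n)] (k0 : Fin n) {ζ : Cfg n L} (h : S.Valid ζ)
    (C y : Z n) (hy : ∀ k, 0 ≤ y k ∧ y k < 3) (hy0 : pos y ≠ 0) :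
    S.Kind (pos y) (der k0 ζ C).1 (ζ ((3 : ℤ) • C + offs ζ + y)).2 := by
  set o := offs ζ with ho
  have hps : ∀ y, (ζ ((3 : ℤ) • C + o + y)).1.ps = pos y := fun y => by
    rw [h.ps_eq, pos_tri]
  have hK : ∀ y, pos y ≠ 0 → ∃ M, S.Kind (pos y) M (ζ ((3 : ℤ) • C + o + y)).2 := fun y hy => by
    have := h.kind ((3 : ℤ) • C + o + y) (by rw [hps]; exact hy)
    rwa [hps] at this
  -- one step
  have step : ∀ y k M M', proper k (pos y) → y k % 3 ≠ 2 →
      S.Kind (pos y) M (ζ ((3 : ℤ) • C + o + y)).2 →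
      S.Kind (pos (y + e k)) M' (ζ ((3 : ℤ) • C + o + (y + e k))).2 → M = M' := by
    intro y k M M' hp h2 hM hM'
    have a := (hM.1 k hp).2.2.2.2.1 (by rw [Ne, pos_two_iff]; exact h2)
    have b := (hM'.1 k (by rw [pos_add_e, proper_add]; exact hp)).2.2.2.1
    have c := h.face ((3 : ℤ) • C + o + y) k
    rw [add_assoc _ y] at c
    rw [← a, c, b]
  have hone : pos (one : Z n) ≠ 0 := by
    rw [pos_ne_zero_iff]; exact ⟨k0, by simp [one]⟩
  have hprop1 : ∀ k, proper k (pos (one : Z n)) := fun k => by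
    obtain ⟨l, hl⟩ := exists_ne k
    rw [proper_pos_iff]; exact ⟨l, hl, by simp [one]⟩
  obtain ⟨M1, hM1⟩ := hK one hone
  have hM1' : (der k0 ζ C).1 = M1 := (hM1.1 k0 (hprop1 k0)).2.1
  rw [hM1']
  have main : ∀ N, ∀ y : Z n, (∀ k, 0 ≤ y k ∧ y k < 3) → pos y ≠ 0 → l1 (y - one) = N →
      S.Kind (pos y) M1 (ζ ((3 : ℤ) • C + o + y)).2 := by
    intro N
    induction N with
    | zero =>
      intro y _ _ hN
      have : y = one := by
        by_contra hne
        obtain ⟨k, ⟨y', -, h2⟩ | ⟨y', -, h2⟩⟩ := l1_step (y - one) (sub_ne_zero.2 hne) <;> omega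
      rw [this]; exact hM1
    | succ N ih =>
      intro y hy hy0 hN
      have key : ∀ (y' : Z n) (k : Fin n), (∀ l, l ≠ k → y' l = y l) →
          (y' k - 1).natAbs + 1 = (y k - 1).natAbs → l1 (y' - one) = N := by
        intro y' k h1 h2
        unfold l1 at hN ⊢
        rw [← Finset.add_sum_erase _ _ (Finset.mem_univ k)] at hN ⊢
        have : ∑ x ∈ univ.erase k, ((y' - one : Z n) x).natAbs =
            ∑ x ∈ univ.erase k, ((y - one : Z n) x).natAbs :=
          Finset.sum_congr rfl (fun l hl => by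
            simp only [Pi.sub_apply]; rw [h1 l (Finset.ne_of_mem_erase hl)])
        simp only [Pi.sub_apply, one] at hN this ⊢
        omega
      obtain ⟨M, hM⟩ := hK y hy0
      by_cases hz : ∃ k, y k = 0
      · obtain ⟨k, hk⟩ := hz
        have hp : proper k (pos y) := by
          rw [proper_pos_iff]
          obtain ⟨l, hl⟩ := (pos_ne_zero_iff y).1 hy0
          exact ⟨l, by rintro rfl; omega, hl⟩
        have h1 := ih (y + e k) (fun l => by
            have := hy l
            rw [Pi.add_apply, e_apply]; split_ifs with h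
            · subst h; omega
            · omega)
          (by rw [pos_ne_zero_iff]; exact ⟨k, by simp [hk]⟩)
          (key _ k (fun l hl => by simp [e_ne hl]) (by simp [hk]))
        rw [← step y k M M1 hp (by omega) hM h1]; exact hM
      · push Not at hz
        obtain ⟨k, hk⟩ : ∃ k, y k = 2 := by
          by_contra h2; push Not at h2
          have : y = one := funext fun k => by
            have := hy k; have := hz k; have := h2 k; simp only [one]; omega
          rw [this] at hN; simp [l1] at hN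
        obtain ⟨l, hl⟩ := exists_ne k
        have hp : proper k (pos (y - e k)) := by
          rw [proper_pos_iff]
          refine ⟨l, hl, ?_⟩
          have := hy l; have := hz l
          simp only [Pi.sub_apply, e_ne hl]; omega
        have h1 := ih (y - e k) (fun l => by
            have := hy l
            rw [Pi.sub_apply, e_apply]; split_ifs with h
            · subst h; omega
            · omega)
          (by rw [pos_ne_zero_iff]; exact ⟨k, by simp [hk]⟩)
          (key _ k (fun l hl => by simp [e_ne hl]) (by simp [hk]))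
        have := step (y - e k) k M1 M hp (by simp [hk]) h1 (by rw [sub_add_cancel]; exact hM)
        rw [this]; exact hM
  exact main _ y hy hy0 rfl

lemma bound_e (k : Fin n) (a : ℤ) (ha : 0 ≤ a ∧ a < 3) : ∀ l, 0 ≤ (a • e k) l ∧ (a • e k) l < 3 := by
  intro l
  simp only [Pi.smul_apply, smul_eq_mul, e_apply]; split_ifs <;> omega

lemma not_proper_e (k : Fin n) (a : ℤ) : ¬ proper k (pos (a • e k)) := by
  rw [proper_pos_iff]
  rintro ⟨l, hl, h⟩
  simp [e_ne hl] at h

lemma Sys.Valid.der [Nontrivial (Fin n)] (k0 : Fin n) {ζ : Cfg n L} (h : S.Valid ζ) :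
    S.Valid (der k0 ζ) := by
  have wire : ∀ C k (a : ℤ), a = 1 ∨ a = 2 →
      S.Kind (pos (a • e k)) (Pool.Agent.MP_c4ca5b_lc.der k0 ζ C).1
        (ζ ((3 : ℤ) • C + offs ζ + a • e k)).2 := by
    intro C k a ha
    refine h.kind_der k0 C _ (bound_e k a (by omega)) ?_
    rw [pos_ne_zero_iff]; exact ⟨k, by simp; omega⟩
  have f1 : ∀ C k, (ζ ((3 : ℤ) • C + offs ζ)).2.fp k =
      (ζ ((3 : ℤ) • C + offs ζ + (1:ℤ) • e k)).2.fp k := by
    intro C k
    rw [((wire C k 1 (Or.inl rfl)).2 k (not_proper_e k 1)).1, h.face, one_smul]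
  constructor
  · intro C; exact h.k0 _
  · intro C k
    obtain ⟨l, hl⟩ := exists_ne k
    have h1 := h.kind_der k0 C (one + e k) (fun l => by
      simp only [Pi.add_apply, one, e_apply]; split_ifs <;> omega)
      (by rw [pos_ne_zero_iff]; exact ⟨k, by simp [one]⟩)
    have h2 := h.kind_der k0 (C + e k) (one - e k) (fun l => by
      simp only [Pi.sub_apply, one, e_apply]; split_ifs <;> omega)
      (by rw [pos_ne_zero_iff]; exact ⟨l, by simp [one, e_ne hl]⟩)
    have p1 : proper k (pos (one + e k)) := by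
      rw [proper_pos_iff]; exact ⟨l, hl, by simp [one, e_ne hl]⟩
    have p2 : proper k (pos (one - e k)) := by
      rw [proper_pos_iff]; exact ⟨l, hl, by simp [one, e_ne hl]⟩
    have a := (h1.1 k p1).2.2.2.2.2 (by rw [pos_two_iff]; simp [one])
    have b := (h2.1 k p2).2.2.2.1
    have c := h.face ((3 : ℤ) • C + offs ζ + (one + e k)) k
    rw [show (3 : ℤ) • C + offs ζ + (one + e k) + e k =
      (3 : ℤ) • (C + e k) + offs ζ + (one - e k) by
        funext i; simp only [Pi.add_apply, Pi.smul_apply, Pi.sub_apply, smul_eq_mul]; ring] at c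
    rw [c, b] at a
    exact a
  · intro C k
    show (ζ ((3 : ℤ) • C + offs ζ)).2.fp k = (ζ ((3 : ℤ) • (C + e k) + offs ζ)).2.fm k
    rw [f1, h.face]
    rw [show (3 : ℤ) • C + offs ζ + (1:ℤ) • e k + e k = (3 : ℤ) • C + offs ζ + (2:ℤ) • e k by
        funext i; simp only [Pi.add_apply, Pi.smul_apply, smul_eq_mul]; ring]
    rw [← ((wire C k 2 (Or.inr rfl)).2 k (not_proper_e k 2)).1, h.face]
    congr 3
    funext i; simp only [Pi.add_apply, Pi.smul_apply, smul_eq_mul]; ring
  · intro C k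
    show S.Chk k _ ((ζ ((3 : ℤ) • C + offs ζ)).2.fp k)
    rw [f1]
    exact ((wire C k 1 (Or.inl rfl)).2 k (not_proper_e k 1)).2

lemma ep_ne_ctr [Nontrivial (Fin n)] (k : Fin n) : ep k ≠ ctr := by
  obtain ⟨l, hl⟩ := exists_ne k
  intro h; have := congrFun h l; simp [ep, ctr, hl] at this

lemma zero_ne_ctr [Nontrivial (Fin n)] (k : Fin n) : (0 : Pos n) ≠ ctr := by
  intro h; have := congrFun h k; simp [ctr] at this

lemma Sys.Valid.pc [Nontrivial (Fin n)] (k0 : Fin n) {ζ : Cfg n L} (h : S.Valid ζ) (c : Z n) :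
    S.PC (ζ c).1 (Pool.Agent.MP_c4ca5b_lc.der k0 ζ (par (c - offs ζ))).1.lam := by
  have main : ∀ c, (ζ c).1.ps ≠ 0 →
      S.PC (ζ c).1 (Pool.Agent.MP_c4ca5b_lc.der k0 ζ (par (c - offs ζ))).1.lam := by
    intro c hc
    let y : Z n := fun k => (c k - offs ζ k) % 3
    have hcy : (3 : ℤ) • par (c - offs ζ) + offs ζ + y = c := by
      funext k; simp only [Pi.add_apply, Pi.smul_apply, smul_eq_mul, par, y, Pi.sub_apply]; omega
    have hp : (ζ c).1.ps = pos y := by
      conv_lhs => rw [← hcy]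
      rw [h.ps_eq, pos_tri]
    have hK := h.kind_der k0 (par (c - offs ζ)) y (fun k => by simp only [y]; omega) (hp ▸ hc)
    rw [hcy, ← hp] at hK
    obtain ⟨k, hk⟩ := exists_proper hc
    have := (h.chk c k hk).2
    rwa [(hK.1 k hk).2.1] at this
  by_cases hc : (ζ c).1.ps = 0
  · have r := h.rel c k0
    have hns : ¬ S.sp (ζ c).1.lam := fun hs => zero_ne_ctr k0 (hc ▸ r.2.2.2.1 hs)
    have hp' : (ζ (c + e k0)).1.ps = ep k0 := by rw [r.1, hc, zero_add]
    have hns' : ¬ S.sp (ζ (c + e k0)).1.lam := fun hs =>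
      ep_ne_ctr k0 (hp' ▸ (h.rel (c + e k0) k0).2.2.2.1 hs)
    have h1 := (main (c + e k0) (by rw [hp']; exact ep_ne_zero k0)).2 hns'
    have h2 := r.2.1 (by rw [hc]; show (0 : ZMod 3) ≠ 2; decide) hns hns'
    refine ⟨fun hs => absurd hs hns, fun _ => ?_⟩
    rw [h2, h1, show c + e k0 - offs ζ = c - offs ζ + e k0 by abel, par_add_e_of_ne]
    rw [← h.ps_eq, hc]; show (0 : ZMod 3) ≠ 2; decide
  · exact main c hc

lemma Sys.Valid.lift {α : Type} (F : Filter α) (k0 : Fin n) {ζ : Cfg n L} (h : S.Valid ζ)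
    (τ : α → Z n) (hτ : ∀ c, ∀ᶠ v in F, ζ (c + τ v) = ζ c) :
    ∃ τ' : α → Z n, (∀ᶠ v in F, τ v = (3 : ℤ) • τ' v) ∧
      ∀ C, ∀ᶠ v in F, Pool.Agent.MP_c4ca5b_lc.der k0 ζ (C + τ' v) =
        Pool.Agent.MP_c4ca5b_lc.der k0 ζ C := by
  have h3 : ∀ᶠ v in F, τ v = (3 : ℤ) • par (τ v) := by
    filter_upwards [hτ (offs ζ)] with v hv
    have h1 := h.ps_eq (offs ζ + τ v)
    rw [hv, h.ps_eq] at h1
    funext k
    have h2 := congrFun h1 k
    simp only [sub_self, add_sub_cancel_left] at h2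
    have h4 : pos (0 : Z n) k = 0 := by simp [pos]
    rw [h4, eq_comm, pos_zero_iff] at h2
    simp only [Pi.smul_apply, smul_eq_mul, par]; omega
  refine ⟨fun v => par (τ v), h3, fun C => ?_⟩
  filter_upwards [h3, hτ ((3 : ℤ) • C + offs ζ + one), hτ ((3 : ℤ) • C + offs ζ)] with v h1 h2 h4
  unfold Pool.Agent.MP_c4ca5b_lc.der
  rw [smul_add, ← h1, ← h2, ← h4]
  congr 1
  · congr 4; abel
  · congr 2; abel

/-! ### Standard pyramids -/

def Sub (K j : ℕ) (C : Z n) : Prop := j ≤ K ∧ anc (K - j) C = 0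

lemma sub_iff {K j : ℕ} {C : Z n} :
    Sub K j C ↔ j ≤ K ∧ ∀ k, 0 ≤ C k ∧ C k < 3 ^ (K - j) := by
  unfold Sub; rw [anc_eq_iff]; simp

lemma Sub.par {K j : ℕ} {C : Z n} (h : Sub K j C) (hj : j < K) : Sub K (j + 1) (par C) := by
  refine ⟨hj, ?_⟩
  rw [← anc_succ', show K - (j + 1) + 1 = K - j by omega]; exact h.2

lemma Sub.root {K : ℕ} {C : Z n} (h : Sub K K C) : C = 0 := by
  have := h.2; simpa using this

lemma sub_root (K : ℕ) : Sub K K (0 : Z n) := ⟨le_rfl, by simp⟩

structure Sys.Pyr (S : Sys n L) (K : ℕ) (lam : ℕ → Z n → L) : Prop where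
  sr : ∀ j C, Sub K j C → S.SR (lam j C)
  spc : ∀ j C, j < K → Sub K j C → S.sp (lam j C) →
    pos C = ctr ∧ S.PS (lam (j + 1) (par C))
  vr : ∀ j C, j < K → Sub K j C → ¬ S.sp (lam j C) →
    S.VR (pos C) (lam j C) (lam (j + 1) (par C))
  hr : ∀ j C k, j < K → Sub K j C → Sub K j (C + e k) → ¬ S.sp (lam j C) →
    S.HR k (pos C) (lam j C) (lam j (C + e k)) (lam (j + 1) (par C))

open Classical in
noncomputable def Sys.mk' (S : Sys n L) [Inhabited L] (lam : ℕ → Z n → L) (j : ℕ) (C : Z n) :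
    Mk n L :=
  ⟨if S.sp (lam j C) then ctr else pos C, lam j C,
    if S.sp (lam j C) then default else lam (j + 1) (par C)⟩

open Classical in
noncomputable def Sys.face (S : Sys n L) [Inhabited L] (lam : ℕ → Z n → L) (k : Fin n)
    (j : ℕ) (C : Z n) : Face n L :=
  if h1 : proper k (pos C) then
    ⟨pos C, S.mk' lam (j + 1) (par C), S.mk' lam (j + 1) (par (C + e k))⟩
  else if h2 : ∃ l, l ≠ k ∧ C l ≠ 0 then S.face lam k (j + 1) (par C) else default
termination_by ∑ l ∈ univ.erase k, (C l).natAbs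
decreasing_by
  rw [proper_pos_iff] at h1
  push Not at h1
  obtain ⟨l, hl, hl0⟩ := h2
  refine Finset.sum_lt_sum (fun i hi => ?_) ⟨l, by simp [hl], ?_⟩
  · have := h1 i (Finset.ne_of_mem_erase hi)
    simp only [par]; omega
  · have := h1 l hl
    simp only [par]; omega

variable [Inhabited L]

lemma Sys.face_proper (lam : ℕ → Z n → L) {k : Fin n} (j : ℕ) {C : Z n} (h : proper k (pos C)) :
    S.face lam k j C =
      ⟨pos C, S.mk' lam (j + 1) (par C), S.mk' lam (j + 1) (par (C + e k))⟩ := by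
  rw [Sys.face, dif_pos h]

lemma Sys.face_not (lam : ℕ → Z n → L) {k : Fin n} (j : ℕ) {C : Z n} (h : ¬ proper k (pos C)) :
    S.face lam k j C = S.face lam k (j + 1) (par C) := by
  rw [Sys.face, dif_neg h]
  split_ifs with h2
  · rfl
  · push Not at h2
    have h3 : ∀ l, l ≠ k → par C l = 0 := fun l hl => by simp [par, h2 l hl]
    rw [Sys.face, dif_neg, dif_neg]
    · rintro ⟨l, hl, h4⟩; exact h4 (h3 l hl)
    · rw [proper_pos_iff]; rintro ⟨l, hl, h4⟩; rw [h3 l hl] at h4; simp at h4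

noncomputable def Sys.enc (S : Sys n L) (lam : ℕ → Z n → L) (j : ℕ) (C : Z n) :
    Mk n L × Pay n L :=
  (S.mk' lam j C, ⟨fun k => S.face lam k j C, fun k => S.face lam k j (C - e k)⟩)

def InZ (K j : ℕ) (C : Z n) : Prop := j < K ∧ anc (K - 1 - j) C = one

lemma inZ_iff {K j : ℕ} {C : Z n} :
    InZ K j C ↔ j < K ∧ ∀ k, 3 ^ (K - 1 - j) ≤ C k ∧ C k < 2 * 3 ^ (K - 1 - j) := by
  unfold InZ; rw [anc_eq_iff]; simp only [one, mul_one, two_mul]

lemma InZ.par {K j : ℕ} {C : Z n} (h : InZ K j C) (hj : j + 1 < K) : InZ K (j + 1) (par C) := by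
  refine ⟨hj, ?_⟩
  rw [← anc_succ', show K - 1 - (j + 1) + 1 = K - 1 - j by omega]; exact h.2

lemma InZ.sub_near {K j : ℕ} {C D : Z n} (h : InZ K j C) (hD : nb (D - C) 1) : Sub K j D := by
  rw [inZ_iff] at h; rw [sub_iff]
  refine ⟨h.1.le, fun k => ?_⟩
  have h1 := h.2 k
  have h2 := hD k
  have h3 : (3:ℤ) ^ (K - j) = 3 * 3 ^ (K - 1 - j) := by
    rw [show K - j = K - 1 - j + 1 by have := h.1; omega, pow_succ']
  have h4 : (0:ℤ) < 3 ^ (K - 1 - j) := by positivity
  rw [Pi.sub_apply, abs_le] at h2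
  constructor <;> linarith [h1.1, h1.2, h2.1, h2.2]

lemma InZ.sub {K j : ℕ} {C : Z n} (h : InZ K j C) : Sub K j C :=
  h.sub_near (by rw [sub_self]; exact nb_zero zero_le_one)

lemma InZ.sub_add {K j : ℕ} {C : Z n} (h : InZ K j C) (k : Fin n) : Sub K j (C + e k) :=
  h.sub_near (by rw [add_sub_cancel_left]; exact nb_e k)

lemma InZ.sub_sub {K j : ℕ} {C : Z n} (h : InZ K j C) (k : Fin n) : Sub K j (C - e k) :=
  h.sub_near (by rw [sub_sub_cancel_left]; exact (nb_e k).neg)

lemma InZ.top {K j : ℕ} {C : Z n} (h : InZ K j C) (hj : ¬ j + 1 < K) : C = one := by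
  have h1 := h.2
  rw [show K - 1 - j = 0 by have := h.1; omega] at h1
  simpa using h1

lemma Sys.Pyr.mk_ps {K : ℕ} {lam : ℕ → Z n → L} (h : S.Pyr K lam) {j : ℕ} {C : Z n} (hj : j < K)
    (hC : Sub K j C) : (S.mk' lam j C).ps = pos C := by
  unfold Sys.mk'
  by_cases hs : S.sp (lam j C)
  · simp [hs, (h.spc j C hj hC hs).1]
  · simp [hs]

lemma Sys.Pyr.rel {K : ℕ} {lam : ℕ → Z n → L} (h : S.Pyr K lam) {j : ℕ} {C : Z n} {k : Fin n}
    (hj : j < K) (hC : Sub K j C) (hC' : Sub K j (C + e k)) :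
    S.Rel k (S.mk' lam j C) (S.mk' lam j (C + e k)) := by
  refine ⟨?_, ?_, h.sr j C hC, ?_, ?_⟩
  · rw [h.mk_ps hj hC, h.mk_ps hj hC', pos_add_e]
  · rw [h.mk_ps hj hC]
    intro h2 h3 h4
    simp only [Sys.mk'] at h3 h4 ⊢
    rw [if_neg h3, if_neg h4, par_add_e_of_ne h2]
  · intro hs
    rw [h.mk_ps hj hC]; exact (h.spc j C hj hC hs).1
  · intro hs
    rw [h.mk_ps hj hC]
    simp only [Sys.mk'] at hs ⊢
    rw [if_neg hs]
    exact ⟨h.vr j C hj hC hs, h.hr j C k hj hC hC' hs⟩

lemma Sys.Pyr.chk {K : ℕ} {lam : ℕ → Z n → L} (h : S.Pyr K lam) {j : ℕ} {C : Z n} (k : Fin n)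
    (hj : j < K) (hC : Sub K j C) : S.Chk k (S.mk' lam j C) (S.face lam k j C) := by
  intro hp
  rw [h.mk_ps hj hC] at hp ⊢
  rw [S.face_proper lam j hp]
  refine ⟨rfl, fun hs => (h.spc j C hj hC hs).2, fun hs => ?_⟩
  simp only [Sys.mk'] at hs ⊢
  rw [if_neg hs]

lemma proper_one [Nontrivial (Fin n)] (k : Fin n) : proper k (pos (one : Z n)) := by
  obtain ⟨l, hl⟩ := exists_ne k
  rw [proper_pos_iff]; exact ⟨l, hl, by simp [one]⟩

lemma proper_sub_e (k : Fin n) (C : Z n) : proper k (pos (C - e k)) ↔ proper k (pos C) := by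
  rw [← proper_add, ← pos_add_e, sub_add_cancel]

lemma Sys.Pyr.k0 [Nontrivial (Fin n)] {K : ℕ} {lam : ℕ → Z n → L} (h : S.Pyr K lam) :
    ∀ (d j : ℕ) (C : Z n), j + d = K → InZ K j C → S.K0 (S.enc lam j C).2 := by
  intro d
  induction d with
  | zero => intro j C hj hC; have := hC.1; omega
  | succ d ih =>
    intro j C hj hC
    by_cases hp : pos C = 0
    · have hj1 : j + 1 < K := by
        by_contra hn
        obtain ⟨k, -⟩ := exists_pair_ne (Fin n)
        obtain ⟨l, -, hl⟩ := proper_one k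
        rw [← hC.top hn, hp] at hl
        exact hl rfl
      have := ih (j + 1) (par C) (by omega) (hC.par hj1)
      have hnp : ∀ k, ¬ proper k (pos C) := by
        rintro k ⟨l, -, hl⟩; rw [hp] at hl; exact hl rfl
      convert this using 1
      simp only [Sys.enc]
      congr 1
      · funext k; exact S.face_not lam j (hnp k)
      · funext k
        rw [S.face_not lam j (by rw [proper_sub_e]; exact hnp k)]
        congr 1
        have h2 : pos (C - e k) k = 2 := by
          have := (pos_zero_iff C k).1 (by rw [hp]; rfl)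
          rw [pos_two_iff]; simp; omega
        have := par_add_e_of_eq h2
        rw [sub_add_cancel] at this
        rw [this]; simp
    · refine ⟨pos C, S.mk' lam (j + 1) (par C), hp, fun k hk => ?_, fun k hk => ?_⟩
      · simp only [Sys.enc]
        rw [S.face_proper lam j hk, S.face_proper lam j ((proper_sub_e k C).2 hk)]
        refine ⟨rfl, rfl, by simp only; rw [← pos_add_e, sub_add_cancel], by simp, fun h2 => ?_,
          fun h2 => ?_⟩
        · simp only; rw [par_add_e_of_ne h2]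
        · simp only; rw [par_add_e_of_eq h2]
          have hj1 : j + 1 < K := by
            by_contra hn
            rw [hC.top hn, pos_two_iff] at h2
            simp [one] at h2
          exact h.rel hj1 (hC.par hj1).sub ((hC.par hj1).sub_add k)
      · simp only [Sys.enc]
        have hj1 : j + 1 < K := by
          by_contra hn
          rw [hC.top hn] at hk
          exact hk (proper_one k)
        rw [S.face_not lam j hk, S.face_not lam j (by rw [proper_sub_e]; exact hk)]
        refine ⟨?_, h.chk k hj1 (hC.par hj1).sub⟩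
        congr 1
        have h2 : pos (C - e k) k ≠ 2 := by
          have h3 : pos C k ≠ 0 := by
            intro h3; apply hp; funext l
            by_cases hl : l = k
            · rw [hl]; exact h3
            · by_contra h4; exact hk ⟨l, hl, h4⟩
          rw [Ne, pos_zero_iff] at h3
          rw [Ne, pos_two_iff]; simp; omega
        have := par_add_e_of_ne h2
        rwa [sub_add_cancel] at this

section Translate

variable {K : ℕ} {lam lam' : ℕ → Z n → L} {q : Z n}

lemma pow_smul_succ {K j : ℕ} (hj : j < K) (q : Z n) :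
    ((3:ℤ) ^ (K - j)) • q = (3:ℤ) • (((3:ℤ) ^ (K - (j + 1))) • q) := by
  rw [smul_smul, show K - j = K - (j + 1) + 1 by omega, pow_succ']

lemma Sys.mk'_translate
    (h : ∀ j C, Sub K j C → lam' j (C + ((3:ℤ) ^ (K - j)) • q) = lam j C)
    (hs : S.sp (lam K 0)) {j : ℕ} {C : Z n} (hC : Sub K j C) :
    S.mk' lam' j (C + ((3:ℤ) ^ (K - j)) • q) = S.mk' lam j C := by
  unfold Sys.mk'
  rw [h j C hC]
  by_cases hsp : S.sp (lam j C)
  · simp [hsp]
  · have hj : j < K := by
      rcases hC.1.lt_or_eq with h1 | h1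
      · exact h1
      · subst h1; rw [hC.root] at hsp; exact absurd hs hsp
    simp only [hsp, if_false]
    rw [pow_smul_succ hj, pos_add_smul, par_add_smul, h _ _ (hC.par hj)]

lemma Sys.face_translate [Nontrivial (Fin n)]
    (h : ∀ j C, Sub K j C → lam' j (C + ((3:ℤ) ^ (K - j)) • q) = lam j C)
    (hs : S.sp (lam K 0)) (k : Fin n) :
    ∀ (d j : ℕ) (C : Z n), j + d = K → (InZ K j C ∨ InZ K j (C + e k)) →
      S.face lam' k j (C + ((3:ℤ) ^ (K - j)) • q) = S.face lam k j C := by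
  intro d
  induction d with
  | zero => intro j C hj hC; rcases hC with hC | hC <;> (have := hC.1; omega)
  | succ d ih =>
    intro j C hj hC
    have hjK : j < K := by omega
    have hs1 : Sub K j C := by
      rcases hC with hC | hC
      · exact hC.sub
      · simpa using hC.sub_sub k
    have hs2 : Sub K j (C + e k) := by
      rcases hC with hC | hC
      · exact hC.sub_add k
      · exact hC.sub
    have hpos : pos (C + ((3:ℤ) ^ (K - j)) • q) = pos C := by
      rw [pow_smul_succ hjK, pos_add_smul]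
    by_cases hp : proper k (pos C)
    · rw [S.face_proper lam j hp, S.face_proper lam' j (hpos ▸ hp), hpos]
      rw [show C + ((3:ℤ) ^ (K - j)) • q + e k = C + e k + ((3:ℤ) ^ (K - j)) • q by abel]
      rw [pow_smul_succ hjK, par_add_smul, par_add_smul,
        S.mk'_translate h hs (hs1.par hjK), S.mk'_translate h hs (hs2.par hjK)]
    · rw [S.face_not lam j hp, S.face_not lam' j (hpos ▸ hp), pow_smul_succ hjK, par_add_smul]
      have hj1 : j + 1 < K := by
        by_contra hn
        rcases hC with hC | hC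
        · rw [hC.top hn] at hp; exact hp (proper_one k)
        · have := hC.top hn
          rw [← proper_add, ← pos_add_e, this] at hp; exact hp (proper_one k)
      refine ih (j + 1) (par C) (by omega) ?_
      rcases hC with hC | hC
      · exact Or.inl (hC.par hj1)
      · have := hC.par hj1
        by_cases h2 : pos C k = 2
        · rw [par_add_e_of_eq h2] at this; exact Or.inr this
        · rw [par_add_e_of_ne h2] at this; exact Or.inl this

lemma Sys.enc_translate [Nontrivial (Fin n)]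
    (h : ∀ j C, Sub K j C → lam' j (C + ((3:ℤ) ^ (K - j)) • q) = lam j C)
    (hs : S.sp (lam K 0)) {C : Z n} (hC : InZ K 0 C) :
    S.enc lam' 0 (C + ((3:ℤ) ^ K) • q) = S.enc lam 0 C := by
  unfold Sys.enc
  have h1 := S.mk'_translate h hs hC.sub
  rw [Nat.sub_zero] at h1
  rw [h1]
  congr 2
  · funext k
    exact S.face_translate h hs k K 0 C (by omega) (Or.inl hC)
  · funext k
    rw [show C + ((3:ℤ) ^ K) • q - e k = C - e k + ((3:ℤ) ^ K) • q by abel]
    exact S.face_translate h hs k K 0 (C - e k) (by omega) (Or.inr (by simpa using hC))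

end Translate

end Pool.Agent.MP_c4ca5b_lc
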