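import Pool.Agent.MP_c4ca5b_lc.Sound
import Pool.Agent.MP_c4ca5b_lc.Defs

set_option linter.unusedSectionVars false

namespace Pool.Agent.MP_c4ca5b_lc

open Finset

variable {n : ℕ}

def kst (n : ℕ) : ℕ := (n * Rw n + n + 5).toNat

def N0 (n : ℕ) : ℕ := 3 ^ kst n

lemma N0_gt (n : ℕ) : n * Rw n + n + 5 < (N0 n : ℤ) := by
  have h1 : kst n < 3 ^ kst n := Nat.lt_pow_self (by norm_num)
  have h2 : (0:ℤ) ≤ n * Rw n := mul_nonneg (by positivity) (by have := Rw_pos n; omega)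
  have h3 : ((kst n : ℕ) : ℤ) = n * Rw n + n + 5 := by unfold kst; omega
  unfold N0; omega

instance : NeZero (N0 n) := ⟨by unfold N0; positivity⟩

structure Lab (n : ℕ) : Type where
  pb : Fin n → ZMod (N0 n)
  off : Bx n
  mp : Mk n (Lam n) × Pay n (Lam n)

instance : Finite (Lab n) :=
  Finite.of_injective (fun m : Lab n => (m.pb, m.off, m.mp)) (by
    rintro ⟨⟩ ⟨⟩ h; simp only [Prod.mk.injEq] at h; simp only [Lab.mk.injEq]; exact h)

instance : Inhabited (Lab n) := ⟨⟨0, default, default⟩⟩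

def cong (l l' : Lab n) (c : Z n) : Prop := ∀ k, l'.pb k - l.pb k = (c k : ZMod (N0 n))

lemma cong_unique {l l' : Lab n} {c c' : Z n} (h : cong l l' c) (h' : cong l l' c')
    (hb : nb (c - c') (n * Rw n + n + 5)) : c = c' := by
  funext k
  have h1 : ((c k - c' k : ℤ) : ZMod (N0 n)) = 0 := by push_cast; rw [← h k, ← h' k]; ring
  rw [ZMod.intCast_zmod_eq_zero_iff_dvd] at h1
  have h2 := hb k
  have h3 := N0_gt n
  have := Int.eq_zero_of_abs_lt_dvd h1 (by simp only [Pi.sub_apply] at h2; omega)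
  omega

def wit (l : Lab n) : Prop := l.mp.1.lam.st ∧ l.off.1 = 0

structure Rule (k0 : Fin n) (z : Z n → Lab n) : Prop where
  r1 : ∀ i, ∃ t, nb t 1 ∧ cong (z 0) (z (e i)) t
  r2 : ∀ i, ∃ t, nb t 1 ∧ cong (z 0) (z (Mc n • e i)) (((n : ℤ) + 1) • e i + t)
  r3p : ∀ k, ∃ y, nb y (Rw n) ∧ cong (z 0) (z y) (e k)
  r3m : ∀ k, ∃ y, nb y (Rw n) ∧ cong (z 0) (z y) (-e k)
  p1 : ∀ y, nb y (Rw n) → cong (z 0) (z y) 0 →
    (z y).mp = (z 0).mp ∧ y + (z y).off.1 = (z 0).off.1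
  p2 : ∀ y k, nb y (Rw n) → cong (z 0) (z y) (e k) →
    (sys k0).Rel k (z 0).mp.1 (z y).mp.1 ∧ (z 0).mp.2.fp k = (z y).mp.2.fm k ∧
    (¬ (z 0).mp.1.lam.Fp k → ¬ (z y).mp.1.lam.Fm k →
      ((z 0).mp.1.lam.inc k).1 = y + (z y).off.1 - (z 0).off.1)
  p3 : (sys k0).K0 (z 0).mp.2 ∧ (∀ k, (sys k0).Chk k (z 0).mp.1 ((z 0).mp.2.fp k)) ∧
    ¬ (z 0).mp.1.lam.hi ∧ ((z 0).mp.1.lam.cin ↔ (z 0).mp.1.lam.W)
  p4 : (z 0).mp.1.lam.st → wit (z (z 0).off.1)

lemma nb_Mc (i : Fin n) : nb (Mc n • e i) (Mc n) := fun k => by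
  have := Mc_pos n
  simp only [Pi.smul_apply, smul_eq_mul, e_apply]
  split_ifs
  · rw [mul_one, abs_of_nonneg (by omega)]
  · simp; omega

lemma Mc_le_Rw (n : ℕ) : Mc n ≤ Rw n := by unfold Rw; have := C1_pos n; omega

lemma Rule.local {k0 : Fin n} {z z' : Z n → Lab n} (h : Rule k0 z)
    (hz : ∀ y, nb y (Bd n) → z' y = z y) : Rule k0 z' := by
  have h0 : z' 0 = z 0 := hz 0 (nb_zero (Bd_pos n))
  have hR : ∀ y, nb y (Rw n) → z' y = z y := fun y hy => hz y (hy.mono (Bd_ge n))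
  constructor
  · intro i
    rw [h0, hR _ ((nb_e i).mono (by have := Rw_pos n; omega))]; exact h.r1 i
  · intro i
    rw [h0, hR _ ((nb_Mc i).mono (Mc_le_Rw n))]; exact h.r2 i
  · intro k
    obtain ⟨y, h1, h2⟩ := h.r3p k
    exact ⟨y, h1, by rw [h0, hR y h1]; exact h2⟩
  · intro k
    obtain ⟨y, h1, h2⟩ := h.r3m k
    exact ⟨y, h1, by rw [h0, hR y h1]; exact h2⟩
  · intro y hy
    rw [h0, hR y hy]; exact h.p1 y hy
  · intro y k hy
    rw [h0, hR y hy]; exact h.p2 y k hy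
  · rw [h0]; exact h.p3
  · rw [h0, hz _ (z 0).off.2]; exact h.p4

def mainLCL (k0 : Fin n) : LCL n where
  Label := Lab n
  finite_label := inferInstance
  radius := (Bd n).toNat
  allowed := {p | ∃ z, Rule k0 z ∧ ∀ v, p v = z v.1}

lemma mainLCL_iff (k0 : Fin n) (z : Z n → Lab n) :
    (fun v : {v : Fin n → ℤ // ∀ i, |v i| ≤ ((mainLCL k0).radius : ℤ)} => z v.1) ∈
      (mainLCL k0).allowed ↔ Rule k0 z := by
  refine ⟨fun ⟨z', h1, h2⟩ => h1.local fun y hy => ?_, fun h => ⟨z, h, fun _ => rfl⟩⟩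
  exact h2 ⟨y, fun i => by
    have := hy i; have := Bd_pos n
    show |y i| ≤ ((Bd n).toNat : ℤ); omega⟩

/-- the 2-adic neighbourhood filter of `0` -/
def tw (n : ℕ) : Filter (Z n) where
  sets := {S | ∃ b : ℕ, ∀ v : Z n, ((2:ℤ) ^ b) • v ∈ S}
  univ_sets := ⟨0, fun _ => trivial⟩
  sets_of_superset := fun ⟨b, hb⟩ h => ⟨b, fun v => h (hb v)⟩
  inter_sets := fun ⟨b, hb⟩ ⟨b', hb'⟩ => ⟨b + b', fun v =>
    ⟨by rw [pow_add, mul_smul]; exact hb _, by rw [pow_add, mul_comm, mul_smul]; exact hb' _⟩⟩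

section NoToeplitz

variable {k0 : Fin n} {z : Z n → Lab n}

lemma exists_psi (hz : ∀ u, Rule k0 (fun v => z (u + v))) :
    ∃ ψ : Z n → Z n, IsGrid ψ ∧ ∀ u u', cong (z u) (z u') (ψ u' - ψ u) := by
  have h1 : ∀ u i, ∃ t, nb t 1 ∧ cong (z u) (z (u + e i)) t := fun u i => by
    simpa using (hz u).r1 i
  choose g hg1 hg2 using h1
  have hn : (0:ℤ) ≤ n * Rw n := mul_nonneg (by positivity) (by have := Rw_pos n; omega)
  have flat : ∀ i k u, g (u + e k) i - g u i = g (u + e i) k - g u k := by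
    intro i k u
    have a1 : cong (z u) (z (u + e k + e i)) (g u k + g (u + e k) i) := fun l => by
      have := hg2 u k l; have := hg2 (u + e k) i l
      simp only [Pi.add_apply]; push_cast; grind
    have a2 : cong (z u) (z (u + e k + e i)) (g u i + g (u + e i) k) := fun l => by
      have := hg2 u i l; have h3 := hg2 (u + e i) k l
      rw [show u + e i + e k = u + e k + e i by abel] at h3
      simp only [Pi.add_apply]; push_cast; grind
    have := cong_unique a1 a2 ((((hg1 _ _).add (hg1 _ _)).sub ((hg1 _ _).add (hg1 _ _))).mono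
      (by omega))
    funext l
    have := congrFun this l
    simp only [Pi.add_apply, Pi.sub_apply] at this ⊢
    linarith
  have h2 : ∀ l, ∃ F : Z n → ℤ, ∀ i u, F (u + e i) - F u = g u i l := fun l =>
    exists_potential (fun i u => g u i l) (fun i k u => congrFun (flat i k u) l)
  choose F hF using h2
  let ψ : Z n → Z n := fun u l => F l u
  have hc : ∀ u u', cong (z u) (z u') (ψ u' - ψ u) := by
    intro u u'
    refine unit_induction (P := fun u' => cong (z u) (z u') (ψ u' - ψ u)) u ?_ ?_ u'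
    · intro l; simp
    · intro w k
      refine forall_congr' fun l => ?_
      have a1 := hg2 w k l
      have a2 : ((F l (w + e k) : ℤ) : ZMod (N0 n)) - (F l w : ℤ) = (g w k l : ℤ) := by
        rw [← hF l k w]; push_cast; ring
      simp only [Pi.sub_apply, ψ]; push_cast
      constructor <;> intro h <;> grind
  have hlip : ∀ u i k, |ψ (u + e i) k - ψ u k| ≤ 1 := fun u i k => by
    simp only [ψ]; rw [hF]; exact hg1 u i k
  have hlip' : ∀ u y R, nb y R → nb (ψ (u + y) - ψ u) (n * R) := fun u y R hy k =>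
    lip_nb (F := fun u => ψ u k) (fun u i => hlip u i k) u y hy
  refine ⟨ψ, ⟨hlip, fun u i k => ?_, fun u k => ?_, fun u k => ?_⟩, hc⟩
  · obtain ⟨t, h1, h2⟩ := (hz u).r2 i
    simp only [add_zero] at h2
    have h3 : nb (((n : ℤ) + 1) • e i) (n + 1) := fun l => by
      simp only [Pi.smul_apply, smul_eq_mul, e_apply]
      split_ifs
      · rw [mul_one, abs_of_nonneg (by omega)]
      · simp; omega
    have := cong_unique (hc _ _) h2 (((hlip' u _ _ ((nb_Mc i).mono (Mc_le_Rw n))).sub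
      (h3.add h1)).mono (by omega))
    have := congrFun this k
    simp only [Pi.sub_apply, Pi.add_apply, Pi.smul_apply, smul_eq_mul] at this
    rw [this, add_sub_cancel_left]; exact h1 k
  · obtain ⟨y, h1, h2⟩ := (hz u).r3p k
    simp only [add_zero] at h2
    have := cong_unique (hc _ _) h2 (((hlip' u _ _ h1).sub (nb_e k)).mono (by omega))
    exact ⟨y, h1, by rw [← this]; abel⟩
  · obtain ⟨y, h1, h2⟩ := (hz u).r3m k
    simp only [add_zero] at h2
    have := cong_unique (hc _ _) h2 (((hlip' u _ _ h1).sub (nb_e k).neg).mono (by omega))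
    exact ⟨y, h1, by rw [← sub_eq_zero, ← add_neg_cancel (e k), ← this]; abel⟩

/-- iterated derived configurations -/
def zs (k0 : Fin n) (ζ : Cfg n (Lam n)) (j : ℕ) : Cfg n (Lam n) := (der k0)^[j] ζ

def ancA (k0 : Fin n) (ζ : Cfg n (Lam n)) (c : Z n) : ℕ → Z n
  | 0 => c
  | j + 1 => par (ancA k0 ζ c j - offs (zs k0 ζ j))

lemma zs_succ (ζ : Cfg n (Lam n)) (j : ℕ) : zs k0 ζ (j + 1) = der k0 (zs k0 ζ j) :=
  Function.iterate_succ_apply' _ _ _

variable [Nontrivial (Fin n)]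

lemma zs_valid {ζ : Cfg n (Lam n)} (h : (sys k0).Valid ζ) (j : ℕ) : (sys k0).Valid (zs k0 ζ j) := by
  induction j with
  | zero => exact h
  | succ j ih => rw [zs_succ]; exact ih.der k0

lemma standardize {ζ : Cfg n (Lam n)} (h : (sys k0).Valid ζ) (K : ℕ) (E : Z n) :
    ∃ b : ℕ → Z n, b K = E ∧ (sys k0).Pyr K (fun j C => (zs k0 ζ j (C + b j)).1.lam) ∧
      ∀ j, j ≤ K → ∀ c, ancA k0 ζ (c + b 0) j = anc j c + b j := by
  let cor : ℕ → Z n := fun d => Nat.rec E (fun d C => (3:ℤ) • C + offs (zs k0 ζ (K - (d + 1)))) d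
  let b : ℕ → Z n := fun j => cor (K - j)
  have hb : ∀ j, j < K → b j = (3:ℤ) • b (j + 1) + offs (zs k0 ζ j) := by
    intro j hj
    simp only [b]
    rw [show K - j = K - (j + 1) + 1 by omega]
    simp only [cor]
    rw [show K - (K - (j + 1) + 1) = j by omega]
  have hpos : ∀ j C, j < K → (zs k0 ζ j (C + b j)).1.ps = pos C := by
    intro j C hj
    rw [(zs_valid h j).ps_eq, hb j hj,
      show C + ((3:ℤ) • b (j + 1) + offs (zs k0 ζ j)) - offs (zs k0 ζ j) = C + (3:ℤ) • b (j + 1)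
        by abel, pos_add_smul]
  have hpar : ∀ j C, j < K → par (C + b j - offs (zs k0 ζ j)) = par C + b (j + 1) := by
    intro j C hj
    rw [hb j hj,
      show C + ((3:ℤ) • b (j + 1) + offs (zs k0 ζ j)) - offs (zs k0 ζ j) = C + (3:ℤ) • b (j + 1)
        by abel, par_add_smul]
  have hpc : ∀ j C, j < K → (sys k0).PC (zs k0 ζ j (C + b j)).1
      (zs k0 ζ (j + 1) (par C + b (j + 1))).1.lam := by
    intro j C hj
    have := (zs_valid h j).pc k0 (C + b j)
    rwa [hpar j C hj, ← zs_succ] at this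
  refine ⟨b, by simp [b, cor], ⟨?_, ?_, ?_, ?_⟩, ?_⟩
  · intro j C _
    exact ((zs_valid h j).rel (C + b j) k0).2.2.1
  · intro j C hj _ hs
    exact ⟨by rw [← hpos j C hj]; exact ((zs_valid h j).rel (C + b j) k0).2.2.2.1 hs,
      (hpc j C hj).1 hs⟩
  · intro j C hj _ hs
    have := (((zs_valid h j).rel (C + b j) k0).2.2.2.2 hs).1
    rwa [hpos j C hj, (hpc j C hj).2 hs] at this
  · intro j C k hj _ _ hs
    have := (((zs_valid h j).rel (C + b j) k).2.2.2.2 hs).2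
    rwa [hpos j C hj, (hpc j C hj).2 hs, show C + b j + e k = C + e k + b j by abel] at this
  · intro j
    induction j with
    | zero => intro _ c; simp [ancA]
    | succ j ih =>
      intro hj c
      rw [ancA, ih (by omega), hpar j _ (by omega), anc_succ]

lemma lift_all {α : Type} (F : Filter α) {ζ : Cfg n (Lam n)} (h : (sys k0).Valid ζ)
    (τ : α → Z n) (hτ : ∀ c, ∀ᶠ v in F, ζ (c + τ v) = ζ c) (c : Z n) (j : ℕ) :
    ∃ τ' : α → Z n, (∀ C, ∀ᶠ v in F, zs k0 ζ j (C + τ' v) = zs k0 ζ j C) ∧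
      ∀ᶠ v in F, ancA k0 ζ (c + τ v) j = ancA k0 ζ c j + τ' v := by
  induction j with
  | zero => exact ⟨τ, hτ, Filter.Eventually.of_forall fun _ => rfl⟩
  | succ j ih =>
    obtain ⟨τ1, h1, h2⟩ := ih
    obtain ⟨τ2, h3, h4⟩ := (zs_valid h j).lift F k0 τ1 h1
    refine ⟨τ2, by rw [zs_succ]; exact h4, ?_⟩
    filter_upwards [h2, h3] with v h5 h6
    rw [ancA, ancA, h5, h6, ← par_add_smul]
    congr 1; abel

theorem no_toeplitz (hz : ∀ u, Rule k0 (fun v => z (u + v)))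
    (hT : ∀ w, ∀ᶠ v in tw n, z (w + v) = z w) : False := by
  obtain ⟨ψ, hψ, hc⟩ := exists_psi hz
  choose σ hσ using hψ.surj
  let ζ : Cfg n (Lam n) := fun c => (z (σ c)).mp
  let x : Z n → Z n := fun c => σ c + (z (σ c)).off.1
  have hzu : ∀ u, ζ (ψ u) = (z u).mp ∧ x (ψ u) = u + (z u).off.1 := by
    intro u
    have := (hz u).p1 (σ (ψ u) - u) (hψ.fibre (hσ _)) (by
      have := hc u (σ (ψ u))
      rw [hσ, sub_self] at this
      simpa using this)
    simp only [add_sub_cancel, add_zero] at this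
    exact ⟨this.1, by rw [← this.2]; simp only [x]; abel⟩
  have hp2 : ∀ c k, (sys k0).Rel k (ζ c).1 (ζ (c + e k)).1 ∧ (ζ c).2.fp k = (ζ (c + e k)).2.fm k ∧
      (¬ (ζ c).1.lam.Fp k → ¬ (ζ (c + e k)).1.lam.Fm k →
        ((ζ c).1.lam.inc k).1 = x (c + e k) - x c) := by
    intro c k
    obtain ⟨y, h1, h2⟩ := hψ.surp (σ c) k
    have := (hz (σ c)).p2 y k h1 (by
      have := hc (σ c) (σ c + y)
      rw [h2, add_sub_cancel_left] at this
      simpa using this)
    rw [hσ] at h2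
    simp only [add_zero] at this
    rw [← h2, (hzu _).1, (hzu _).2]
    refine ⟨this.1, this.2.1, fun a b => ?_⟩
    rw [this.2.2 a b]; simp only [x]; abel
  have hp3 : ∀ c, (sys k0).K0 (ζ c).2 ∧ (∀ k, (sys k0).Chk k (ζ c).1 ((ζ c).2.fp k)) ∧
      ¬ (ζ c).1.lam.hi ∧ ((ζ c).1.lam.cin ↔ (ζ c).1.lam.W) := fun c => by
    simpa using (hz (σ c)).p3
  have hV : (sys k0).Valid ζ :=
    ⟨fun c => (hp3 c).1, fun c k => (hp2 c k).1, fun c k => (hp2 c k).2.1, fun c => (hp3 c).2.1⟩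
  have hB : ∀ (K : ℕ) (b : ℕ → Z n),
      Base K (fun j C => (zs k0 ζ j (C + b j)).1.lam) (fun c => x (c + b 0)) := fun K b =>
    ⟨fun c _ => (hp3 _).2.2, fun c k _ _ => by
      rw [show c + e k + b 0 = c + b 0 + e k by abel]; exact (hp2 _ k).2.2⟩
  -- a non-witness
  obtain ⟨u1, hu1⟩ : ∃ u1, ¬ (z u1).mp.1.lam.st := by
    obtain ⟨b, -, h1, -⟩ := standardize hV 1 0
    obtain ⟨c, hc⟩ := exists_not_st h1 (hB 1 b)
    exact ⟨_, hc⟩
  obtain ⟨b1, hb1⟩ := hT u1
  -- large cells with holes of bounded level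
  obtain ⟨m, hm⟩ : ∃ m : ℕ, ∀ L, ∃ (K : ℕ) (b : ℕ → Z n), L ≤ K ∧
      (sys k0).Pyr K (fun j C => (zs k0 ζ j (C + b j)).1.lam) ∧
      ∀ c, Sub K 0 c → (∀ j, j < m → ¬ (zs k0 ζ j (ancA k0 ζ (c + b 0) j)).1.lam.sp) →
        Free K (fun j C => (zs k0 ζ j (C + b j)).1.lam) 0 c := by
    by_cases hbd : ∃ m, ∀ K E, (zs k0 ζ K E).1.lam.sp → K < m
    · obtain ⟨m, hm⟩ := hbd
      refine ⟨m, fun L => ?_⟩
      obtain ⟨b, -, h1, h2⟩ := standardize hV L 0
      refine ⟨L, b, le_rfl, h1, fun c _ h3 i hi hT => ?_⟩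
      have h4 := hT.1
      simp only [zero_add] at h4
      exact h3 i (hm _ _ h4) (by rw [h2 i (by omega)]; exact h4)
    · push Not at hbd
      refine ⟨b1, fun L => ?_⟩
      obtain ⟨K, E, h0, hK⟩ := hbd L
      obtain ⟨b, hbK, h1, h2⟩ := standardize hV K E
      obtain ⟨a, h3, h4⟩ := cover h1 (hB K b) (by simpa [hbK] using h0)
      have hab : a < b1 := by
        by_contra hab
        obtain ⟨c, -, h5, h6⟩ := h4 u1
        have h7 := (hz (σ (c + b 0))).p4 (by rw [add_zero]; exact h5)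
        simp only [add_zero] at h7
        have h8 : ∀ k, ∃ t, x (c + b 0) k - u1 k = 2 ^ b1 * t := fun k =>
          (((pow_dvd_pow (2:ℤ) (by omega : b1 ≤ a)).trans
            (pow_dvd_pow_of_dvd (by norm_num : (2:ℤ) ∣ 6) a)).trans (h6 k))
        choose t ht using h8
        have h9 : x (c + b 0) = u1 + ((2:ℤ) ^ b1) • t := by
          funext k; simp only [Pi.add_apply, Pi.smul_apply, smul_eq_mul]; rw [← ht k]; ring
        have h10 : z (u1 + ((2:ℤ) ^ b1) • t) = z u1 := hb1 t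
        change wit (z (x (c + b 0))) at h7
        rw [h9, h10] at h7
        exact hu1 h7.1
      refine ⟨K, b, hK, h1, fun c hc h5 => ?_⟩
      by_cases haK : a ≤ K
      · exact h3 c hc fun j hj => by rw [← h2 j (by omega)]; exact h5 j (by omega)
      · intro i hi hT
        have h4 := hT.1
        simp only [zero_add] at h4
        exact h5 i (by omega) (by rw [h2 i (by omega)]; exact h4)
  -- a base point that is free up to level `m`
  obtain ⟨c0, hc0⟩ : ∃ c0, ∀ j, j < m → ¬ (zs k0 ζ j (ancA k0 ζ c0 j)).1.lam.sp := by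
    obtain ⟨b, -, h1, h2⟩ := standardize hV m 0
    refine ⟨0 + b 0, fun j hj => ?_⟩
    rw [h2 j hj.le]
    have : anc j (0 : Z n) = 0 := by funext k; simp [anc]
    rw [this]
    exact (free_zero k0 j).not_sp h1 hj (sub_zero' hj.le)
  set u0 := σ c0 with hu0
  have hτ : ∀ w, ∀ᶠ v in tw n, ψ (w + v) - ψ w = ψ (u0 + v) - ψ u0 := by
    refine unit_induction u0 (Filter.Eventually.of_forall fun _ => rfl) fun w k => ?_
    have : ∀ᶠ v in tw n, ψ (w + e k + v) - ψ (w + e k) = ψ (w + v) - ψ w := by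
      filter_upwards [hT w, hT (w + e k)] with v h1 h2
      have a1 := hc (w + v) (w + e k + v)
      rw [h1, h2] at a1
      have a2 : nb (ψ (w + e k + v) - ψ (w + v)) 1 := fun l => by
        rw [show w + e k + v = w + v + e k by abel]; exact hψ.lip _ _ _
      have a3 : nb (ψ (w + e k) - ψ w) 1 := fun l => hψ.lip _ _ _
      have hn : (0:ℤ) ≤ n * Rw n := mul_nonneg (by positivity) (by have := Rw_pos n; omega)
      have := cong_unique a1 (hc w (w + e k)) ((a2.sub a3).mono (by omega))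
      rw [sub_eq_sub_iff_sub_eq_sub]; exact this
    constructor <;> intro h <;> filter_upwards [h, this] with v h1 h2
    · rw [h2, h1]
    · rw [← h2, h1]
  have hτ' : ∀ c, ∀ᶠ v in tw n, ζ (c + (ψ (u0 + v) - ψ u0)) = ζ c := by
    intro c
    filter_upwards [hτ (σ c), hT (σ c)] with v h1 h2
    rw [← h1, hσ, add_sub_cancel, (hzu _).1, h2]
  have hfree : ∀ᶠ v in tw n, ∀ j ∈ Finset.range m,
      ¬ (zs k0 ζ j (ancA k0 ζ (ψ (u0 + v)) j)).1.lam.sp := by
    rw [Filter.eventually_all_finset]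
    intro j hj
    obtain ⟨τ', h1, h2⟩ := lift_all (tw n) hV _ hτ' c0 j
    filter_upwards [h1 (ancA k0 ζ c0 j), h2] with v h3 h4
    rw [hu0, hσ, add_sub_cancel] at h4
    rw [hu0, h4, h3]
    exact hc0 j (Finset.mem_range.1 hj)
  obtain ⟨b2, hb2⟩ := hfree.and (hT u0)
  obtain ⟨K, b, hK, hP, hF⟩ := hm (n * 2 ^ (b2 + 1) + 1)
  set uE := σ (b 0 + ((3:ℤ) ^ (K - 1)) • one) with huE
  have key : ∀ q : Z n, nb (u0 + ((2:ℤ) ^ b2) • q - uE) (2 ^ (b2 + 1)) →
      (6:ℤ) ∣ u0 k0 + 2 ^ b2 * q k0 + (z u0).off.1 k0 - (z u0).mp.1.lam.d.1 k0 -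
        (x (0 + b 0) - Hs (fun j C => (zs k0 ζ j (C + b j)).1.lam) 1 0) k0 := by
    intro q hq
    obtain ⟨h1, h2⟩ := hb2 q
    set u := u0 + ((2:ℤ) ^ b2) • q with hu
    have h3 := hψ.lip_nb uE _ hq
    rw [add_sub_cancel, huE, hσ] at h3
    have h4 : Sub K 0 (ψ u - b 0) := by
      rw [sub_iff]
      refine ⟨by omega, fun k => ?_⟩
      have a1 := h3 k
      have a2 : n * 2 ^ (b2 + 1) < 3 ^ (K - 1) :=
        lt_of_le_of_lt (by omega) (Nat.lt_pow_self (by norm_num) : K - 1 < 3 ^ (K - 1))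
      have a3 : (n : ℤ) * 2 ^ (b2 + 1) < 3 ^ (K - 1) := by exact_mod_cast a2
      have a4 : (3:ℤ) ^ (K - 0) = 3 * 3 ^ (K - 1) := pow_sub_succ (by omega)
      simp only [Pi.sub_apply, Pi.add_apply, Pi.smul_apply, one, smul_eq_mul, mul_one] at a1 ⊢
      rw [abs_le] at a1
      constructor <;> linarith [a1.1, a1.2]
    have h5 := hF _ h4 fun j hj => by
      rw [sub_add_cancel]; exact h1 j (Finset.mem_range.2 hj)
    have h6 := rigid hP (hB K b) (a := 1) (by omega) h4 h5 k0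
    have h7 : zs k0 ζ 0 = ζ := rfl
    simp only [Hs, range_one, sum_singleton, pow_zero, one_smul, anc_zero, sub_add_cancel, h7,
      pow_one] at h6 ⊢
    rw [(hzu u).1, (hzu u).2, h2] at h6
    simpa [hu] using h6
  let q : Z n := fun k => (uE k - u0 k) / 2 ^ b2
  have hq : ∀ k, 0 ≤ uE k - u0 k - 2 ^ b2 * q k ∧ uE k - u0 k - 2 ^ b2 * q k < 2 ^ b2 := fun k => by
    have hp : (0:ℤ) < 2 ^ b2 := by positivity
    have h1 := Int.mul_ediv_add_emod (uE k - u0 k) (2 ^ b2)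
    have h2 := Int.emod_nonneg (uE k - u0 k) hp.ne'
    have h3 := Int.emod_lt_of_pos (uE k - u0 k) hp
    simp only [q]; constructor <;> linarith
  have k1 := key q fun k => by
    have := hq k
    simp only [Pi.sub_apply, Pi.add_apply, Pi.smul_apply, smul_eq_mul]
    rw [abs_le, pow_succ]; constructor <;> linarith [this.1, this.2]
  have k2 := key (q + e k0) fun k => by
    have := hq k
    simp only [Pi.sub_apply, Pi.add_apply, Pi.smul_apply, smul_eq_mul, e_apply]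
    rw [abs_le, pow_succ]
    split_ifs <;> constructor <;> linarith [this.1, this.2]
  have k3 := dvd_sub k2 k1
  simp only [Pi.add_apply, e_same] at k3
  have k4 : (6:ℤ) ∣ 2 ^ b2 := by
    obtain ⟨t, ht⟩ := k3
    exact ⟨t, by rw [← ht]; ring⟩
  have := Int.prime_three.dvd_of_dvd_pow ((by norm_num : (3:ℤ) ∣ 6).trans k4)
  omega

end NoToeplitz

end Pool.Agent.MP_c4ca5b_lc
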