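import Pool.Agent.MP_c4ca5b_lc.Region
import Pool.Agent.MP_c4ca5b_lc.Drift
import Pool.Agent.MP_c4ca5b_lc.Lcl

set_option linter.unusedSectionVars false

namespace Pool.Agent.MP_c4ca5b_lc

open Finset

variable {n : ℕ}

structure Plan (n : ℕ) : Type where
  K : ℕ → ℕ
  a : ℕ → ℕ
  S : ℕ → ℤ
  v : ℕ → ℕ → Z n
  O : ℕ → ℕ → Set (Z n)

namespace Plan

variable (k0 : Fin n) (p : Plan n)

structure OK : Prop where
  pr : ParOK n p.K p.S
  aa : ∀ t s, t < s → p.K t + 2 ≤ p.a s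
  a1 : ∀ s, 1 ≤ p.a s
  aK : ∀ s, p.a s + 3 ≤ p.K s
  kk : ∀ s, kst n ≤ p.K s
  sep : ∀ s t, Sep (p.O s t) (2 * Rp n t (p.K t) (p.S t))
  agree : ∀ s t w, w ∈ p.O s t → ∀ t', t' < t → ∀ y, nb y (Rp n t (p.K t) (p.S t)) →
    (w + y ∈ p.O s t' ↔ y ∈ p.O t t')
  vin : ∀ s i, i < (6 ^ n) ^ p.a s → nb (p.v s i) (3 ^ (p.K s - 2))
  vgap : ∀ s i i', i < i' → i' < (6 ^ n) ^ p.a s → p.v s i k0 + 8 * 3 ^ p.a s ≤ p.v s i' k0
  vdig : ∀ s i, i < (6 ^ n) ^ p.a s → ∀ j, j < p.a s → ∀ k,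
    p.v s i k / 6 ^ j % 6 = emb (dg n i j) k
  vfree : ∀ s t i w, t < s → i < (6 ^ n) ^ p.a s → w ∈ p.O s t →
    ¬ nb (p.v s i - w) (rho n (p.K t))

noncomputable def ψ (s : ℕ) : Z n → Z n := psi (p.O s) p.K p.S s

noncomputable def rg (s : ℕ) : Reg n := ⟨p.K s, p.a s, p.v s, p.ψ s⟩

noncomputable def qq (s t : ℕ) (w : Z n) : Z n := anc (p.K t) (p.ψ s w)

def Hole (s t : ℕ) (w : Z n) (j : ℕ) (C : Z n) : Prop :=
  t < s ∧ w ∈ p.O s t ∧ j ≤ p.K t ∧ anc (p.K t - j) C = p.qq s t w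

noncomputable def tr (s t : ℕ) (w : Z n) (j : ℕ) (C : Z n) : Z n :=
  C - ((3:ℤ) ^ (p.K t - j)) • p.qq s t w

open Classical in
noncomputable def lab (s : ℕ) (j : ℕ) (C : Z n) : Lam n × Z n :=
  if h : ∃ r : ℕ × Z n, p.Hole s r.1 r.2 j C then
    ((lab h.choose.1 j (p.tr s h.choose.1 h.choose.2 j C)).1,
      h.choose.2 + (lab h.choose.1 j (p.tr s h.choose.1 h.choose.2 j C)).2)
  else ((p.rg s).reg k0 j C, (p.rg s).X j C)
termination_by s
decreasing_by all_goals exact h.choose_spec.1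

noncomputable def lam (s j : ℕ) (C : Z n) : Lam n := (p.lab k0 s j C).1

noncomputable def xx (s : ℕ) (c : Z n) : Z n := (p.lab k0 s 0 c).2

variable {k0 p}

lemma lab_free {s j : ℕ} {C : Z n} (h : ¬ ∃ t w, p.Hole s t w j C) :
    p.lab k0 s j C = ((p.rg s).reg k0 j C, (p.rg s).X j C) := by
  rw [lab, dif_neg]
  rintro ⟨r, hr⟩; exact h ⟨r.1, r.2, hr⟩

lemma hole_iff {s t j : ℕ} {w C : Z n} : p.Hole s t w j C ↔
    t < s ∧ w ∈ p.O s t ∧ Sub (p.K t) j (p.tr s t w j C) := by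
  unfold Hole Sub tr
  rw [sub_eq_add_neg, ← smul_neg, anc_add_smul, add_neg_eq_zero]

lemma tr_add (s t j : ℕ) (w C y : Z n) : p.tr s t w j (C + y) = p.tr s t w j C + y := by
  unfold tr; abel

lemma tr_par {s t j : ℕ} (w C : Z n) (hj : j < p.K t) :
    p.tr s t w (j + 1) (par C) = par (p.tr s t w j C) ∧ pos (p.tr s t w j C) = pos C := by
  unfold tr
  rw [pow_smul_succ hj, sub_eq_add_neg C, ← smul_neg, par_add_smul, pos_add_smul, sub_eq_add_neg]
  exact ⟨rfl, rfl⟩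

lemma Hole.par {s t j : ℕ} {w C : Z n} (h : p.Hole s t w j C) (hj : j < p.K t) :
    p.Hole s t w (j + 1) (par C) := by
  rw [hole_iff] at h ⊢
  exact ⟨h.1, h.2.1, by rw [(tr_par w C hj).1]; exact h.2.2.par hj⟩

lemma Hole.of_par {s t j : ℕ} {w C : Z n} (h : p.Hole s t w (j + 1) (Pool.Agent.MP_c4ca5b_lc.par C)) :
    p.Hole s t w j C := by
  have hj : j < p.K t := h.2.2.1
  rw [hole_iff] at h ⊢
  refine ⟨h.1, h.2.1, sub_of_anc (i := 1) ?_⟩
  rw [anc_succ, anc_zero, ← (tr_par w C hj).1]; exact h.2.2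

variable (h : p.OK k0)
include h

lemma OK.grid (s : ℕ) : IsGrid (p.ψ s) := psi_grid h.pr (h.sep s) s

lemma OK.inZ {s : ℕ} {u : Z n} (hu : nb u (3 ^ (p.K s - 2))) : InZ (p.K s) 0 (p.ψ s u) := by
  have h1 := h.aK s
  rw [inZ_iff]
  refine ⟨by omega, fun k => ?_⟩
  have h2 := psi_bound h.pr (h.sep s) (fun t ht => h.aa t s ht) u k
  have h3 := hu k
  obtain ⟨d, hd⟩ : ∃ d, p.K s = d + 3 := ⟨p.K s - 3, by omega⟩
  have h4 : (3:ℤ) ^ p.a s ≤ 3 ^ d := pow_le_pow_right₀ (by norm_num) (by omega)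
  have h5 : (1:ℤ) ≤ 3 ^ d := one_le_pow₀ (by norm_num)
  rw [hd] at h2 h3 ⊢
  rw [show d + 3 - 2 = d + 1 by omega, abs_le] at h3
  rw [show d + 3 - 1 - 0 = d + 2 by omega]
  simp only [pow_succ, ψ] at h2 h3 ⊢
  omega

lemma OK.rg_ok (s : ℕ) : (p.rg s).OK k0 := by
  refine ⟨h.grid s, h.a1 s, by have := h.aK s; simp only [rg]; omega,
    fun i hi => (h.inZ (h.vin s i hi)).sub, fun i i' hi hi' => ?_, h.vdig s⟩
  have h1 := psi_bound h.pr (h.sep s) (fun t ht => h.aa t s ht) (p.v s i) k0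
  have h2 := psi_bound h.pr (h.sep s) (fun t ht => h.aa t s ht) (p.v s i') k0
  have h3 := h.vgap s i i' hi hi'
  have hp : (0:ℤ) < 3 ^ p.a s := by positivity
  simp only [Reg.col, rg, anc, ψ]
  have h4 : (psi (p.O s) p.K p.S s (p.v s i) k0 + 1 * 3 ^ p.a s) / 3 ^ p.a s ≤
      psi (p.O s) p.K p.S s (p.v s i') k0 / 3 ^ p.a s := Int.ediv_le_ediv hp (by omega)
  rw [Int.add_mul_ediv_right _ _ hp.ne'] at h4
  omega

lemma OK.copy {s t : ℕ} {w : Z n} (hts : t < s) (hw : w ∈ p.O s t) :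
    pos (p.qq s t w) = ctr ∧ ∀ y, nb y (rho n (p.K t)) →
      p.ψ s (w + y) = p.ψ t y + ((3:ℤ) ^ p.K t) • p.qq s t w := by
  obtain ⟨q, h1, h2⟩ := psi_copy h.pr (h.sep s) (h.sep t) hts hw (h.agree s t w hw)
  have h3 : p.qq s t w = q := by
    have := h2 0 (nb_zero (rho_nonneg _ _))
    rw [add_zero] at this
    have h4 := (h.inZ (s := t) (u := 0) (nb_zero (by positivity))).sub.2
    rw [qq, ψ, this, anc_add_smul]
    rw [Nat.sub_zero, ψ] at h4
    rw [h4, zero_add]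
  rw [h3]; exact ⟨h1, h2⟩

lemma OK.near {s : ℕ} {u u' : Z n} {K : ℕ} (hu : nb (p.ψ s u - p.ψ s u') (2 * 3 ^ K)) :
    nb (u - u') (rho n K) := (h.grid s).coarse u' u (by positivity) hu

omit h in
lemma same_anc {K : ℕ} {c c' : Z n} (hc : anc K c = anc K c') : nb (c - c') (3 ^ K) := fun k => by
  have a1 := (anc_eq_iff K _ _).1 hc k
  have a2 := (anc_eq_iff K _ _).1 (rfl : anc K c' = anc K c') k
  rw [Pi.sub_apply, abs_le]; constructor <;> linarith [a1.1, a1.2, a2.1, a2.2]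

lemma OK.hole_near {s t t1 j : ℕ} {w w1 C : Z n} (h1 : p.Hole s t w j C) (h2 : p.Hole s t1 w1 j C)
    (ht : t ≤ t1) : nb (w - w1) (rho n (p.K t1)) := by
  have key : ∀ {t w}, p.Hole s t w j C → nb (p.ψ s w - ((3:ℤ) ^ j) • C) (3 ^ p.K t) := by
    intro t w h1
    refine same_anc ?_
    have := h1.2.2.1
    conv_rhs => rw [show p.K t = j + (p.K t - j) by omega, anc_add, anc_smul, h1.2.2.2]
    rfl
  have h3 : (3:ℤ) ^ p.K t ≤ 3 ^ p.K t1 := pow_le_pow_right₀ (by norm_num) (by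
    rcases ht.lt_or_eq with h4 | h4
    · exact (h.pr.kk _ _ h4).le
    · rw [h4])
  refine h.near (s := s) ?_
  have := (key h1).sub (key h2)
  rw [sub_sub_sub_cancel_right] at this
  exact this.mono (by omega)

lemma OK.hole_nest {s t t1 j : ℕ} {w w1 C : Z n} (h1 : p.Hole s t w j C) (h2 : p.Hole s t1 w1 j C)
    (ht : t < t1) : p.Hole t1 t (w - w1) j (p.tr s t1 w1 j C) ∧
      p.tr t1 t (w - w1) j (p.tr s t1 w1 j C) = p.tr s t w j C := by
  have h3 := h.hole_near h1 h2 ht.le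
  have h4 := (h.copy h2.1 h2.2.1).2 _ h3
  rw [add_sub_cancel] at h4
  have h5 := h.pr.kk _ _ ht
  have h6 := h1.2.2.1
  have h7 : p.qq s t w = p.qq t1 t (w - w1) + ((3:ℤ) ^ (p.K t1 - p.K t)) • p.qq s t1 w1 := by
    rw [show p.qq t1 t (w - w1) = anc (p.K t) (p.ψ t1 (w - w1)) from rfl,
      ← anc_add_smul, smul_smul, ← pow_add, show p.K t + (p.K t1 - p.K t) = p.K t1 by omega,
      ← h4, qq]
  have h8 : p.tr t1 t (w - w1) j (p.tr s t1 w1 j C) = p.tr s t w j C := by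
    unfold tr
    rw [h7, smul_add, smul_smul, ← pow_add,
      show p.K t - j + (p.K t1 - p.K t) = p.K t1 - j by omega]
    abel
  refine ⟨hole_iff.2 ⟨ht, ?_, h8 ▸ (hole_iff.1 h1).2.2⟩, h8⟩
  exact (h.agree s t1 w1 h2.2.1 t ht _ (h3.mono (h.pr.rho_le t1))).1 (by simpa using h1.2.1)

lemma OK.lab_hole : ∀ (s : ℕ) {t j : ℕ} {w C : Z n}, p.Hole s t w j C →
    p.lab k0 s j C = ((p.lab k0 t j (p.tr s t w j C)).1, w + (p.lab k0 t j (p.tr s t w j C)).2) := by
  intro s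
  induction s using Nat.strong_induction_on with
  | _ s ih =>
    have key : ∀ {t t1 j : ℕ} {w w1 C : Z n}, p.Hole s t w j C → p.Hole s t1 w1 j C → t ≤ t1 →
        ((p.lab k0 t j (p.tr s t w j C)).1, w + (p.lab k0 t j (p.tr s t w j C)).2) =
        ((p.lab k0 t1 j (p.tr s t1 w1 j C)).1, w1 + (p.lab k0 t1 j (p.tr s t1 w1 j C)).2) := by
      intro t t1 j w w1 C h1 h2 ht
      rcases ht.lt_or_eq with ht | rfl
      · obtain ⟨h3, h4⟩ := h.hole_nest h1 h2 ht
        rw [ih t1 h2.1 h3, h4]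
        refine Prod.ext rfl ?_
        dsimp only
        abel
      · have h3 := h.hole_near h1 h2 le_rfl
        have := h.pr.rho_le t
        have := h.pr.Rpos t
        rw [h.sep s t w h1.2.1 w1 h2.2.1 (h3.mono (by omega))]
    intro t j w C h1
    have hex : ∃ r : ℕ × Z n, p.Hole s r.1 r.2 j C := ⟨(t, w), h1⟩
    rw [lab, dif_pos hex]
    rcases le_total t hex.choose.1 with h2 | h2
    · exact (key h1 hex.choose_spec h2).symm
    · exact key hex.choose_spec h1 h2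

lemma OK.lam_hole {s t j : ℕ} {w C : Z n} (h1 : p.Hole s t w j C) :
    p.lam k0 s j C = p.lam k0 t j (p.tr s t w j C) := by
  unfold lam; rw [h.lab_hole s h1]

lemma OK.xx_hole {s t : ℕ} {w C : Z n} (h1 : p.Hole s t w 0 C) :
    p.xx k0 s C = w + p.xx k0 t (p.tr s t w 0 C) := by
  unfold xx; rw [h.lab_hole s h1]

omit h in
lemma lam_free {s j : ℕ} {C : Z n} (h : ¬ ∃ t w, p.Hole s t w j C) :
    p.lam k0 s j C = (p.rg s).reg k0 j C := by
  unfold lam; rw [lab_free h]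

omit h in
lemma xx_free {s : ℕ} {C : Z n} (h : ¬ ∃ t w, p.Hole s t w 0 C) :
    p.xx k0 s C = (p.rg s).X 0 C := by
  unfold xx; rw [lab_free h]

lemma OK.face_free {s j : ℕ} {C : Z n} {k : Fin n} (hC : C k = 0 ∨ C k + 1 = 3 ^ (p.K s - j)) :
    ¬ ∃ t w, p.Hole s t w j C := by
  rintro ⟨t, w, h1⟩
  have h2 := (pos_eq_ctr_iff _).1 (h.copy h1.1 h1.2.1).1 k
  rw [← h1.2.2.2] at h2
  have h3 := h.pr.kk _ _ h1.1
  have h4 := h1.2.2.1
  simp only [anc] at h2
  rcases hC with hC | hC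
  · rw [hC] at h2; simp at h2
  · have hp : (0:ℤ) < 3 ^ (p.K t - j) := by positivity
    rw [show p.K s - j = p.K s - p.K t - 1 + 1 + (p.K t - j) by omega, pow_add, pow_succ] at hC
    rw [show C k = (3 ^ (p.K t - j) - 1) + (3 ^ (p.K s - p.K t - 1) * 3 - 1) * 3 ^ (p.K t - j) by
      linarith, Int.add_mul_ediv_right _ _ hp.ne', Int.ediv_eq_zero_of_lt (by omega) (by omega)]
      at h2
    omega

lemma OK.lam_root (t : ℕ) : p.lam k0 t (p.K t) 0 = (p.rg t).reg k0 (p.K t) 0 :=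
  lam_free (h.face_free (k := k0) (Or.inl rfl))

lemma OK.root_sp (t : ℕ) : (p.lam k0 t (p.K t) 0).sp := by
  rw [h.lam_root]; rfl

lemma OK.waive_p {s t j : ℕ} {w C : Z n} {k : Fin n} (h1 : p.Hole s t w j C)
    (h2 : ¬ p.Hole s t w j (C + e k)) : (p.lam k0 s j C).Fp k := by
  rw [h.lam_hole h1]
  rw [hole_iff] at h1 h2
  rw [tr_add] at h2
  have h3 : p.tr s t w j C k + 1 = 3 ^ (p.K t - j) := by
    by_contra h3
    refine h2 ⟨h1.1, h1.2.1, sub_iff.2 ⟨h1.2.2.1, fun l => ?_⟩⟩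
    have := (sub_iff.1 h1.2.2).2 l
    rw [Pi.add_apply, e_apply]
    split_ifs with hl
    · subst hl; omega
    · omega
  rw [lam_free (h.face_free (Or.inr h3))]
  exact h3

lemma OK.waive_m {s t j : ℕ} {w C : Z n} {k : Fin n} (h1 : p.Hole s t w j (C + e k))
    (h2 : ¬ p.Hole s t w j C) : (p.lam k0 s j (C + e k)).Fm k := by
  rw [h.lam_hole h1]
  rw [hole_iff] at h1 h2
  have h3 : p.tr s t w j (C + e k) k = 0 := by
    by_contra h3
    refine h2 ⟨h1.1, h1.2.1, sub_iff.2 ⟨h1.2.2.1, fun l => ?_⟩⟩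
    have := (sub_iff.1 h1.2.2).2 l
    rw [tr_add] at this h3
    rw [Pi.add_apply, e_apply] at this
    split_ifs at this with hl
    · subst hl; simp only [Pi.add_apply, e_same] at h3; omega
    · omega
  rw [lam_free (h.face_free (Or.inl h3))]
  exact h3

lemma OK.pair_cases {s j : ℕ} {C : Z n} {k : Fin n} (h1 : ¬ (p.lam k0 s j C).Fp k)
    (h2 : ¬ (p.lam k0 s j (C + e k)).Fm k) :
    (∃ t w, p.Hole s t w j C ∧ p.Hole s t w j (C + e k)) ∨
      ((¬ ∃ t w, p.Hole s t w j C) ∧ ¬ ∃ t w, p.Hole s t w j (C + e k)) := by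
  by_cases h3 : ∃ t w, p.Hole s t w j C ∧ p.Hole s t w j (C + e k)
  · exact Or.inl h3
  · right
    constructor
    · rintro ⟨t, w, h4⟩
      exact h1 (h.waive_p h4 fun h5 => h3 ⟨t, w, h4, h5⟩)
    · rintro ⟨t, w, h4⟩
      exact h2 (h.waive_m h4 fun h5 => h3 ⟨t, w, h5, h4⟩)

lemma OK.valid : ∀ s, (sys k0).Pyr (p.K s) (p.lam k0 s) ∧ Base (p.K s) (p.lam k0 s) (p.xx k0 s) ∧
    ∀ c, Sub (p.K s) 0 c → p.ψ s (p.xx k0 s c) = c := by
  intro s
  induction s using Nat.strong_induction_on with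
  | _ s ih =>
    have hr := h.rg_ok s
    have vert : ∀ j C, j < p.K s →
        ((p.lam k0 s j C).sp → pos C = ctr ∧ (sys k0).PS (p.lam k0 s (j + 1) (par C))) ∧
        (¬ (p.lam k0 s j C).sp →
          (sys k0).VR (pos C) (p.lam k0 s j C) (p.lam k0 s (j + 1) (par C))) := by
      intro j C hj
      by_cases c1 : ∃ t w, p.Hole s t w (j + 1) (par C)
      · obtain ⟨t, w, h1⟩ := c1
        have h2 := h1.of_par
        have h3 : j < p.K t := h1.2.2.1
        rw [h.lam_hole h1, h.lam_hole h2, (tr_par w C h3).1, ← (tr_par (s := s) w C h3).2]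
        exact ⟨(ih t h1.1).1.spc j _ h3 (hole_iff.1 h2).2.2,
          (ih t h1.1).1.vr j _ h3 (hole_iff.1 h2).2.2⟩
      · rw [lam_free c1]
        by_cases c2 : ∃ t w, p.Hole s t w j C
        · obtain ⟨t, w, h1⟩ := c2
          obtain rfl : j = p.K t := by
            by_contra h2
            exact c1 ⟨t, w, h1.par (lt_of_le_of_ne h1.2.2.1 h2)⟩
          have h2 : C = p.qq s t w := by simpa using h1.2.2.2
          have h3 : pos C = ctr := by rw [h2]; exact (h.copy h1.1 h1.2.1).1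
          rw [h.lam_hole h1, (hole_iff.1 h1).2.2.root]
          refine ⟨fun _ => ⟨h3, hr.ps (by have := h.aa t s h1.1; simp only [rg]; omega) h3
            fun i hi h4 => ?_⟩, fun h4 => absurd (h.root_sp t) h4⟩
          refine h.vfree s t i w h1.1 hi h1.2.1 (h.near (s := s) ((same_anc (K := p.K t) ?_).mono ?_))
          · rw [h2] at h4; exact h4
          · have : (0:ℤ) < 3 ^ p.K t := by positivity
            omega
        · rw [lam_free c2]
          exact ⟨fun h1 => absurd h1 hj.ne, fun _ => hr.vr C hj⟩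
    refine ⟨⟨fun j C hC => ?_, fun j C hj _ => (vert j C hj).1, fun j C hj _ => (vert j C hj).2,
      fun j C k _ _ _ hs h1 h2 => ?_⟩, ⟨fun c _ => ?_, fun c k _ _ h1 h2 => ?_⟩, fun c _ => ?_⟩
    · by_cases c2 : ∃ t w, p.Hole s t w j C
      · obtain ⟨t, w, h1⟩ := c2
        rw [h.lam_hole h1]
        exact (ih t h1.1).1.sr j _ (hole_iff.1 h1).2.2
      · rw [lam_free c2]; exact hr.sr hC
    · rcases h.pair_cases h1 h2 with ⟨t, w, h3, h4⟩ | ⟨h3, h4⟩
      · have s1 := (hole_iff.1 h3).2.2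
        have s2 := (hole_iff.1 h4).2.2
        rw [tr_add] at s2
        have hj := lt_of_pair s1 s2
        rw [h.lam_hole h3] at hs h1
        rw [h.lam_hole h4, tr_add] at h2
        rw [h.lam_hole h3, h.lam_hole h4, h.lam_hole (h3.par hj), (tr_par w C hj).1,
          ← (tr_par (s := s) w C hj).2, tr_add]
        exact (ih t h3.1).1.hr j _ k hj s1 s2 hs h1 h2
      · have h5 : ¬ ∃ t w, p.Hole s t w (j + 1) (par C) := by
          rintro ⟨t, w, h5⟩; exact h3 ⟨t, w, h5.of_par⟩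
        rw [lam_free h3] at h1
        rw [lam_free h4] at h2
        rw [lam_free h3, lam_free h4, lam_free h5]
        exact hr.hr j C k h1 h2
    · by_cases c2 : ∃ t w, p.Hole s t w 0 c
      · obtain ⟨t, w, h1⟩ := c2
        rw [h.lam_hole h1]
        exact (ih t h1.1).2.1.low _ (hole_iff.1 h1).2.2
      · rw [lam_free c2]; exact hr.low c
    · rcases h.pair_cases h1 h2 with ⟨t, w, h3, h4⟩ | ⟨h3, h4⟩
      · have s1 := (hole_iff.1 h3).2.2
        have s2 := (hole_iff.1 h4).2.2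
        rw [tr_add] at s2
        rw [h.lam_hole h3] at h1
        rw [h.lam_hole h4, tr_add] at h2
        rw [h.lam_hole h3, h.xx_hole h3, h.xx_hole h4, tr_add,
          (ih t h3.1).2.1.inc _ k s1 s2 h1 h2]
        abel
      · rw [lam_free h3, xx_free h3, xx_free h4]
        exact hr.inc0 c k
    · by_cases c2 : ∃ t w, p.Hole s t w 0 c
      · obtain ⟨t, w, h1⟩ := c2
        have s1 := (hole_iff.1 h1).2.2
        have h2 := (ih t h1.1).2.2 _ s1
        have h3 : nb (p.xx k0 t (p.tr s t w 0 c)) (rho n (p.K t)) := by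
          have := h.near (s := t) (u := p.xx k0 t (p.tr s t w 0 c)) (u' := 0) (K := p.K t)
            ((same_anc (K := p.K t) (by
              have a1 := s1.2
              have a2 := (h.inZ (s := t) (u := 0) (nb_zero (by positivity))).sub.2
              rw [Nat.sub_zero] at a1 a2
              rw [h2, a1, a2])).mono (by
              have : (0:ℤ) < 3 ^ p.K t := by positivity
              omega))
          simpa using this
        rw [h.xx_hole h1, (h.copy h1.1 h1.2.1).2 _ h3, h2]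
        simp [tr]
      · rw [xx_free c2]
        have := hr.X_spec 0 c
        rwa [anc_zero] at this

omit h in
variable (k0 p) in
noncomputable def zz (s : ℕ) (u : Z n) : Lab n :=
  ⟨fun k => (p.ψ s u k : ZMod (N0 n)), clamp (p.xx k0 s (p.ψ s u) - u),
    (sys k0).enc (p.lam k0 s) 0 (p.ψ s u)⟩

variable [Nontrivial (Fin n)]

lemma OK.zz_copy {s t : ℕ} {w y : Z n} (hts : t < s) (hw : w ∈ p.O s t)
    (hy : nb y (3 ^ (p.K t - 2))) : p.zz k0 s (w + y) = p.zz k0 t y := by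
  have h1 := (h.copy hts hw).2 y (hy.mono (by
    have := rho_pos n (p.K t)
    have h2 : (3:ℤ) ^ (p.K t - 2) ≤ 3 ^ p.K t := pow_le_pow_right₀ (by norm_num) (by omega)
    have : (0:ℤ) < 3 ^ p.K t := by positivity
    omega))
  have hole : ∀ j C, Sub (p.K t) j C →
      p.Hole s t w j (C + ((3:ℤ) ^ (p.K t - j)) • p.qq s t w) ∧
      p.tr s t w j (C + ((3:ℤ) ^ (p.K t - j)) • p.qq s t w) = C := by
    intro j C hC
    have : p.tr s t w j (C + ((3:ℤ) ^ (p.K t - j)) • p.qq s t w) = C := by simp [tr]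
    exact ⟨hole_iff.2 ⟨hts, hw, by rw [this]; exact hC⟩, this⟩
  unfold zz
  rw [h1]
  congr 1
  · funext k
    obtain ⟨d, hd⟩ := Nat.exists_eq_add_of_le (h.kk t)
    have : ((3 : ZMod (N0 n))) ^ kst n = 0 := by
      have := ZMod.natCast_self (N0 n)
      rw [← this]; unfold N0; push_cast; rfl
    simp only [Pi.add_apply, Pi.smul_apply, smul_eq_mul]
    push_cast
    rw [hd, pow_add, this]; simp
  · have := hole 0 _ (h.inZ hy).sub
    rw [Nat.sub_zero] at this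
    rw [h.xx_hole this.1, this.2]
    congr 1; abel
  · exact (sys k0).enc_translate (fun j C hC => by
      rw [h.lam_hole (hole j C hC).1, (hole j C hC).2]) (h.root_sp t) (h.inZ hy)

omit h in
lemma zz_cong (s : ℕ) (u u' : Z n) : cong (p.zz k0 s u) (p.zz k0 s u') (p.ψ s u' - p.ψ s u) :=
  fun k => by simp [zz]

lemma OK.off_val {s : ℕ} {u : Z n} (hu : nb u (3 ^ (p.K s - 2))) :
    (p.zz k0 s u).off.1 = p.xx k0 s (p.ψ s u) - u :=
  clamp_val (((h.grid s).fibre ((h.valid s).2.2 _ (h.inZ hu).sub)).mono (Bd_ge n))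

lemma OK.zz_rule {s : ℕ} {u : Z n} (hu : nb u (3 ^ (p.K s - 2) - Bd n)) :
    Rule k0 (fun v => p.zz k0 s (u + v)) := by
  have hg := h.grid s
  obtain ⟨hP, hB, hx⟩ := h.valid s
  have hn : (0:ℤ) ≤ n * Rw n := mul_nonneg (by positivity) (by have := Rw_pos n; omega)
  have hin : ∀ y, nb y (Bd n) → nb (u + y) (3 ^ (p.K s - 2)) := fun y hy => by
    simpa using hu.add hy
  have hu0 : nb u (3 ^ (p.K s - 2)) := by simpa using hin 0 (nb_zero (Bd_pos n))
  have z0 := h.inZ hu0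
  have hK : 0 < p.K s := z0.1
  have tru : ∀ y c, nb y (Rw n) → nb c 1 → cong (p.zz k0 s u) (p.zz k0 s (u + y)) c →
      p.ψ s (u + y) = p.ψ s u + c := by
    intro y c hy hc h1
    rw [← cong_unique (zz_cong s u (u + y)) h1 (((hg.lip_nb u y hy).sub hc).mono (by omega))]
    abel
  constructor <;> simp only [add_zero]
  · intro i
    exact ⟨_, fun k => hg.lip u i k, zz_cong s _ _⟩
  · intro i
    refine ⟨p.ψ s (u + Mc n • e i) - p.ψ s u - ((n : ℤ) + 1) • e i, fun k => hg.exp u i k, ?_⟩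
    rw [add_sub_cancel]; exact zz_cong s _ _
  · intro k
    obtain ⟨y, h1, h2⟩ := hg.surp u k
    refine ⟨y, h1, ?_⟩
    have := zz_cong (k0 := k0) (p := p) s u (u + y)
    rwa [h2, add_sub_cancel_left] at this
  · intro k
    obtain ⟨y, h1, h2⟩ := hg.surm u k
    refine ⟨y, h1, ?_⟩
    have := zz_cong (k0 := k0) (p := p) s u (u + y)
    rwa [← h2, sub_add_cancel_left] at this
  · intro y hy h1
    have h2 := tru y 0 hy (nb_zero zero_le_one) h1
    rw [add_zero] at h2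
    rw [h.off_val hu0, h.off_val (hin y (hy.mono (Bd_ge n))), h2]
    exact ⟨by simp only [zz]; rw [h2], by abel⟩
  · intro y k hy h1
    have h2 := tru y _ hy (nb_e k) h1
    rw [h.off_val hu0, h.off_val (hin y (hy.mono (Bd_ge n)))]
    simp only [zz, h2, Sys.enc]
    refine ⟨hP.rel hK z0.sub (z0.sub_add k), by rw [add_sub_cancel_right], fun h3 h4 => ?_⟩
    rw [show (((sys k0).mk' (p.lam k0 s) 0 (p.ψ s u)).lam.inc k).1 = _ from
      hB.inc _ k z0.sub (z0.sub_add k) h3 h4]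
    abel
  · exact ⟨hP.k0 (p.K s) 0 _ (by omega) z0, fun k => hP.chk k hK z0.sub, hB.low _ z0.sub⟩
  · intro h1
    have h2 := hin _ (p.zz k0 s u).off.2
    have h3 : p.ψ s (u + (p.zz k0 s u).off.1) = p.ψ s u := by
      rw [h.off_val hu0, add_sub_cancel, hx _ z0.sub]
    refine ⟨?_, ?_⟩
    · have : (p.zz k0 s (u + (p.zz k0 s u).off.1)).mp = (p.zz k0 s u).mp := by
        rw [zz, h3]; rfl
      rw [this]; exact h1
    · rw [h.off_val h2, h3, h.off_val hu0]; abel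

end Plan

end Pool.Agent.MP_c4ca5b_lc
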