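import Mathlib

namespace Pool.Agent.MP_c4ca5b_lc

open Finset

abbrev Z (n : ℕ) := Fin n → ℤ

variable {n : ℕ}

def e (k : Fin n) : Z n := Pi.single k 1

@[simp] lemma e_same (k : Fin n) : e k k = 1 := by simp [e]

lemma e_ne {k l : Fin n} (h : l ≠ k) : e k l = 0 := by simp [e, h]

lemma e_apply (k l : Fin n) : e k l = if l = k then 1 else 0 := by
  simp [e, Pi.single_apply]

/-- sup-norm bound -/
def nb (y : Z n) (R : ℤ) : Prop := ∀ k, |y k| ≤ R

lemma nb.mono {y : Z n} {R R' : ℤ} (h : nb y R) (h' : R ≤ R') : nb y R' :=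
  fun k => (h k).trans h'

lemma nb.add {y y' : Z n} {R R' : ℤ} (h : nb y R) (h' : nb y' R') : nb (y + y') (R + R') :=
  fun k => (abs_add_le _ _).trans (add_le_add (h k) (h' k))

lemma nb.neg {y : Z n} {R : ℤ} (h : nb y R) : nb (-y) R := fun k => by
  simpa using h k

lemma nb.sub {y y' : Z n} {R R' : ℤ} (h : nb y R) (h' : nb y' R') : nb (y - y') (R + R') := by
  rw [sub_eq_add_neg]; exact h.add h'.neg

lemma nb_zero {R : ℤ} (h : 0 ≤ R) : nb (0 : Z n) R := fun _ => by simpa using h

lemma nb_e (k : Fin n) : nb (e k) 1 := fun l => by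
  rw [e_apply]; split_ifs <;> simp

lemma nb.comm {y y' : Z n} {R : ℤ} (h : nb (y - y') R) : nb (y' - y) R := by
  have := h.neg; simpa using this

lemma finite_nb (R : ℤ) : {y : Z n | nb y R}.Finite := by
  have : {y : Z n | nb y R} = Set.pi Set.univ (fun _ => Set.Icc (-R) R) := by
    ext y; simp [nb, abs_le]
    constructor
    · intro h; exact ⟨fun i => (h i).1, fun i => (h i).2⟩
    · intro h i; exact ⟨h.1 i, h.2 i⟩
  rw [this]
  exact Set.Finite.pi' (fun _ => Set.finite_Icc _ _) |>.subset (fun y hy i => hy i trivial)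

def l1 (y : Z n) : ℕ := ∑ k, (y k).natAbs

lemma l1_step (y : Z n) (hy : y ≠ 0) :
    ∃ k, (∃ y', y = y' + e k ∧ l1 y' + 1 = l1 y) ∨ (∃ y', y' = y + e k ∧ l1 y' + 1 = l1 y) := by
  obtain ⟨k, hk⟩ : ∃ k, y k ≠ 0 := by
    by_contra h; push Not at h; exact hy (funext h)
  have key : ∀ y' : Z n, (∀ l, l ≠ k → y' l = y l) → (y' k).natAbs + 1 = (y k).natAbs →
      l1 y' + 1 = l1 y := by
    intro y' h1 h2
    unfold l1
    rw [← Finset.add_sum_erase _ _ (Finset.mem_univ k),
      ← Finset.add_sum_erase _ (fun l => (y l).natAbs) (Finset.mem_univ k)]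
    have : ∑ x ∈ univ.erase k, (y' x).natAbs = ∑ x ∈ univ.erase k, (y x).natAbs :=
      Finset.sum_congr rfl (fun l hl => by rw [h1 l (Finset.ne_of_mem_erase hl)])
    omega
  refine ⟨k, ?_⟩
  rcases lt_or_gt_of_ne hk with h | h
  · right
    refine ⟨y + e k, rfl, key _ (fun l hl => by simp [e_ne hl]) ?_⟩
    simp; omega
  · left
    refine ⟨y - e k, by simp, key _ (fun l hl => by simp [e_ne hl]) ?_⟩
    simp; omega

lemma unit_induction {P : Z n → Prop} (u0 : Z n) (h0 : P u0)
    (hs : ∀ u k, P u ↔ P (u + e k)) (u : Z n) : P u := by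
  have : ∀ N, ∀ y, l1 y = N → P (u0 + y) := by
    intro N
    induction N with
    | zero =>
      intro y hy
      have : y = 0 := by
        by_contra h
        obtain ⟨k, ⟨y', -, h2⟩ | ⟨y', -, h2⟩⟩ := l1_step y h <;> omega
      simpa [this] using h0
    | succ N ih =>
      intro y hy
      have : y ≠ 0 := by
        rintro rfl; simp [l1] at hy
      obtain ⟨k, ⟨y', h1, h2⟩ | ⟨y', h1, h2⟩⟩ := l1_step y this
      · have := (hs _ k).1 (ih y' (by omega))
        rw [h1, ← add_assoc]; exact this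
      · have := ih y' (by omega)
        rw [h1, ← add_assoc] at this
        exact (hs _ k).2 this
  simpa using this _ (u - u0) rfl

lemma lip_l1 {F : Z n → ℤ} {L : ℤ} (h : ∀ u k, |F (u + e k) - F u| ≤ L) (u : Z n) :
    ∀ N, ∀ y, l1 y = N → |F (u + y) - F u| ≤ N * L := by
  intro N
  induction N with
  | zero =>
    intro y hy
    have : y = 0 := by
      by_contra h
      obtain ⟨k, ⟨y', -, h2⟩ | ⟨y', -, h2⟩⟩ := l1_step y h <;> omega
    simp [this]
  | succ N ih =>
    intro y hy
    have : y ≠ 0 := by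
      rintro rfl; simp [l1] at hy
    obtain ⟨k, ⟨y', h1, h2⟩ | ⟨y', h1, h2⟩⟩ := l1_step y this
    · have h3 := ih y' (by omega)
      have h4 := h (u + y') k
      rw [h1, ← add_assoc]
      push_cast
      rw [abs_le] at *
      constructor <;> linarith [h3.1, h3.2, h4.1, h4.2]
    · have h3 := ih y' (by omega)
      have h4 := h (u + y) k
      rw [h1, ← add_assoc] at h3
      push_cast
      rw [abs_le] at *
      constructor <;> linarith [h3.1, h3.2, h4.1, h4.2]

lemma l1_le {y : Z n} {R : ℤ} (h : nb y R) : (l1 y : ℤ) ≤ n * R := by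
  unfold l1
  push_cast
  calc ∑ k, |y k| ≤ ∑ _k : Fin n, R := Finset.sum_le_sum (fun k _ => h k)
    _ = n * R := by simp

lemma lip_nb {F : Z n → ℤ} (h : ∀ u k, |F (u + e k) - F u| ≤ 1) (u y : Z n) {R : ℤ}
    (hy : nb y R) : |F (u + y) - F u| ≤ n * R := by
  have := lip_l1 h u _ y rfl
  have h2 := l1_le hy
  linarith

/-- primitive on the integers -/
lemma exists_prim : ∃ pr : (ℤ → ℤ) → ℤ → ℤ, ∀ h t, pr h (t + 1) - pr h t = h t := by
  have : ∀ h : ℤ → ℤ, ∃ p : ℤ → ℤ, ∀ t, p (t + 1) - p t = h t := by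
    intro h
    refine ⟨fun t => ∑ i ∈ Finset.range t.toNat, h i - ∑ i ∈ Finset.range (-t).toNat, h (-1 - i), ?_⟩
    intro t
    rcases lt_or_ge t 0 with ht | ht
    · obtain ⟨m, rfl⟩ : ∃ m : ℕ, t = -1 - m := ⟨(-1 - t).toNat, by omega⟩
      have h1 : (-1 - (m : ℤ) + 1).toNat = 0 := by omega
      have h2 : (-1 - (m : ℤ)).toNat = 0 := by omega
      have h3 : (-(-1 - (m : ℤ) + 1)).toNat = m := by omega
      have h4 : (-(-1 - (m : ℤ))).toNat = m + 1 := by omega
      simp only [h1, h2, h3, h4, Finset.sum_range_succ]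
      simp
    · obtain ⟨m, rfl⟩ : ∃ m : ℕ, t = m := ⟨t.toNat, by omega⟩
      have h1 : ((m : ℤ) + 1).toNat = m + 1 := by omega
      have h2 : ((m : ℤ)).toNat = m := by omega
      have h3 : (-((m : ℤ) + 1)).toNat = 0 := by omega
      have h4 : (-((m : ℤ))).toNat = 0 := by omega
      simp only [h1, h2, h3, h4, Finset.sum_range_succ]
      simp
  choose pr hpr using this
  exact ⟨pr, hpr⟩

/-- a closed 1-form on `ℤ^n` is exact -/
lemma exists_potential (g : Fin n → Z n → ℤ)
    (hg : ∀ i k u, g i (u + e k) - g i u = g k (u + e i) - g k u) :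
    ∃ F : Z n → ℤ, ∀ i u, F (u + e i) - F u = g i u := by
  obtain ⟨pr, hpr⟩ := exists_prim
  have : ∀ S : Finset (Fin n), ∃ F : Z n → ℤ, ∀ i ∈ S, ∀ u, F (u + e i) - F u = g i u := by
    intro S
    induction S using Finset.induction_on with
    | empty => exact ⟨fun _ => 0, by simp⟩
    | insert k S hk ih =>
      obtain ⟨F, hF⟩ := ih
      let r : Z n → ℤ := fun u => g k u - (F (u + e k) - F u)
      have hr : ∀ i ∈ S, ∀ u, r (u + e i) = r u := by
        intro i hi u
        have h1 := hF i hi u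
        have h2 := hF i hi (u + e k)
        have h3 := hg i k u
        simp only [r]
        rw [show u + e i + e k = u + e k + e i by abel]
        linarith
      refine ⟨fun u => F u + pr (fun t => r (Function.update u k t)) (u k), ?_⟩
      intro i hi u
      rcases Finset.mem_insert.1 hi with rfl | hi
      · have h1 : (fun t => r (Function.update (u + e i) i t)) =
            (fun t => r (Function.update u i t)) := by
          funext t; congr 1; funext l
          by_cases hl : l = i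
          · subst hl; simp
          · simp [Function.update_of_ne hl, e_ne hl]
        have h2 := hpr (fun t => r (Function.update u i t)) (u i)
        simp only [h1, Pi.add_apply, e_same]
        simp only [Function.update_eq_self] at h2
        simp only [r] at h2 ⊢
        linarith
      · have hik : i ≠ k := fun h => hk (h ▸ hi)
        have h1 : (fun t => r (Function.update (u + e i) k t)) =
            (fun t => r (Function.update u k t)) := by
          funext t
          rw [← hr i hi (Function.update u k t)]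
          congr 1; funext l
          by_cases hl : l = k
          · subst hl; simp [e_ne hik.symm]
          · simp [Function.update_of_ne hl]
        have h2 := hF i hi u
        simp only [h1, Pi.add_apply, e_ne hik.symm, add_zero]
        linarith
  obtain ⟨F, hF⟩ := this Finset.univ
  exact ⟨F, fun i u => hF i (Finset.mem_univ _) u⟩

/-! ### The flexible base grid -/

/-- macro step -/
def Mc (n : ℕ) : ℤ := 2 * (n + 1)
/-- additive constant in coarse injectivity -/
def C1 (n : ℕ) : ℤ := Mc n * (n * Mc n + 1)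
/-- window radius for fibres -/
def Rw (n : ℕ) : ℤ := Mc n + C1 n

lemma Mc_pos (n : ℕ) : 2 ≤ Mc n := by unfold Mc; omega
lemma C1_pos (n : ℕ) : 2 ≤ C1 n := by
  unfold C1; have := Mc_pos n; have : (0:ℤ) ≤ n * Mc n := by positivity
  nlinarith
lemma Rw_pos (n : ℕ) : 4 ≤ Rw n := by
  unfold Rw; have := Mc_pos n; have := C1_pos n; omega

structure IsGrid (ψ : Z n → Z n) : Prop where
  lip : ∀ u i k, |ψ (u + e i) k - ψ u k| ≤ 1
  exp : ∀ u i k, |ψ (u + Mc n • e i) k - ψ u k - (n + 1) * e i k| ≤ 1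
  surp : ∀ u k, ∃ y, nb y (Rw n) ∧ ψ (u + y) = ψ u + e k
  surm : ∀ u k, ∃ y, nb y (Rw n) ∧ ψ (u + y) + e k = ψ u

lemma IsGrid.lip_nb {ψ : Z n → Z n} (h : IsGrid ψ) (u y : Z n) {R : ℤ} (hy : nb y R) :
    nb (ψ (u + y) - ψ u) (n * R) := fun k =>
  Pool.Agent.MP_c4ca5b_lc.lip_nb (F := fun u => ψ u k) (fun u i => h.lip u i k) u y hy

lemma IsGrid.surj {ψ : Z n → Z n} (h : IsGrid ψ) : Function.Surjective ψ := by
  intro c
  refine unit_induction (P := fun c => ∃ u, ψ u = c) (ψ 0) ⟨0, rfl⟩ ?_ c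
  intro c k
  constructor
  · rintro ⟨u, rfl⟩
    obtain ⟨y, -, hy⟩ := h.surp u k
    exact ⟨_, hy⟩
  · rintro ⟨u, hu⟩
    obtain ⟨y, -, hy⟩ := h.surm u k
    exact ⟨u + y, by rw [hu] at hy; exact add_right_cancel hy⟩

lemma exists_max_coord (q : Z n) : ∃ Q : ℤ, 0 ≤ Q ∧ nb q Q ∧ (Q = 0 ∨ ∃ i, |q i| = Q) := by
  rcases Nat.eq_zero_or_pos n with rfl | hn
  · exact ⟨0, le_rfl, fun k => k.elim0, Or.inl rfl⟩
  · have : Nonempty (Fin n) := ⟨⟨0, hn⟩⟩
    obtain ⟨i, hi⟩ := Finite.exists_max (fun i => |q i|)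
    exact ⟨|q i|, abs_nonneg _, hi, Or.inr ⟨i, rfl⟩⟩

lemma IsGrid.coarse {ψ : Z n → Z n} (h : IsGrid ψ) (u u' : Z n) {D : ℤ} (hD0 : 0 ≤ D)
    (hD : nb (ψ u' - ψ u) D) : nb (u' - u) (Mc n * D + C1 n) := by
  have hM := Mc_pos n
  set y := u' - u with hy
  let q : Z n := fun k => y k / Mc n
  let r : Z n := fun k => y k % Mc n
  have hqr : u' = u + Mc n • q + r := by
    funext k
    have := Int.mul_ediv_add_emod (y k) (Mc n)
    simp only [q, r, Pi.add_apply, Pi.smul_apply, smul_eq_mul]
    have h2 : y k = u' k - u k := rfl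
    linarith
  have hr : nb r (Mc n) := fun k => by
    have h1 := Int.emod_nonneg (y k) (show Mc n ≠ 0 by omega)
    have h2 := Int.emod_lt_of_pos (y k) (show 0 < Mc n by omega)
    simp only [r]; rw [abs_le]; constructor <;> linarith
  obtain ⟨Q, hQ0, hQ, hQi⟩ := exists_max_coord q
  have hQb : Q ≤ D + n * Mc n := by
    rcases hQi with rfl | ⟨i, hi⟩
    · have : (0:ℤ) ≤ n * Mc n := by positivity
      linarith
    · have h1 := Pool.Agent.MP_c4ca5b_lc.lip_nb
        (F := fun q => ψ (u + Mc n • q) i - (n + 1) * q i) (fun v k => by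
          have := h.exp (u + Mc n • v) k i
          simp only [smul_add, Pi.add_apply, ← add_assoc]
          convert this using 2; ring) 0 q hQ
      have h2 := h.lip_nb (u + Mc n • q) r hr i
      rw [← hqr] at h2
      have h3 := hD i
      simp only [zero_add, smul_zero, add_zero, Pi.zero_apply, mul_zero, sub_zero,
        Pi.sub_apply] at h1 h2 h3
      have h4 : |(n + 1 : ℤ) * q i| = (n + 1) * Q := by
        rw [abs_mul, hi, abs_of_nonneg (by positivity)]
      have h5 : |(n + 1 : ℤ) * q i| ≤ n * Q + n * Mc n + D := by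
        rw [abs_le] at *
        constructor <;> linarith [h1.1, h1.2, h2.1, h2.2, h3.1, h3.2]
      linarith
  intro k
  have h1 : y k = Mc n * q k + r k := (Int.mul_ediv_add_emod (y k) (Mc n)).symm
  have h2 := hQ k
  have h3 := hr k
  rw [h1]
  calc |Mc n * q k + r k| ≤ |Mc n * q k| + |r k| := abs_add_le _ _
    _ ≤ Mc n * Q + Mc n := by
        rw [abs_mul, abs_of_nonneg (by omega : (0:ℤ) ≤ Mc n)]
        nlinarith
    _ ≤ Mc n * D + C1 n := by
        unfold C1; nlinarith

lemma IsGrid.fibre {ψ : Z n → Z n} (h : IsGrid ψ) {u u' : Z n} (huu : ψ u' = ψ u) :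
    nb (u' - u) (Rw n) := by
  have := h.coarse u u' (D := 0) le_rfl (by rw [huu, sub_self]; exact nb_zero le_rfl)
  refine this.mono ?_
  unfold Rw; have := Mc_pos n; omega

/-! ### The ternary hierarchy -/

def par (C : Z n) : Z n := fun k => C k / 3

def anc (h : ℕ) (C : Z n) : Z n := fun k => C k / 3 ^ h

@[simp] lemma anc_zero (C : Z n) : anc 0 C = C := by funext k; simp [anc]

lemma anc_succ (h : ℕ) (C : Z n) : anc (h + 1) C = par (anc h C) := by
  funext k; simp only [anc, par]
  rw [Int.ediv_ediv_of_nonneg (by positivity), pow_succ]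

lemma anc_succ' (h : ℕ) (C : Z n) : anc (h + 1) C = anc h (par C) := by
  funext k; simp only [anc, par]
  rw [Int.ediv_ediv_of_nonneg (by positivity), pow_succ']

lemma anc_add (h h' : ℕ) (C : Z n) : anc (h + h') C = anc h' (anc h C) := by
  funext k; simp only [anc]
  rw [Int.ediv_ediv_of_nonneg (by positivity), pow_add]

lemma anc_eq_iff (h : ℕ) (C A : Z n) :
    anc h C = A ↔ ∀ k, 3 ^ h * A k ≤ C k ∧ C k < 3 ^ h * A k + 3 ^ h := by
  have hp : (0:ℤ) < 3 ^ h := by positivity
  rw [funext_iff]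
  refine forall_congr' fun k => ?_
  simp only [anc]
  constructor
  · intro hA
    rw [← hA]
    have h1 := Int.mul_ediv_add_emod (C k) (3 ^ h)
    have h2 := Int.emod_nonneg (C k) hp.ne'
    have h3 := Int.emod_lt_of_pos (C k) hp
    constructor <;> linarith
  · rintro ⟨h1, h2⟩
    apply le_antisymm
    · have : C k / 3 ^ h < A k + 1 := (Int.ediv_lt_iff_lt_mul hp).2 (by linarith)
      omega
    · exact (Int.le_ediv_iff_mul_le hp).2 (by linarith)

lemma anc_add_smul (h : ℕ) (C q : Z n) : anc h (C + (3 ^ h : ℤ) • q) = anc h C + q := by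
  funext k
  simp only [anc, Pi.add_apply, Pi.smul_apply, smul_eq_mul]
  rw [Int.add_mul_ediv_left _ _ (by positivity)]

lemma par_add_smul (C q : Z n) : par (C + (3 : ℤ) • q) = par C + q := by
  funext k
  simp only [par, Pi.add_apply, Pi.smul_apply, smul_eq_mul]
  omega

abbrev Pos (n : ℕ) := Fin n → ZMod 3

def pos (C : Z n) : Pos n := fun k => (C k : ZMod 3)

def ep (k : Fin n) : Pos n := Pi.single k 1

def ctr : Pos n := fun _ => 1

lemma pos_add_e (C : Z n) (k : Fin n) : pos (C + e k) = pos C + ep k := by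
  funext l
  simp only [pos, ep, e, Pi.add_apply, Pi.single_apply]
  split_ifs <;> simp

lemma pos_add_smul (C q : Z n) : pos (C + (3 : ℤ) • q) = pos C := by
  funext l
  simp only [pos, Pi.add_apply, Pi.smul_apply, smul_eq_mul]
  push_cast
  have : (3 : ZMod 3) = 0 := rfl
  rw [this]; simp

lemma cast_eq_zero_iff (a : ℤ) : (a : ZMod 3) = 0 ↔ a % 3 = 0 := by
  have := ZMod.intCast_eq_intCast_iff' a 0 3
  simpa using this

lemma cast_eq_one_iff (a : ℤ) : (a : ZMod 3) = 1 ↔ a % 3 = 1 := by
  have := ZMod.intCast_eq_intCast_iff' a 1 3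
  simpa using this

lemma cast_eq_two_iff (a : ℤ) : (a : ZMod 3) = 2 ↔ a % 3 = 2 := by
  have := ZMod.intCast_eq_intCast_iff' a 2 3
  simpa using this

lemma pos_zero_iff (C : Z n) (k : Fin n) : pos C k = 0 ↔ C k % 3 = 0 := cast_eq_zero_iff _
lemma pos_one_iff (C : Z n) (k : Fin n) : pos C k = 1 ↔ C k % 3 = 1 := cast_eq_one_iff _
lemma pos_two_iff (C : Z n) (k : Fin n) : pos C k = 2 ↔ C k % 3 = 2 := cast_eq_two_iff _

lemma pos_eq_ctr_iff (C : Z n) : pos C = ctr ↔ ∀ k, C k % 3 = 1 := by
  rw [funext_iff]; exact forall_congr' fun k => pos_one_iff C k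

lemma par_add_e_of_ne {C : Z n} {k : Fin n} (h : pos C k ≠ 2) : par (C + e k) = par C := by
  rw [Ne, pos_two_iff] at h
  funext l
  simp only [par, Pi.add_apply, e_apply]
  split_ifs with hl
  · subst hl; omega
  · simp

lemma par_add_e_of_eq {C : Z n} {k : Fin n} (h : pos C k = 2) : par (C + e k) = par C + e k := by
  rw [pos_two_iff] at h
  funext l
  simp only [par, Pi.add_apply, e_apply]
  split_ifs with hl
  · subst hl; omega
  · simp

lemma eq_of_par_pos {C D : Z n} (h1 : par C = par D) (h2 : pos C = pos D) : C = D := by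
  funext k
  have a := congrFun h1 k
  have b := (ZMod.intCast_eq_intCast_iff' (C k) (D k) 3).1 (congrFun h2 k)
  simp only [par] at a
  push_cast at b
  omega

end Pool.Agent.MP_c4ca5b_lc
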