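import Pool.Agent.MP_c4ca5b_lc.Lcl

set_option linter.unusedSectionVars false
set_option linter.style.haveILetI false

namespace Pool.Agent.MP_c4ca5b_lc

open Finset Filter Topology

variable {n : ℕ}

@[reducible] noncomputable def actY (n p : ℕ) [Fact p.Prime] : AddAction (Fin n → ℤ) (Fin n → ℤ_[p]) where
  vadd v y := fun k => (v k : ℤ_[p]) + y k
  zero_vadd y := by funext k; show ((0 : ℤ) : ℤ_[p]) + y k = y k; simp
  add_vadd v w y := by
    funext k
    show ((v k + w k : ℤ) : ℤ_[p]) + y k = (v k : ℤ_[p]) + ((w k : ℤ_[p]) + y k)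
    push_cast; ring

theorem toeplitz {P : LCL n} (h : InBaire P) (p : ℕ) [hp : Fact p.Prime] :
    ∃ z : Z n → P.Label,
      (∀ u, (fun v : {v : Fin n → ℤ // ∀ i, |v i| ≤ (P.radius : ℤ)} => z (u + v.1)) ∈ P.allowed) ∧
      ∀ w, ∃ b : ℕ, ∀ v : Z n, z (w + ((p : ℤ) ^ b) • v) = z w := by
  letI := actY n p
  have hv : ∀ (v : Z n) (y : Fin n → ℤ_[p]), v +ᵥ y = (fun k => (v k : ℤ_[p])) + y :=
    fun _ _ => rfl
  have hcont : ∀ v : Z n, Continuous fun y : Fin n → ℤ_[p] => v +ᵥ y := fun v => by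
    simp only [hv]; fun_prop
  have hopen : ∀ v : Z n, IsOpenMap fun y : Fin n → ℤ_[p] => v +ᵥ y := fun v => by
    simp only [hv]; exact isOpenMap_add_left _
  obtain ⟨f, hf, Y0, hY0, -, hval⟩ := @h (Fin n → ℤ_[p]) _ _ (borel _) (@BorelSpace.mk _ _ (borel _) rfl) _
    (fun v => by
      letI := borel (Fin n → ℤ_[p])
      haveI : BorelSpace (Fin n → ℤ_[p]) := ⟨rfl⟩
      exact (hcont v).measurable)
    (fun v y hv0 h => hv0 (by
      funext k
      have := congrFun h k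
      rw [hv] at this
      simpa using this))
  have := P.finite_label
  choose O hO1 hO2 using fun l => (hf l).residualEq_isOpen
  have hG : ∀ᶠ y in residual (Fin n → ℤ_[p]), y ∈ Y0 ∧ ∀ l, (f y = l ↔ y ∈ O l) := by
    refine Filter.Eventually.and hY0 ?_
    rw [eventually_countable_forall]
    intro l
    filter_upwards [hO2 l] with y hy
    exact iff_of_eq hy
  have hG' : ∀ᶠ y in residual (Fin n → ℤ_[p]), ∀ v : Z n,
      v +ᵥ y ∈ Y0 ∧ ∀ l, (f (v +ᵥ y) = l ↔ v +ᵥ y ∈ O l) := by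
    rw [eventually_countable_forall]
    intro v
    exact (tendsto_residual_of_isOpenMap (hcont v) (hopen v)).eventually hG
  obtain ⟨y, hy⟩ := (dense_of_mem_residual hG').nonempty
  refine ⟨fun v => f (v +ᵥ y), fun u => ?_, fun w => ?_⟩
  · have := hval _ (hy u).1
    simp only [← add_vadd] at this
    simpa only [add_comm] using this
  · have h1 : w +ᵥ y ∈ O (f (w +ᵥ y)) := ((hy w).2 _).1 rfl
    obtain ⟨ε, hε, h2⟩ := Metric.isOpen_iff.1 (hO1 _) _ h1
    have hp1 : (1 : ℝ) < p := by exact_mod_cast hp.out.one_lt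
    obtain ⟨b, hb⟩ : ∃ b : ℕ, ((p : ℝ)⁻¹) ^ b < ε :=
      exists_pow_lt_of_lt_one hε (inv_lt_one_of_one_lt₀ hp1)
    refine ⟨b, fun v => ((hy _).2 _).2 (h2 ?_)⟩
    rw [Metric.mem_ball, dist_pi_lt_iff hε]
    intro k
    rw [hv, hv, dist_eq_norm]
    simp only [Pi.add_apply, Pi.smul_apply, smul_eq_mul]
    push_cast
    rw [show (w k : ℤ_[p]) + (p : ℤ_[p]) ^ b * (v k : ℤ_[p]) + y k - ((w k : ℤ_[p]) + y k) =
      (p : ℤ_[p]) ^ b * (v k : ℤ_[p]) by ring, norm_mul, norm_pow, PadicInt.norm_p]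
    have h3 := PadicInt.norm_le_one (v k : ℤ_[p])
    have h4 : (0:ℝ) ≤ ((p : ℝ)⁻¹) ^ b := by positivity
    nlinarith

theorem main_not_inBaire [Nontrivial (Fin n)] (k0 : Fin n) : ¬ InBaire (mainLCL k0) := by
  intro h
  obtain ⟨z, h1, h2⟩ := toeplitz h 2
  exact no_toeplitz (k0 := k0) (z := z) (fun u => (mainLCL_iff k0 (fun v => z (u + v))).1 (h1 u))
    (fun w => h2 w)

/-! ### Actions that are not totally transitive -/

def castv (m : ℕ) (v : Z n) : Fin n → ZMod m := fun k => (v k : ZMod m)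

lemma castv_add (m : ℕ) (v w : Z n) : castv m (v + w) = castv m v + castv m w := by
  funext k; simp [castv]

def perRule (m : ℕ) (z : Z n → Set (Fin n → ZMod m)) : Prop :=
  (z 0).Nonempty ∧ z 0 ≠ Set.univ ∧ ∀ i r, r ∈ z (e i) ↔ r + castv m (e i) ∈ z 0

def perLCL (n a : ℕ) : LCL n where
  Label := Set (Fin n → ZMod (6 ^ a))
  finite_label := inferInstance
  radius := 1
  allowed := {p | ∃ z, perRule (6 ^ a) z ∧ ∀ v, p v = z v.1}

lemma perLCL_iff (a : ℕ) (z : Z n → Set (Fin n → ZMod (6 ^ a))) :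
    (fun v : {v : Fin n → ℤ // ∀ i, |v i| ≤ ((perLCL n a).radius : ℤ)} => z v.1) ∈
      (perLCL n a).allowed ↔ perRule (6 ^ a) z := by
  refine ⟨fun ⟨z', h1, h2⟩ => ?_, fun h => ⟨z, h, fun _ => rfl⟩⟩
  have h0 : z 0 = z' 0 := h2 ⟨0, fun i => by simp⟩
  have h3 : ∀ i, z (e i) = z' (e i) := fun i => h2 ⟨e i, nb_e i⟩
  unfold perRule at *
  simp only [h0, h3]; exact h1

theorem per_not_inBaire (a : ℕ) : ¬ InBaire (perLCL n a) := by
  intro h
  have : Fact (Nat.Prime 5) := ⟨by norm_num⟩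
  obtain ⟨z, h1, h2⟩ := toeplitz h 5
  have h3 : ∀ u, perRule (6 ^ a) (fun v => z (u + v)) := fun u =>
    (perLCL_iff a (fun v => z (u + v))).1 (h1 u)
  let z' : Z n → Set (Fin n → ZMod (6 ^ a)) := z
  have h4 : ∀ u r, r ∈ z' u ↔ r + castv _ u ∈ z' 0 := by
    refine unit_induction 0 (fun r => by rw [show castv (6 ^ a) (0 : Z n) = 0 by
      funext k; simp [castv], add_zero]) fun u i => ?_
    have h5 : ∀ r, r ∈ z' (u + e i) ↔ r + castv _ (e i) ∈ z' u := fun r => by
      have := (h3 u).2.2 i r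
      simpa using this
    constructor
    · intro h6 r
      rw [h5, h6, castv_add]; rw [add_assoc, add_comm (castv _ (e i))]
    · intro h6 r
      have := h6 (r - castv _ (e i))
      rw [h5, sub_add_cancel, castv_add] at this
      rw [this]; rw [show r - castv (6 ^ a) (e i) + (castv (6 ^ a) u + castv (6 ^ a) (e i)) =
        r + castv (6 ^ a) u by abel]
  obtain ⟨b, hb⟩ := h2 0
  obtain ⟨⟨r0, hr0⟩, h5, -⟩ := h3 0
  simp only [add_zero] at hr0 h5
  apply h5
  rw [Set.eq_univ_iff_forall]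
  intro r
  have hu : IsUnit ((5 : ZMod (6 ^ a)) ^ b) := by
    refine IsUnit.pow _ ?_
    have := (ZMod.isUnit_iff_coprime 5 (6 ^ a)).2 (Nat.Coprime.pow_right _ (by norm_num))
    simpa using this
  obtain ⟨s, hs⟩ := hu.exists_right_inv
  let v : Z n := fun k => ((s * (r k - r0 k)).val : ℤ)
  have h6 := (h4 (((5 : ℕ) : ℤ) ^ b • v) r0).1 (by
    have := hb v
    rw [zero_add] at this
    show r0 ∈ z' _
    simp only [z']
    rw [this]; exact hr0)
  have h7 : r0 + castv (6 ^ a) (((5 : ℕ) : ℤ) ^ b • v) = r := by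
    funext k
    simp only [castv, v, Pi.add_apply, Pi.smul_apply, smul_eq_mul]
    push_cast
    rw [ZMod.natCast_zmod_val, ← mul_assoc, hs]; ring
  rwa [h7] at h6

section Dyn

variable {X : Type} [TopologicalSpace X] [AddAction (Fin n → ℤ) X]
  [ContinuousConstVAdd (Fin n → ℤ) X]

/-- total topological transitivity along the subgroups `6^a ℤ^n` -/
def TT (n : ℕ) (X : Type) [TopologicalSpace X] [AddAction (Fin n → ℤ) X] : Prop :=
  ∀ (a : ℕ) (r : Z n) (U V : Set X), IsOpen U → IsOpen V → U.Nonempty → V.Nonempty →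
    ∃ v : Z n, (∀ k, (6:ℤ) ^ a ∣ v k - r k) ∧ ∃ x ∈ U, v +ᵥ x ∈ V

lemma sat_residual (hd : ∃ x : X, Dense (AddAction.orbit (Fin n → ℤ) x)) {U : Set X}
    (hU : IsOpen U) (hne : U.Nonempty) : {x : X | ∃ v : Z n, v +ᵥ x ∈ U} ∈ residual X := by
  obtain ⟨x0, hx0⟩ := hd
  refine residual_of_dense_open ?_ (hx0.mono ?_)
  · rw [Set.ofPred_exists]
    exact isOpen_iUnion fun v => hU.preimage (continuous_const_vadd v)
  · obtain ⟨y, hy, w, rfl⟩ := hx0.inter_open_nonempty U hU hne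
    rintro _ ⟨v, rfl⟩
    exact ⟨w - v, by simpa [← add_vadd] using hy⟩

theorem per_solved [PolishSpace X] (hd : ∃ x : X, Dense (AddAction.orbit (Fin n → ℤ) x))
    (h : ¬ TT n X) : ∃ a, HasBaireLabelling (perLCL n a) X := by
  unfold TT at h
  push Not at h
  obtain ⟨a, r, U, V, hU, hV, hUn, hVn, h⟩ := h
  let f : X → Set (Fin n → ZMod (6 ^ a)) := fun x => {ρ | ∃ v : Z n, castv _ v = ρ ∧ v +ᵥ x ∈ U}
  refine ⟨a, f, fun l => ?_, {x : X | ∃ v : Z n, v +ᵥ x ∈ U} ∩ {x : X | ∃ v : Z n, v +ᵥ x ∈ V},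
    inter_mem (sat_residual hd hU hUn) (sat_residual hd hV hVn), ?_, ?_⟩
  · borelize X
    refine MeasurableSet.baireMeasurableSet ?_
    have h1 : ∀ ρ, MeasurableSet {x : X | ρ ∈ f x} := fun ρ => by
      refine IsOpen.measurableSet ?_
      simp only [f, Set.mem_ofPred_eq]
      rw [Set.ofPred_exists]
      refine isOpen_iUnion fun v => ?_
      by_cases hv : castv (6 ^ a) v = ρ
      · simp only [hv, true_and]; exact hU.preimage (continuous_const_vadd v)
      · simp [hv]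
    let l' : Set (Fin n → ZMod (6 ^ a)) := l
    have : f ⁻¹' {l} = ⋂ ρ, {x : X | ρ ∈ f x ↔ ρ ∈ l'} := by
      ext x
      simp only [Set.mem_preimage, Set.mem_iInter, Set.mem_ofPred_eq]
      exact Set.ext_iff
    erw [this]
    refine MeasurableSet.iInter fun ρ => ?_
    by_cases hρ : ρ ∈ l'
    · simpa [hρ] using h1 ρ
    · simp only [hρ, iff_false]; exact (h1 ρ).compl
  · rintro w y ⟨⟨v, hv⟩, ⟨v', hv'⟩⟩
    exact ⟨⟨v - w, by simpa [← add_vadd] using hv⟩, ⟨v' - w, by simpa [← add_vadd] using hv'⟩⟩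
  · rintro y ⟨⟨v, hv⟩, ⟨g, hg⟩⟩
    refine (perLCL_iff a (fun v => f (v +ᵥ y))).2 ⟨⟨castv _ v, v, rfl, by simpa using hv⟩, ?_, ?_⟩
    · intro h1
      have : castv (6 ^ a) (g - r) ∈ f ((0 : Z n) +ᵥ y) := Set.eq_univ_iff_forall.1 h1 _
      obtain ⟨w, h2, h3⟩ := this
      rw [zero_vadd] at h3
      refine h (g - w) (fun k => ?_) _ h3 (by simpa [← add_vadd] using hg)
      have h4 := congrFun h2 k
      simp only [castv] at h4
      have := (ZMod.intCast_eq_intCast_iff_dvd_sub _ _ _).1 h4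
      push_cast at this
      convert this using 1
      simp only [Pi.sub_apply]; ring
    · intro i ρ
      simp only [f, Set.mem_ofPred_eq, zero_vadd, ← add_vadd]
      constructor
      · rintro ⟨w, rfl, hw⟩
        exact ⟨w + e i, castv_add _ _ _, hw⟩
      · rintro ⟨w, h1, hw⟩
        refine ⟨w - e i, ?_, by simpa using hw⟩
        have := castv_add (6 ^ a) (w - e i) (e i)
        rw [sub_add_cancel, h1] at this
        exact (add_right_cancel this).symm

end Dyn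

end Pool.Agent.MP_c4ca5b_lc
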