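import Pool.Agent.MP_c4ca5b_lc.Sound

set_option linter.unusedSectionVars false

namespace Pool.Agent.MP_c4ca5b_lc

open Finset

variable {n : ℕ}

lemma div_close {x x' D m : ℤ} (hm : 0 < m) (h : |x - x'| ≤ D * m) : |x / m - x' / m| ≤ D := by
  rw [abs_le] at h ⊢
  have h1 : x / m ≤ (x' + D * m) / m := Int.ediv_le_ediv hm (by linarith [h.2])
  have h2 : x' / m ≤ (x + D * m) / m := Int.ediv_le_ediv hm (by linarith [h.1])
  rw [Int.add_mul_ediv_right _ _ hm.ne'] at h1 h2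
  constructor <;> linarith

lemma pow_succ_dvd_iff {P : ℕ} (hP : 0 < P) (V j : ℕ) :
    P ^ (j + 1) ∣ V + 1 ↔ P ^ j ∣ V + 1 ∧ V / P ^ j % P + 1 = P := by
  have hpj : 0 < P ^ j := by positivity
  have key : ∀ m, V + 1 = P ^ j * (m + 1) → V / P ^ j = m := by
    intro m hm
    refine Nat.div_eq_of_lt_le ?_ ?_
    · rw [mul_add, mul_comm] at hm; omega
    · rw [mul_comm]; omega
  constructor
  · rintro ⟨m, hm⟩
    obtain ⟨m, rfl⟩ : ∃ m', m = m' + 1 := ⟨m - 1, by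
      rcases m with _ | m
      · simp at hm
      · simp⟩
    have h1 : P * (m + 1) = P * m + (P - 1) + 1 := by rw [mul_add]; omega
    rw [pow_succ, mul_assoc, h1] at hm
    refine ⟨⟨_, hm⟩, ?_⟩
    rw [key _ hm, Nat.mul_add_mod, Nat.mod_eq_of_lt (by omega)]; omega
  · rintro ⟨⟨m, hm⟩, h2⟩
    obtain ⟨m, rfl⟩ : ∃ m', m = m' + 1 := ⟨m - 1, by
      rcases m with _ | m
      · simp at hm
      · simp⟩
    rw [key _ hm] at h2
    have := Nat.div_add_mod m P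
    refine ⟨m / P + 1, ?_⟩
    rw [hm, pow_succ, mul_assoc]; congr 1; rw [mul_add]; omega

def dg (n i j : ℕ) : Fin (6 ^ n) := ⟨i / (6 ^ n) ^ j % 6 ^ n, Nat.mod_lt _ (by positivity)⟩

structure Reg (n : ℕ) : Type where
  K : ℕ
  a : ℕ
  v : ℕ → Z n
  ψ : Z n → Z n

namespace Reg

variable (k0 : Fin n) (ρ : Reg n)

def M : ℕ := (6 ^ n) ^ ρ.a

def col (i : ℕ) : ℤ := anc ρ.a (ρ.ψ (ρ.v i)) k0

def isSt (j : ℕ) (C : Z n) (i : ℕ) : Prop := i < ρ.M ∧ j ≤ ρ.a ∧ anc j (ρ.ψ (ρ.v i)) = C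

open Classical in
noncomputable def X (j : ℕ) (C : Z n) : Z n :=
  if h : ∃ i, ρ.isSt j C i then ρ.v h.choose else Classical.epsilon fun u => anc j (ρ.ψ u) = C

noncomputable def hh (j : ℕ) (C : Z n) : Z n := fun k => ρ.X j C k / 6 ^ j

noncomputable def V (t : ℤ) : ℕ := ((range ρ.M).filter fun i => ρ.col k0 i < t).card

def W (t : ℤ) : Prop := ∃ i, i < ρ.M ∧ ρ.col k0 i = t

def cl (j : ℕ) (C : Z n) : ℤ := anc (ρ.a - j) C k0

open Classical in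
noncomputable def reg (j : ℕ) (C : Z n) : Lam n where
  sp := j = ρ.K
  hi := ρ.a ≤ j
  top := j = ρ.a
  G := (3:ℤ) ^ (ρ.a - j) ∣ C k0 + 1
  W := ρ.W k0 (ρ.cl k0 j C)
  cin := ρ.W k0 (ρ.cl k0 j C) ∧ (6 ^ n) ^ j ∣ ρ.V k0 (ρ.cl k0 j C) + 1
  done := ρ.M ≤ ρ.V k0 (ρ.cl k0 j C)
  g := j = ρ.a ∧ ∃ i, i < ρ.M ∧ ρ.col k0 i = C k0 ∧ ∀ k, C k ≤ anc ρ.a (ρ.ψ (ρ.v i)) k
  st := ∃ i, ρ.isSt j C i
  Fm k := C k = 0
  Fp k := C k + 1 = 3 ^ (ρ.K - j)
  d := clamp (ρ.hh j C - (6:ℤ) • ρ.hh (j + 1) (par C))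
  inc k := clamp (ρ.hh j (C + e k) - ρ.hh j C)
  s := dg n (ρ.V k0 (ρ.cl k0 j C)) j
  ptr := if h : ∃ k i, i < ρ.M ∧ ρ.col k0 i = C k0 ∧ C k < anc ρ.a (ρ.ψ (ρ.v i)) k
    then some h.choose else none
  ch := pos (anc (j - 1) (ρ.ψ (ρ.X j C)))

structure OK : Prop where
  grid : IsGrid ρ.ψ
  a1 : 1 ≤ ρ.a
  aK : ρ.a < ρ.K
  inP : ∀ i, i < ρ.M → Sub ρ.K 0 (ρ.ψ (ρ.v i))
  mono : ∀ i i', i < i' → i' < ρ.M → ρ.col k0 i < ρ.col k0 i'
  dig : ∀ i, i < ρ.M → ∀ j, j < ρ.a → ∀ k, ρ.v i k / 6 ^ j % 6 = emb (dg n i j) k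

variable {k0 ρ} (h : ρ.OK k0)
include h

lemma OK.col_inj {i i' : ℕ} (hi : i < ρ.M) (hi' : i' < ρ.M) (hc : ρ.col k0 i = ρ.col k0 i') :
    i = i' := by
  rcases lt_trichotomy i i' with h1 | h1 | h1
  · have := h.mono i i' h1 hi'; omega
  · exact h1
  · have := h.mono i' i h1 hi; omega

omit h in
lemma isSt.cl {j : ℕ} {C : Z n} {i : ℕ} (hs : ρ.isSt j C i) : ρ.cl k0 j C = ρ.col k0 i := by
  unfold Reg.cl Reg.col
  rw [← hs.2.2, ← anc_add, show j + (ρ.a - j) = ρ.a by have := hs.2.1; omega]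

lemma OK.X_st {j : ℕ} {C : Z n} {i : ℕ} (hs : ρ.isSt j C i) : ρ.X j C = ρ.v i := by
  have hex : ∃ i, ρ.isSt j C i := ⟨i, hs⟩
  unfold Reg.X
  rw [dif_pos hex, h.col_inj hex.choose_spec.1 hs.1
    (by rw [← hex.choose_spec.cl (k0 := k0), hs.cl])]

lemma OK.X_spec (j : ℕ) (C : Z n) : anc j (ρ.ψ (ρ.X j C)) = C := by
  by_cases hex : ∃ i, ρ.isSt j C i
  · obtain ⟨i, hi⟩ := hex
    rw [h.X_st hi]; exact hi.2.2
  · unfold Reg.X
    rw [dif_neg hex]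
    obtain ⟨u, hu⟩ := h.grid.surj (((3:ℤ) ^ j) • C)
    exact Classical.epsilon_spec (p := fun u => anc j (ρ.ψ u) = C) ⟨u, by rw [hu, anc_smul]⟩

lemma OK.close {j : ℕ} {u u' : Z n} (hu : nb (ρ.ψ u - ρ.ψ u') (3 ^ (j + 1))) (k : Fin n) :
    |u k / 6 ^ j - u' k / 6 ^ j| ≤ 3 * Mc n + C1 n := by
  refine div_close (by positivity) ((h.grid.coarse u' u (by positivity) hu k).trans ?_)
  have h1 : (3:ℤ) ^ j ≤ 6 ^ j := pow_le_pow_left₀ (by norm_num) (by norm_num) j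
  have h2 : (1:ℤ) ≤ 6 ^ j := one_le_pow₀ (by norm_num)
  have := Mc_pos n; have := C1_pos n
  rw [pow_succ]; nlinarith

lemma OK.d_val (j : ℕ) (C : Z n) :
    (ρ.reg k0 j C).d.1 = ρ.hh j C - (6:ℤ) • ρ.hh (j + 1) (par C) := by
  refine clamp_val fun k => ?_
  have h1 := h.close (j := j) (u := ρ.X j C) (u' := ρ.X (j + 1) (par C)) (fun l => by
    have a1 := (anc_eq_iff (j + 1) _ _).1
      (show anc (j + 1) (ρ.ψ (ρ.X j C)) = par C by rw [anc_succ, h.X_spec]) l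
    have a2 := (anc_eq_iff (j + 1) _ _).1 (h.X_spec (j + 1) (par C)) l
    rw [Pi.sub_apply, abs_le]; constructor <;> linarith [a1.1, a1.2, a2.1, a2.2]) k
  simp only [Pi.sub_apply, Pi.smul_apply, smul_eq_mul, Reg.hh, Bd]
  rw [pow_succ (6:ℤ) j, ← Int.ediv_ediv_of_nonneg (by positivity)]
  rw [abs_le] at h1 ⊢
  omega

lemma OK.inc_val (j : ℕ) (C : Z n) (k : Fin n) :
    ((ρ.reg k0 j C).inc k).1 = ρ.hh j (C + e k) - ρ.hh j C := by
  refine clamp_val fun l => ?_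
  have h1 := h.close (j := j) (u := ρ.X j (C + e k)) (u' := ρ.X j C) (fun l => by
    have a1 := (anc_eq_iff j _ _).1 (h.X_spec j (C + e k)) l
    have a2 := (anc_eq_iff j _ _).1 (h.X_spec j C) l
    have : (0:ℤ) < 3 ^ j := by positivity
    rw [Pi.add_apply, e_apply] at a1
    rw [Pi.sub_apply, abs_le, pow_succ]
    split_ifs at a1 <;> constructor <;> linarith [a1.1, a1.2, a2.1, a2.2]) l
  simp only [Pi.sub_apply, Reg.hh, Bd]
  omega

open Classical in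
lemma OK.V_succ (t : ℤ) : ρ.V k0 (t + 1) = ρ.V k0 t + if ρ.W k0 t then 1 else 0 := by
  unfold Reg.V
  split_ifs with hW
  · obtain ⟨i, hi, hc⟩ := hW
    rw [← Finset.card_insert_of_notMem (a := i) (by simp [hc])]
    congr 1
    ext i'
    simp only [mem_filter, mem_range, mem_insert]
    constructor
    · rintro ⟨h1, h2⟩
      by_cases h3 : ρ.col k0 i' = t
      · left; exact h.col_inj h1 hi (by rw [h3, hc])
      · right; exact ⟨h1, by omega⟩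
    · rintro (rfl | ⟨h1, h2⟩)
      · exact ⟨hi, by omega⟩
      · exact ⟨h1, by omega⟩
  · rw [add_zero]
    congr 1
    ext i'
    simp only [mem_filter, mem_range]
    refine and_congr_right fun h1 => ⟨fun h2 => ?_, fun h2 => by omega⟩
    have : ρ.col k0 i' ≠ t := fun h3 => hW ⟨i', h1, h3⟩
    omega

lemma OK.V_col {i : ℕ} (hi : i < ρ.M) : ρ.V k0 (ρ.col k0 i) = i := by
  unfold Reg.V
  conv_rhs => rw [← Finset.card_range i]
  congr 1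
  ext i'
  simp only [mem_filter, mem_range]
  constructor
  · rintro ⟨h1, h2⟩
    by_contra h3
    rcases (not_lt.1 h3).lt_or_eq with h4 | h4
    · have := h.mono i i' h4 h1; omega
    · subst h4; omega
  · intro h1; exact ⟨by omega, h.mono i' i h1 hi⟩

lemma OK.A_sub {i : ℕ} (hi : i < ρ.M) (k : Fin n) :
    0 ≤ anc ρ.a (ρ.ψ (ρ.v i)) k ∧ anc ρ.a (ρ.ψ (ρ.v i)) k < 3 ^ (ρ.K - ρ.a) := by
  have := (h.inP i hi).anc ρ.a (by have := h.aK; omega)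
  rw [zero_add] at this
  exact (sub_iff.1 this).2 k

lemma OK.V_zero : ρ.V k0 0 = 0 := by
  unfold Reg.V
  rw [Finset.card_eq_zero, Finset.filter_eq_empty_iff]
  intro i hi
  have := (h.A_sub (mem_range.1 hi) k0).1
  unfold Reg.col; omega

lemma OK.V_top : ρ.V k0 (3 ^ (ρ.K - ρ.a)) = ρ.M := by
  unfold Reg.V
  rw [Finset.filter_true_of_mem, Finset.card_range]
  intro i hi
  exact (h.A_sub (mem_range.1 hi) k0).2

open Classical in
lemma OK.done_iff (t : ℤ) : ρ.M ≤ ρ.V k0 (t + 1) ↔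
    ρ.M ≤ ρ.V k0 t ∨ (ρ.W k0 t ∧ (6 ^ n) ^ ρ.a ∣ ρ.V k0 t + 1) := by
  rw [h.V_succ]
  by_cases hW : ρ.W k0 t
  · obtain ⟨i, hi, rfl⟩ := hW
    rw [if_pos ⟨i, hi, rfl⟩, h.V_col hi]
    constructor
    · intro h1
      exact Or.inr ⟨⟨i, hi, rfl⟩, by rw [show i + 1 = ρ.M by omega]; exact dvd_rfl⟩
    · rintro (h1 | ⟨-, h1⟩)
      · omega
      · exact Nat.le_of_dvd (by omega) h1
  · simp [hW]

omit h in
lemma cl_top (C : Z n) : ρ.cl k0 ρ.a C = C k0 := by simp [Reg.cl]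

lemma OK.sr {j : ℕ} {C : Z n} (hC : Sub ρ.K j C) : (sys k0).SR (ρ.reg k0 j C) := by
  refine ⟨?_, ?_, ?_, ?_, ?_, ?_, ?_⟩
  · rintro (rfl : j = ρ.K)
    rw [hC.root]
    exact ⟨h.aK.le, fun k => ⟨rfl, by simp [Reg.reg]⟩⟩
  · rintro (rfl : j = ρ.a); simp [Reg.reg]
  · intro _ (h1 : C k0 = 0)
    have : ρ.cl k0 j C = 0 := by simp [Reg.cl, anc, h1]
    simp [Reg.reg, dg, this, h.V_zero]
  · rintro (rfl : j = ρ.a) (h1 : C k0 = 0)
    have : 0 < ρ.M := by unfold Reg.M; positivity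
    simp only [Reg.reg, cl_top, h1, h.V_zero]; omega
  · rintro (rfl : j = ρ.a) (h1 : C k0 + 1 = _)
    simp only [Reg.reg, cl_top]
    rw [← h.done_iff, h1, h.V_top]
  · rintro (rfl : j = ρ.a) ⟨i, hi, h1⟩ h2
    rw [cl_top] at h1
    refine ⟨rfl, i, hi, h1, fun k => ?_⟩
    by_cases hk : k = k0
    · rw [hk, ← h1]; rfl
    · rw [show C k = 0 from h2 k hk]; exact (h.A_sub hi k).1
  · rintro ⟨rfl, i, hi, h1, h2⟩
    by_cases hex : ∃ k i, i < ρ.M ∧ ρ.col k0 i = C k0 ∧ C k < anc ρ.a (ρ.ψ (ρ.v i)) k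
    · right
      obtain ⟨i', h3, h4, h5⟩ := hex.choose_spec
      refine ⟨hex.choose, fun h6 => ?_, by simp only [Reg.reg]; rw [dif_pos hex], fun h6 => ?_⟩
      · rw [h6, ← h4] at h5; exact lt_irrefl _ h5
      · have := (h.A_sub h3 hex.choose).2
        simp only [Reg.reg] at h6
        omega
    · left
      refine ⟨by simp only [Reg.reg]; rw [dif_neg hex], i, hi, le_rfl, funext fun k => ?_⟩
      have h3 : ¬ C k < anc ρ.a (ρ.ψ (ρ.v i)) k := fun h3 => hex ⟨k, i, hi, h1, h3⟩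
      have := h2 k
      omega

omit h in
lemma cl_par {j : ℕ} (hj : j < ρ.a) (C : Z n) : ρ.cl k0 (j + 1) (par C) = ρ.cl k0 j C := by
  unfold Reg.cl
  rw [← anc_succ', show ρ.a - (j + 1) + 1 = ρ.a - j by omega]

omit h in
lemma isSt.par {j : ℕ} {C : Z n} {i : ℕ} (hs : ρ.isSt j C i) (hj : j < ρ.a) :
    ρ.isSt (j + 1) (par C) i := ⟨hs.1, hj, by rw [anc_succ, hs.2.2]⟩

lemma OK.st_iff {j : ℕ} (hj : j < ρ.a) (C : Z n) : (ρ.reg k0 j C).st ↔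
    (ρ.reg k0 (j + 1) (par C)).st ∧ (ρ.reg k0 (j + 1) (par C)).ch = pos C := by
  simp only [Reg.reg, Nat.add_sub_cancel]
  constructor
  · rintro ⟨i, hi⟩
    exact ⟨⟨i, hi.par hj⟩, by rw [h.X_st (hi.par hj), hi.2.2]⟩
  · rintro ⟨⟨i, hi⟩, h2⟩
    rw [h.X_st hi] at h2
    exact ⟨i, hi.1, hj.le, eq_of_par_pos (by rw [← anc_succ]; exact hi.2.2) h2⟩

lemma OK.vr {j : ℕ} (C : Z n) (hj : j < ρ.K) :
    (sys k0).VR (pos C) (ρ.reg k0 j C) (ρ.reg k0 (j + 1) (par C)) := by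
  refine ⟨fun k => ⟨?_, ?_⟩, ?_, ?_, fun h1 => ⟨?_, ?_, ?_, h.st_iff (not_le.1 h1) C, ?_⟩⟩
  · simp only [Reg.reg, par, pos_zero_iff]; omega
  · simp only [Reg.reg, par, pos_two_iff, pow_sub_succ hj]; omega
  · simp only [Reg.reg]; omega
  · simp only [Reg.reg]; omega
  · have hj : j < ρ.a := not_le.1 h1
    simp only [Reg.reg, par, pos_two_iff, pow_sub_succ hj]
    constructor
    · rintro ⟨m, h1⟩
      rw [mul_assoc] at h1
      exact ⟨⟨m, by omega⟩, by omega⟩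
    · rintro ⟨⟨m, h1⟩, h2⟩
      exact ⟨m, by rw [mul_assoc]; omega⟩
  · simp only [Reg.reg, cl_par (not_le.1 h1)]
  · simp only [Reg.reg, cl_par (not_le.1 h1), dg]
    rw [pow_succ_dvd_iff (by positivity), and_assoc]
  · rintro ⟨i, hi⟩
    have hj : j < ρ.a := not_le.1 h1
    rw [h.d_val]
    funext k
    have : (ρ.reg k0 j C).s = dg n i j := by simp only [Reg.reg]; rw [hi.cl, h.V_col hi.1]
    rw [this, ← h.dig i hi.1 j hj k]
    simp only [Pi.sub_apply, Pi.smul_apply, smul_eq_mul, Reg.hh, h.X_st hi, h.X_st (hi.par hj)]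
    rw [pow_succ (6:ℤ) j, ← Int.ediv_ediv_of_nonneg (by positivity)]
    omega

omit h in
lemma cl_add_ne {j : ℕ} (C : Z n) {k : Fin n} (hk : k ≠ k0) :
    ρ.cl k0 j (C + e k) = ρ.cl k0 j C := by
  simp [Reg.cl, anc, e_ne hk.symm]

omit h in
lemma cl_add_dvd {j : ℕ} {C : Z n} (hd : (3:ℤ) ^ (ρ.a - j) ∣ C k0 + 1) :
    ρ.cl k0 j (C + e k0) = ρ.cl k0 j C + 1 := by
  obtain ⟨m, hm⟩ := hd
  have hp : (0:ℤ) < 3 ^ (ρ.a - j) := by positivity
  simp only [Reg.cl, anc, Pi.add_apply, e_same]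
  rw [hm, Int.mul_ediv_cancel_left _ hp.ne', show C k0 = (3 ^ (ρ.a - j) - 1) +
    (m - 1) * 3 ^ (ρ.a - j) by linarith, Int.add_mul_ediv_right _ _ hp.ne',
    Int.ediv_eq_zero_of_lt (by omega) (by omega)]
  ring

omit h in
lemma cl_add_not {j : ℕ} {C : Z n} (hd : ¬ (3:ℤ) ^ (ρ.a - j) ∣ C k0 + 1) :
    ρ.cl k0 j (C + e k0) = ρ.cl k0 j C := by
  have hp : (0:ℤ) < 3 ^ (ρ.a - j) := by positivity
  simp only [Reg.cl, anc, Pi.add_apply, e_same]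
  have h1 := Int.mul_ediv_add_emod (C k0) (3 ^ (ρ.a - j))
  have h2 := Int.emod_nonneg (C k0) hp.ne'
  have h3 := Int.emod_lt_of_pos (C k0) hp
  have h4 : C k0 % 3 ^ (ρ.a - j) + 1 ≠ 3 ^ (ρ.a - j) := fun h4 =>
    hd ⟨C k0 / 3 ^ (ρ.a - j) + 1, by rw [mul_add]; omega⟩
  rw [show C k0 + 1 = (C k0 % 3 ^ (ρ.a - j) + 1) + (C k0 / 3 ^ (ρ.a - j)) * 3 ^ (ρ.a - j) by
    linarith, Int.add_mul_ediv_right _ _ hp.ne', Int.ediv_eq_zero_of_lt (by omega) (by omega),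
    zero_add]

lemma OK.hr (j : ℕ) (C : Z n) (k : Fin n) :
    (sys k0).HR k (pos C) (ρ.reg k0 j C) (ρ.reg k0 j (C + e k)) (ρ.reg k0 (j + 1) (par C)) := by
  intro _ _
  refine ⟨Iff.rfl, ?_, fun _ => ?_, ?_, ?_⟩
  · rw [h.inc_val, h.d_val, h.d_val, h.inc_val]
    split_ifs with h1
    · rw [par_add_e_of_eq h1, smul_sub]; abel
    · rw [par_add_e_of_ne h1]; abel
  · simp only [Reg.reg, dg]
    by_cases hk : k = k0
    · subst hk
      by_cases hd : (3:ℤ) ^ (ρ.a - j) ∣ C k + 1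
      · rw [cl_add_dvd hd, h.V_succ]
        by_cases hW : ρ.W k (ρ.cl k j C)
        · simp only [hW, hd, true_and, if_true]
          rw [Nat.succ_div]
          split_ifs
          · rw [Nat.mod_add_mod]
          · rfl
        · simp [hW]
      · rw [cl_add_not hd]; simp [hd]
    · rw [cl_add_ne C hk]; simp [hk]
  · rintro (rfl : j = ρ.a) rfl
    simp only [Reg.reg, cl_top, Pi.add_apply, e_same]
    exact h.done_iff _
  · rintro ⟨rfl, i, hi, h1, h2⟩ h3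
    simp only [Reg.reg] at h3
    split_ifs at h3 with hex
    obtain ⟨i', h4, h5, h6⟩ := hex.choose_spec
    rw [Option.some.inj h3] at h6
    obtain rfl : i' = i := h.col_inj h4 hi (by rw [h5, h1])
    have hk : k ≠ k0 := by
      rintro rfl; rw [← h5] at h6; exact lt_irrefl _ h6
    refine ⟨rfl, i', hi, by simp [h1, e_ne hk.symm], fun l => ?_⟩
    have := h2 l
    rw [Pi.add_apply, e_apply]
    split_ifs with hl
    · subst hl; omega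
    · omega

lemma OK.ps {j : ℕ} {C : Z n} (hj : j + 1 < ρ.a) (hp : pos C = ctr)
    (hs : ∀ i, i < ρ.M → anc j (ρ.ψ (ρ.v i)) ≠ C) : (sys k0).PS (ρ.reg k0 (j + 1) (par C)) := by
  refine ⟨not_le.2 hj, fun h1 => ?_⟩
  obtain ⟨i, hi⟩ := (h.st_iff (j := j) (by omega) C).2 (by rw [hp]; exact h1)
  exact hs i hi.1 hi.2.2

lemma OK.low (c : Z n) : ¬ (ρ.reg k0 0 c).hi ∧ ((ρ.reg k0 0 c).cin ↔ (ρ.reg k0 0 c).W) := by
  have := h.a1
  refine ⟨by simp only [Reg.reg]; omega, by simp [Reg.reg]⟩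

lemma OK.inc0 (c : Z n) (k : Fin n) :
    ((ρ.reg k0 0 c).inc k).1 = ρ.X 0 (c + e k) - ρ.X 0 c := by
  rw [h.inc_val]; funext l; simp [Reg.hh]

end Reg

end Pool.Agent.MP_c4ca5b_lc
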