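import Pool.Agent.MP_c4ca5b_lc.Encode

namespace Pool.Agent.MP_c4ca5b_lc

open Finset

variable {n : ℕ}

def Bd (n : ℕ) : ℤ := 3 * Mc n + C1 n + 7

lemma Bd_ge (n : ℕ) : Rw n ≤ Bd n := by
  unfold Rw Bd; have := Mc_pos n; omega

lemma Bd_pos (n : ℕ) : 0 ≤ Bd n := le_trans (by have := Rw_pos n; omega) (Bd_ge n)

abbrev Bx (n : ℕ) := {v : Z n // nb v (Bd n)}

instance : Finite (Bx n) := (finite_nb (Bd n)).to_subtype

instance : Inhabited (Bx n) := ⟨⟨0, nb_zero (Bd_pos n)⟩⟩

open Classical in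
noncomputable def clamp (v : Z n) : Bx n := if h : nb v (Bd n) then ⟨v, h⟩ else default

lemma clamp_val {v : Z n} (h : nb v (Bd n)) : (clamp v).1 = v := by
  unfold clamp; rw [dif_pos h]

structure Lam (n : ℕ) : Type where
  sp : Prop
  hi : Prop
  top : Prop
  G : Prop
  W : Prop
  cin : Prop
  done : Prop
  g : Prop
  st : Prop
  Fm : Fin n → Prop
  Fp : Fin n → Prop
  d : Bx n
  inc : Fin n → Bx n
  s : Fin (6 ^ n)
  ptr : Option (Fin n)
  ch : Pos n

instance : Finite (Lam n) :=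
  Finite.of_injective (fun m : Lam n => (m.sp, m.hi, m.top, m.G, m.W, m.cin, m.done, m.g, m.st,
    m.Fm, m.Fp, m.d, m.inc, m.s, m.ptr, m.ch)) (by
    rintro ⟨⟩ ⟨⟩ h; simp only [Prod.mk.injEq] at h; simp only [Lam.mk.injEq]; exact h)

instance : Inhabited (Lam n) :=
  ⟨⟨True, True, True, True, True, True, True, True, True, fun _ => True, fun _ => True,
    default, fun _ => default, ⟨0, by positivity⟩, none, 0⟩⟩

def emb (s : Fin (6 ^ n)) : Z n := fun k => ((finFunctionFinEquiv.symm s k : Fin 6) : ℕ)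

open Classical in
def sys (k0 : Fin n) : Sys n (Lam n) where
  sp l := l.sp
  SR l := (l.sp → l.hi ∧ ∀ k, l.Fm k ∧ l.Fp k) ∧ (l.top → l.G) ∧ (¬ l.hi → l.Fm k0 → l.s.val = 0) ∧
    (l.top → l.Fm k0 → ¬ l.done) ∧ (l.top → l.Fp k0 → l.done ∨ l.cin) ∧
    (l.top → l.W → (∀ k, k ≠ k0 → l.Fm k) → l.g) ∧
    (l.g → (l.ptr = none ∧ l.st) ∨ ∃ k, k ≠ k0 ∧ l.ptr = some k ∧ ¬ l.Fp k)
  VR π l m := (∀ k, (l.Fm k ↔ m.Fm k ∧ π k = 0) ∧ (l.Fp k ↔ m.Fp k ∧ π k = 2)) ∧
    (l.hi → m.hi) ∧ (m.hi → ¬ l.hi → m.top) ∧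
    (¬ l.hi → (l.G ↔ m.G ∧ π k0 = 2) ∧ (l.W ↔ m.W) ∧ (m.cin ↔ l.cin ∧ l.s.val + 1 = 6 ^ n) ∧
      (l.st ↔ m.st ∧ m.ch = π) ∧ (l.st → l.d.1 = emb l.s))
  PS m := ¬ m.hi ∧ ¬ (m.st ∧ m.ch = ctr)
  HR k π l l' m := ¬ l.Fp k → ¬ l'.Fm k → (l.hi ↔ l'.hi) ∧
    ((l.inc k).1 = l'.d.1 - l.d.1 + (if π k = 2 then (6 : ℤ) • (m.inc k).1 else 0)) ∧
    (¬ l.hi → l'.s.val = if k = k0 ∧ l.G ∧ l.cin then (l.s.val + 1) % 6 ^ n else l.s.val) ∧
    (l.top → k = k0 → (l'.done ↔ l.done ∨ l.cin)) ∧
    (l.g → l.ptr = some k → l'.g)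

structure Base (K : ℕ) (lam : ℕ → Z n → Lam n) (x : Z n → Z n) : Prop where
  low : ∀ c, Sub K 0 c → ¬ (lam 0 c).hi ∧ ((lam 0 c).cin ↔ (lam 0 c).W)
  inc : ∀ c k, Sub K 0 c → Sub K 0 (c + e k) → ¬ (lam 0 c).Fp k → ¬ (lam 0 (c + e k)).Fm k →
    ((lam 0 c).inc k).1 = x (c + e k) - x c

/-! ### The carpet lemma -/

def Fr (T : ℕ → Z n → Prop) (h : ℕ) (C : Z n) : Prop := ∀ i, i < h → ¬ T i (anc i C)

lemma fr_of_dvd {T : ℕ → Z n → Prop} (hT : ∀ i D, T i D → pos D = ctr) {h : ℕ} {C : Z n}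
    {l : Fin n} (a : ℤ) (hl : C l = 3 ^ h * a) : Fr T h C := by
  intro i hi hT'
  have := (pos_eq_ctr_iff _).1 (hT _ _ hT') l
  simp only [anc] at this
  rw [hl, show h = i + (h - i - 1) + 1 by omega, pow_succ, pow_add, mul_assoc, mul_assoc,
    Int.mul_ediv_cancel_left _ (by positivity)] at this
  have h2 : 3 ^ (h - i - 1) * (3 * a) = 3 * (3 ^ (h - i - 1) * a) := by ring
  omega

lemma anc_smul (h : ℕ) (A : Z n) : anc h (((3:ℤ) ^ h) • A) = A := by
  have := anc_add_smul h 0 A
  rw [zero_add] at this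
  rw [this]; funext k; simp [anc]

lemma anc_smul_sub (h : ℕ) (A : Z n) (k : Fin n) :
    anc h (((3:ℤ) ^ h) • (A + e k) - e k) = A := by
  rw [anc_eq_iff]
  intro l
  have : (0:ℤ) < 3 ^ h := by positivity
  simp only [Pi.sub_apply, Pi.smul_apply, Pi.add_apply, smul_eq_mul, e_apply]
  split_ifs <;> constructor <;> linarith

lemma carpet [Nontrivial (Fin n)] {α : Type} {T : ℕ → Z n → Prop}
    (hT : ∀ i D, T i D → pos D = ctr) (F : Z n → α) :
    ∀ (h : ℕ) (A : Z n), (∀ C k, anc h C = A → anc h (C + e k) = A → Fr T h C →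
      Fr T h (C + e k) → F C = F (C + e k)) →
      ∀ C, anc h C = A → Fr T h C → F C = F (((3:ℤ) ^ h) • A) := by
  intro h
  induction h with
  | zero => intro A _ C hC _; rw [anc_zero] at hC; simp [hC]
  | succ h ih =>
    intro A H
    have up : ∀ C A', anc h C = A' → ¬ T h A' → Fr T h C → Fr T (h + 1) C := by
      intro C A' h1 h2 h3 i hi
      rcases Nat.lt_succ_iff_lt_or_eq.1 hi with hi | rfl
      · exact h3 i hi
      · rw [h1]; exact h2
    have inner : ∀ A', par A' = A → ¬ T h A' → ∀ C, anc h C = A' → Fr T h C →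
        F C = F (((3:ℤ) ^ h) • A') := by
      intro A' hA hT'
      refine ih A' fun C k h1 h2 h3 h4 => ?_
      exact H C k (by rw [anc_succ, h1, hA]) (by rw [anc_succ, h2, hA]) (up _ _ h1 hT' h3)
        (up _ _ h2 hT' h4)
    have link : ∀ A' k, par A' = A → par (A' + e k) = A → ¬ T h A' → ¬ T h (A' + e k) →
        F (((3:ℤ) ^ h) • A') = F (((3:ℤ) ^ h) • (A' + e k)) := by
      intro A' k h1 h2 h3 h4
      obtain ⟨l, hl⟩ := exists_ne k
      have f1 : Fr T h (((3:ℤ) ^ h) • (A' + e k) - e k) :=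
        fr_of_dvd hT (l := l) (A' l) (by simp [e_ne hl])
      have f2 : Fr T h (((3:ℤ) ^ h) • (A' + e k)) :=
        fr_of_dvd hT (l := l) (A' l) (by simp [e_ne hl])
      rw [← inner A' h1 h3 _ (anc_smul_sub h A' k) f1]
      have := H (((3:ℤ) ^ h) • (A' + e k) - e k) k (by rw [anc_succ, anc_smul_sub, h1])
        (by rw [sub_add_cancel, anc_succ, anc_smul, h2]) (up _ _ (anc_smul_sub h A' k) h3 f1)
        (by rw [sub_add_cancel]; exact up _ _ (anc_smul h _) h4 f2)
      rwa [sub_add_cancel] at this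
    have main : ∀ N, ∀ y : Z n, l1 y = N → (∀ k, 0 ≤ y k ∧ y k < 3) → ¬ T h ((3:ℤ) • A + y) →
        F (((3:ℤ) ^ h) • ((3:ℤ) • A + y)) = F (((3:ℤ) ^ h) • ((3:ℤ) • A)) := by
      intro N
      induction N with
      | zero =>
        intro y hN _ _
        have : y = 0 := by
          by_contra hne
          obtain ⟨k, ⟨y', -, h2⟩ | ⟨y', -, h2⟩⟩ := l1_step y hne <;> omega
        simp [this]
      | succ N ihN =>
        intro y hN hy hTy
        obtain ⟨k, hk, hk2⟩ : ∃ k, 0 < y k ∧ ¬ ∀ l, (y - e k) l = 1 := by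
          obtain ⟨k, hk⟩ : ∃ k, y k ≠ 0 := by
            by_contra h'; push Not at h'
            have : y = 0 := funext h'
            rw [this] at hN; simp [l1] at hN
          by_cases h1 : ∀ l, (y - e k) l = 1
          · obtain ⟨l, hl⟩ := exists_ne k
            have a := h1 l
            have b := h1 k
            simp only [Pi.sub_apply, e_ne hl, e_same] at a b
            refine ⟨l, by omega, fun h2 => ?_⟩
            have := h2 k
            simp only [Pi.sub_apply, e_ne hl.symm] at this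
            omega
          · exact ⟨k, by have := hy k; omega, h1⟩
        have hy' : ∀ l, 0 ≤ (y - e k) l ∧ (y - e k) l < 3 := fun l => by
          have := hy l
          rw [Pi.sub_apply, e_apply]; split_ifs with h
          · subst h; omega
          · omega
        have hpar : ∀ y : Z n, (∀ k, 0 ≤ y k ∧ y k < 3) → par ((3:ℤ) • A + y) = A := by
          intro y hy; funext l
          have := hy l
          simp only [par, Pi.add_apply, Pi.smul_apply, smul_eq_mul]; omega
        have hT2 : ¬ T h ((3:ℤ) • A + (y - e k)) := by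
          intro h3
          apply hk2
          intro l
          have a := (pos_eq_ctr_iff _).1 (hT _ _ h3) l
          have b := hy' l
          simp only [Pi.add_apply, Pi.smul_apply, smul_eq_mul] at a
          omega
        have hl : l1 (y - e k) = N := by
          unfold l1 at hN ⊢
          rw [← Finset.add_sum_erase _ _ (Finset.mem_univ k)] at hN ⊢
          have : ∑ x ∈ univ.erase k, ((y - e k : Z n) x).natAbs = ∑ x ∈ univ.erase k, (y x).natAbs :=
            Finset.sum_congr rfl (fun l hl => by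
              simp [e_ne (Finset.ne_of_mem_erase hl)])
          rw [this]; simp only [Pi.sub_apply, e_same]; omega
        rw [← ihN (y - e k) hl hy' hT2]
        have e1 : (3:ℤ) • A + (y - e k) + e k = (3:ℤ) • A + y := by abel
        have := link ((3:ℤ) • A + (y - e k)) k (hpar _ hy') (by rw [e1]; exact hpar _ hy) hT2
          (by rw [e1]; exact hTy)
        rw [this, e1]
    intro C hC hF
    have h1 : ¬ T h (anc h C) := hF h (Nat.lt_succ_self h)
    have h2 : par (anc h C) = A := by rw [← anc_succ, hC]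
    rw [inner _ h2 h1 C rfl (fun i hi => hF i (Nat.lt_succ_of_lt hi))]
    let y : Z n := fun k => anc h C k % 3
    have h3 : anc h C = (3:ℤ) • A + y := by
      funext k; rw [← h2]
      simp only [par, Pi.add_apply, Pi.smul_apply, smul_eq_mul, y]; omega
    rw [h3, main _ y rfl (fun k => by simp only [y]; omega) (h3 ▸ h1), smul_smul, pow_succ]

/-! ### Arithmetic -/

lemma counter_step (P : ℕ) (s s' : ℕ → ℕ) (W : Prop) [Decidable W] (c : ℕ → Prop)
    [DecidablePred c] (hs : ∀ j, s j < P) (hc0 : c 0 ↔ W)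
    (a : ℕ) (hc : ∀ j, j < a → (c (j + 1) ↔ c j ∧ s j + 1 = P))
    (hs' : ∀ j, j < a → s' j = if c j then (s j + 1) % P else s j) :
    ∑ j ∈ range a, s' j * P ^ j + (if c a then P ^ a else 0) =
      ∑ j ∈ range a, s j * P ^ j + (if W then 1 else 0) := by
  induction a with
  | zero => simp [hc0]
  | succ a ih =>
    have ih := ih (fun j hj => hc j (by omega)) (fun j hj => hs' j (by omega))
    rw [sum_range_succ, sum_range_succ, hs' a (by omega)]
    have h1 := hc a (by omega)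
    by_cases h2 : c a
    · by_cases h3 : s a + 1 = P
      · have : c (a + 1) := h1.2 ⟨h2, h3⟩
        simp only [h2, this, if_true] at ih ⊢
        rw [h3, Nat.mod_self, pow_succ]
        have : P ^ a * P = s a * P ^ a + P ^ a := by rw [← h3]; ring
        omega
      · have : ¬ c (a + 1) := fun h => h3 (h1.1 h).2
        simp only [h2, this, if_true, if_false] at ih ⊢
        rw [Nat.mod_eq_of_lt (by have := hs a; omega), add_mul]
        omega
    · have : ¬ c (a + 1) := fun h => h2 (h1.1 h).1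
      simp only [h2, this, if_false] at ih ⊢
      omega

lemma digits_lt (P : ℕ) (s : ℕ → ℕ) (hs : ∀ j, s j < P) (a : ℕ) :
    ∑ j ∈ range a, s j * P ^ j < P ^ a := by
  induction a with
  | zero => simp
  | succ a ih =>
    rw [sum_range_succ, pow_succ]
    have := hs a
    have h2 : (s a + 1) * P ^ a ≤ P * P ^ a := Nat.mul_le_mul_right _ this
    nlinarith

lemma digits_inj (P : ℕ) (s s' : ℕ → ℕ) (hs : ∀ j, s j < P) (hs' : ∀ j, s' j < P) (a : ℕ)
    (h : ∑ j ∈ range a, s j * P ^ j = ∑ j ∈ range a, s' j * P ^ j) : ∀ j, j < a → s j = s' j := by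
  induction a with
  | zero => simp
  | succ a ih =>
    rw [sum_range_succ, sum_range_succ] at h
    have h1 := digits_lt P s hs a
    have h2 := digits_lt P s' hs' a
    have h3 : s a = s' a := by
      rcases lt_trichotomy (s a) (s' a) with h4 | h4 | h4
      · have : (s a + 1) * P ^ a ≤ s' a * P ^ a := Nat.mul_le_mul_right _ h4
        rw [add_mul, one_mul] at this; omega
      · exact h4
      · have : (s' a + 1) * P ^ a ≤ s a * P ^ a := Nat.mul_le_mul_right _ h4
        rw [add_mul, one_mul] at this; omega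
    rw [h3] at h
    intro j hj
    rcases Nat.lt_succ_iff_lt_or_eq.1 hj with hj | rfl
    · exact ih (by omega) j hj
    · exact h3

lemma six_expand (r : ℤ) (a : ℕ) :
    ∑ j ∈ range a, 6 ^ j * (r / 6 ^ j % 6) = r - 6 ^ a * (r / 6 ^ a) := by
  induction a with
  | zero => simp
  | succ a ih =>
    rw [sum_range_succ, ih, pow_succ, ← Int.ediv_ediv_of_nonneg (by positivity)]
    have := Int.mul_ediv_add_emod (r / 6 ^ a) 6
    have h2 : r / 6 ^ a % 6 = r / 6 ^ a - 6 * (r / 6 ^ a / 6) := by linarith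
    rw [h2]; ring

/-- the digit vector of `r` at level `j` -/
def dig (r : Z n) (j : ℕ) : Fin (6 ^ n) :=
  finFunctionFinEquiv fun k => ⟨(r k / 6 ^ j % 6).toNat, by omega⟩

lemma emb_dig (r : Z n) (j : ℕ) (k : Fin n) : emb (dig r j) k = r k / 6 ^ j % 6 := by
  simp only [emb, dig, Equiv.symm_apply_apply]
  omega

lemma emb_bound (s : Fin (6 ^ n)) (k : Fin n) : 0 ≤ emb s k ∧ emb s k < 6 := by
  have := (finFunctionFinEquiv.symm s k).2
  simp only [emb]; omega

end Pool.Agent.MP_c4ca5b_lc
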