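import Pool.Agent.MP_c4ca5b_lc.Rules

set_option linter.unusedSectionVars false

namespace Pool.Agent.MP_c4ca5b_lc

open Finset

variable {n : ℕ}

def Tj (lam : ℕ → Z n → Lam n) (j : ℕ) : ℕ → Z n → Prop :=
  fun i D => (lam (j + i) D).sp ∧ pos D = ctr

def Free (K : ℕ) (lam : ℕ → Z n → Lam n) (j : ℕ) (C : Z n) : Prop := Fr (Tj lam j) (K - j) C

lemma Tj_ctr (lam : ℕ → Z n → Lam n) (j : ℕ) : ∀ i D, Tj lam j i D → pos D = ctr :=
  fun _ _ h => h.2

variable {K : ℕ} {lam : ℕ → Z n → Lam n} {x : Z n → Z n} {k0 : Fin n}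

lemma Free.par {j : ℕ} {C : Z n} (h : Free K lam j C) : Free K lam (j + 1) (par C) := by
  intro i hi hT
  refine h (i + 1) (by omega) ?_
  rw [anc_succ']
  unfold Tj at hT ⊢
  rwa [show j + (i + 1) = j + 1 + i by omega]

lemma Free.anc {j : ℕ} {C : Z n} (h : Free K lam j C) (i : ℕ) : Free K lam (j + i) (anc i C) := by
  induction i with
  | zero => simpa using h
  | succ i ih => rw [anc_succ]; exact ih.par

lemma free_split {j h : ℕ} {C : Z n} (h1 : Fr (Tj lam j) h C)
    (h2 : Free K lam (j + h) (anc h C)) : Free K lam j C := by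
  intro i hi hT
  rcases lt_or_ge i h with h3 | h3
  · exact h1 i h3 hT
  · obtain ⟨i', rfl⟩ := Nat.exists_eq_add_of_le h3
    refine h2 i' (by omega) ?_
    rw [← anc_add]
    unfold Tj at hT ⊢
    rwa [add_assoc]

lemma free_of {j : ℕ} {C : Z n} (h1 : ¬ (lam j C).sp) (h2 : Free K lam (j + 1) (par C)) :
    Free K lam j C := by
  refine free_split (h := 1) ?_ (by rw [anc_succ, anc_zero]; exact h2)
  intro i hi hT
  obtain rfl : i = 0 := by omega
  exact h1 (by simpa using hT.1)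

lemma Free.fr {j h : ℕ} {C : Z n} (h1 : Free K lam j C) (hh : j + h ≤ K) : Fr (Tj lam j) h C :=
  fun i hi => h1 i (by omega)

lemma free_root (C : Z n) : Free K lam K C := fun i hi => by omega

lemma Sub.anc {j : ℕ} {C : Z n} (h : Sub K j C) (i : ℕ) (hi : j + i ≤ K) :
    Sub K (j + i) (anc i C) := by
  refine ⟨hi, ?_⟩
  rw [← anc_add, show i + (K - (j + i)) = K - j by omega]; exact h.2

lemma sub_of_anc {j i : ℕ} {C : Z n} (h : Sub K (j + i) (anc i C)) : Sub K j C := by
  have h1 := h.1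
  refine ⟨by omega, ?_⟩
  rw [show K - j = i + (K - (j + i)) by omega, anc_add]; exact h.2

lemma Free.not_sp (hP : (sys k0).Pyr K lam) {j : ℕ} {C : Z n} (h : Free K lam j C) (hj : j < K)
    (hC : Sub K j C) : ¬ (lam j C).sp := by
  intro hs
  refine h 0 (by omega) ⟨by simpa using hs, ?_⟩
  rw [anc_zero]; exact (hP.spc j C hj hC hs).1

lemma down_ind {Q : ℕ → Z n → Prop} {a : ℕ} (ha : a ≤ K)
    (h0 : ∀ A, Sub K a A → Free K lam a A → Q a A)
    (hs : ∀ j C, j < a → Sub K j C → Free K lam j C → Q (j + 1) (par C) → Q j C) :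
    ∀ j C, j ≤ a → Sub K j C → Free K lam j C → Q j C := by
  have : ∀ d j C, j + d = a → Sub K j C → Free K lam j C → Q j C := by
    intro d
    induction d with
    | zero => intro j C hj; obtain rfl : j = a := hj; exact h0 C
    | succ d ih =>
      intro j C hj h1 h2
      exact hs j C (by omega) h1 h2 (ih (j + 1) _ (by omega) (h1.par (by omega)) h2.par)
  intro j C hj
  exact this (a - j) j C (by omega)

lemma pow_sub_succ {K j : ℕ} (hj : j < K) : (3:ℤ) ^ (K - j) = 3 * 3 ^ (K - (j + 1)) := by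
  rw [show K - j = K - (j + 1) + 1 by omega, pow_succ']

lemma flag_m (hP : (sys k0).Pyr K lam) (k : Fin n) :
    ∀ j C, j ≤ K → Sub K j C → Free K lam j C →
      ((lam j C).Fm k ↔ (lam K 0).Fm k ∧ C k = 0) := by
  refine down_ind le_rfl (fun A hA _ => by rw [hA.root]; simp) ?_
  intro j C hj hC hF ih
  rw [((hP.vr j C hj hC (hF.not_sp hP hj hC)).1 k).1, ih, pos_zero_iff]
  simp only [par]
  constructor
  · rintro ⟨⟨h1, h2⟩, h3⟩; exact ⟨h1, by omega⟩
  · rintro ⟨h1, h2⟩; exact ⟨⟨h1, by omega⟩, by omega⟩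

lemma flag_p (hP : (sys k0).Pyr K lam) (k : Fin n) :
    ∀ j C, j ≤ K → Sub K j C → Free K lam j C →
      ((lam j C).Fp k ↔ (lam K 0).Fp k ∧ C k + 1 = 3 ^ (K - j)) := by
  refine down_ind le_rfl (fun A hA _ => by rw [hA.root]; simp) ?_
  intro j C hj hC hF ih
  rw [((hP.vr j C hj hC (hF.not_sp hP hj hC)).1 k).2, ih, pos_two_iff, pow_sub_succ hj]
  simp only [par]
  constructor
  · rintro ⟨⟨h1, h2⟩, h3⟩; exact ⟨h1, by omega⟩
  · rintro ⟨h1, h2⟩; exact ⟨⟨h1, by omega⟩, by omega⟩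

lemma active (hP : (sys k0).Pyr K lam) {j : ℕ} {C : Z n} {k : Fin n} (hC : Sub K j C)
    (hC' : Sub K j (C + e k)) (hF : Free K lam j C) (hF' : Free K lam j (C + e k)) :
    ¬ (lam j C).Fp k ∧ ¬ (lam j (C + e k)).Fm k := by
  rw [flag_p hP k j C hC.1 hC hF, flag_m hP k j _ hC.1 hC' hF']
  have h1 := (sub_iff.1 hC).2 k
  have h2 := (sub_iff.1 hC').2 k
  simp only [Pi.add_apply, e_same] at h2 ⊢
  constructor <;> rintro ⟨-, h⟩ <;> omega

lemma lt_of_pair {j : ℕ} {C : Z n} {k : Fin n} (hC : Sub K j C) (hC' : Sub K j (C + e k)) :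
    j < K := by
  rcases hC.1.lt_or_eq with h | rfl
  · exact h
  · have h1 := congrFun hC'.root k
    rw [hC.root] at h1; simp at h1

open Classical in
lemma hrel (hP : (sys k0).Pyr K lam) {j : ℕ} {C : Z n} {k : Fin n} (hC : Sub K j C)
    (hC' : Sub K j (C + e k)) (hF : Free K lam j C) (hF' : Free K lam j (C + e k)) :
    ((lam j C).hi ↔ (lam j (C + e k)).hi) ∧
    (((lam j C).inc k).1 = (lam j (C + e k)).d.1 - (lam j C).d.1 +
      (if pos C k = 2 then (6 : ℤ) • ((lam (j + 1) (par C)).inc k).1 else 0)) ∧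
    (¬ (lam j C).hi → (lam j (C + e k)).s.val = if k = k0 ∧ (lam j C).G ∧ (lam j C).cin then
      ((lam j C).s.val + 1) % 6 ^ n else (lam j C).s.val) ∧
    ((lam j C).top → k = k0 → ((lam j (C + e k)).done ↔ (lam j C).done ∨ (lam j C).cin)) ∧
    ((lam j C).g → (lam j C).ptr = some k → (lam j (C + e k)).g) := by
  have hj := lt_of_pair hC hC'
  have ha := active hP hC hC' hF hF'
  exact hP.hr j C k hj hC hC' (hF.not_sp hP hj hC) ha.1 ha.2

def Hs (lam : ℕ → Z n → Lam n) (a : ℕ) (c : Z n) : Z n :=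
  ∑ j ∈ range a, ((6 : ℤ) ^ j) • (lam j (anc j c)).d.1

lemma tele (hP : (sys k0).Pyr K lam) (hB : Base K lam x) {c : Z n} {k : Fin n} (hC : Sub K 0 c)
    (hC' : Sub K 0 (c + e k)) (hF : Free K lam 0 c) (hF' : Free K lam 0 (c + e k)) :
    ∀ a, a ≤ K → (anc a (c + e k) = anc a c ∧
        x (c + e k) - x c = Hs lam a (c + e k) - Hs lam a c) ∨
      (anc a (c + e k) = anc a c + e k ∧ x (c + e k) - x c = Hs lam a (c + e k) - Hs lam a c +
        ((6 : ℤ) ^ a) • ((lam a (anc a c)).inc k).1) := by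
  intro a
  induction a with
  | zero =>
    intro _
    right
    have ha := active hP hC hC' hF hF'
    simp [Hs, hB.inc c k hC hC' ha.1 ha.2]
  | succ a ih =>
    intro ha
    rcases ih (by omega) with ⟨h1, h2⟩ | ⟨h1, h2⟩
    · left
      refine ⟨by rw [anc_succ, anc_succ, h1], ?_⟩
      simp only [Hs, sum_range_succ] at h2 ⊢
      rw [h2, h1]; abel
    · have s1 := hC.anc a (by omega)
      have s2 := hC'.anc a (by omega)
      have f1 := hF.anc a
      have f2 := hF'.anc a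
      rw [zero_add] at s1 s2 f1 f2
      rw [h1] at s2 f2
      have hr := (hrel hP s1 s2 f1 f2).2.1
      by_cases h3 : pos (anc a c) k = 2
      · right
        rw [if_pos h3] at hr
        refine ⟨by rw [anc_succ, anc_succ, h1, par_add_e_of_eq h3], ?_⟩
        simp only [Hs, sum_range_succ] at h2 ⊢
        rw [h2, h1, hr, anc_succ, pow_succ, mul_smul, smul_add, smul_sub]; abel
      · left
        rw [if_neg h3] at hr
        refine ⟨by rw [anc_succ, anc_succ, h1, par_add_e_of_ne h3], ?_⟩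
        simp only [Hs, sum_range_succ] at h2 ⊢
        rw [h2, h1, hr, add_zero, smul_sub]; abel

lemma rigid [Nontrivial (Fin n)] (hP : (sys k0).Pyr K lam) (hB : Base K lam x) {a : ℕ}
    (ha : a ≤ K) {c : Z n} (hC : Sub K 0 c) (hF : Free K lam 0 c) (k : Fin n) :
    (6 : ℤ) ^ a ∣ (x c - Hs lam a c) k - (x 0 - Hs lam a 0) k := by
  have := carpet (Tj_ctr lam 0) (fun c => fun k => (x c - Hs lam a c) k % 6 ^ a) K 0
    (fun C l h1 h2 h3 h4 => ?_) c (by simpa using hC.2) (by simpa [Free] using hF)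
  · have h1 := congrFun this k
    rw [smul_zero] at h1
    exact Int.ModEq.dvd h1.symm
  · have s1 : Sub K 0 C := ⟨by omega, by simpa using h1⟩
    have s2 : Sub K 0 (C + e l) := ⟨by omega, by simpa using h2⟩
    funext k
    rcases tele hP hB s1 s2 (by simpa [Free] using h3) (by simpa [Free] using h4) a ha with
      ⟨-, h5⟩ | ⟨-, h5⟩
    · have := congrFun h5 k
      simp only [Pi.sub_apply] at this ⊢
      congr 1; linarith
    · have := congrFun h5 k
      simp only [Pi.sub_apply, Pi.add_apply, Pi.smul_apply, smul_eq_mul] at this ⊢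
      rw [show x (C + e l) k - Hs lam a (C + e l) k = x C k - Hs lam a C k +
        6 ^ a * ((lam a (anc a C)).inc l).1 k by linarith, Int.add_mul_emod_self_left]

lemma sub_zero' {j : ℕ} (hj : j ≤ K) : Sub K j (0 : Z n) := by
  rw [sub_iff]; exact ⟨hj, fun k => ⟨le_rfl, by simp⟩⟩

lemma free_zero (k0 : Fin n) (j : ℕ) : Free K lam j (0 : Z n) :=
  fr_of_dvd (Tj_ctr lam j) (l := k0) 0 (by simp)

lemma par_zero : par (0 : Z n) = 0 := by funext k; simp [par]

lemma exists_level [Nontrivial (Fin n)] (hP : (sys k0).Pyr K lam) (hB : Base K lam x)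
    (hs : (lam K 0).sp) : ∃ a, 1 ≤ a ∧ a ≤ K ∧
      ∀ j C, Sub K j C → Free K lam j C → ((lam j C).hi ↔ a ≤ j) := by
  classical
  have hc : ∀ j C, Sub K j C → Free K lam j C → ((lam j C).hi ↔ (lam j 0).hi) := by
    intro j C hC hF
    have := carpet (Tj_ctr lam j) (fun C => (lam j C).hi) (K - j) 0 (fun C l h1 h2 h3 h4 =>
      propext (hrel hP ⟨hC.1, h1⟩ ⟨hC.1, h2⟩ h3 h4).1) C hC.2 hF
    rw [smul_zero] at this
    exact iff_of_eq this
  have hK : (lam K 0).hi := ((hP.sr K 0 (sub_root K)).1 hs).1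
  have hex : ∃ j, j ≤ K ∧ (lam j 0).hi := ⟨K, le_rfl, hK⟩
  have hmono : ∀ j, j < K → (lam j 0).hi → (lam (j + 1) 0).hi := by
    intro j hj h
    have := (hP.vr j 0 hj (sub_zero' hj.le) ((free_zero k0 j).not_sp hP hj (sub_zero' hj.le))).2.1 h
    rwa [par_zero] at this
  refine ⟨Nat.find hex, ?_, (Nat.find_spec hex).1, fun j C hC hF => ?_⟩
  · rw [Nat.one_le_iff_ne_zero]
    intro h0
    have := (Nat.find_spec hex).2
    rw [h0] at this
    exact (hB.low 0 (sub_zero' (by omega))).1 this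
  · rw [hc j C hC hF]
    refine ⟨fun h => Nat.find_min' hex ⟨hC.1, h⟩, fun h => ?_⟩
    have h1 := hC.1
    clear hC hF
    induction j, h using Nat.le_induction with
    | base => exact (Nat.find_spec hex).2
    | succ j _ ih => exact hmono j (by omega) (ih (by omega))

section Cover

variable [Nontrivial (Fin n)] (hP : (sys k0).Pyr K lam) (hB : Base K lam x) {a : ℕ} (ha1 : 1 ≤ a)
  (haK : a ≤ K) (hhi : ∀ j C, Sub K j C → Free K lam j C → ((lam j C).hi ↔ a ≤ j))
include hP hB ha1 haK hhi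

lemma free_high : ∀ j C, a ≤ j + 1 → Sub K j C → Free K lam j C := by
  have : ∀ d j C, j + d = K → a ≤ j + 1 → Sub K j C → Free K lam j C := by
    intro d
    induction d with
    | zero => intro j C hj _ _; obtain rfl : j = K := hj; exact free_root C
    | succ d ih =>
      intro j C hj h1 h2
      have hs := h2.par (by omega)
      have hf := ih (j + 1) _ (by omega) (by omega) hs
      refine free_of (fun hsp => ?_) hf
      exact (hP.spc j C (by omega) h2 hsp).2.1 ((hhi _ _ hs hf).2 h1)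
  intro j C h1 h2
  exact this (K - j) j C (by have := h2.1; omega) h1 h2

lemma corner_sub {j : ℕ} (hj : j ≤ a) {A : Z n} (hA : Sub K a A) :
    Sub K j (((3:ℤ) ^ (a - j)) • A) := by
  refine sub_of_anc (i := a - j) ?_
  rw [anc_smul, show j + (a - j) = a by omega]; exact hA

lemma free_of_fr {j : ℕ} (hj : j ≤ a) {C : Z n} (hC : Sub K j C) (hF : Fr (Tj lam j) (a - j) C) :
    Free K lam j C :=
  free_split hF (free_high hP hB ha1 haK hhi _ _ (by omega) (hC.anc _ (by omega)))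

lemma corner_free {j : ℕ} (hj : j ≤ a) {A : Z n} (hA : Sub K a A) :
    Free K lam j (((3:ℤ) ^ (a - j)) • A) :=
  free_of_fr hP hB ha1 haK hhi hj (corner_sub hP hB ha1 haK hhi hj hA)
    (fr_of_dvd (Tj_ctr lam j) (l := k0) (A k0) (by simp))

lemma par_corner {j : ℕ} (hj : j < a) (A : Z n) :
    par (((3:ℤ) ^ (a - j)) • A) = ((3:ℤ) ^ (a - (j + 1))) • A := by
  have := par_add_smul 0 (((3:ℤ) ^ (a - (j + 1))) • A)
  rw [zero_add, par_zero, zero_add] at this
  rw [pow_smul_succ hj, this]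

lemma vrel {j : ℕ} (hj : j < a) {C : Z n} (hC : Sub K j C) (hF : Free K lam j C) :
    ((lam j C).G ↔ (lam (j + 1) (par C)).G ∧ pos C k0 = 2) ∧
    ((lam j C).W ↔ (lam (j + 1) (par C)).W) ∧
    ((lam (j + 1) (par C)).cin ↔ (lam j C).cin ∧ (lam j C).s.val + 1 = 6 ^ n) ∧
    ((lam j C).st ↔ (lam (j + 1) (par C)).st ∧ (lam (j + 1) (par C)).ch = pos C) ∧
    ((lam j C).st → (lam j C).d.1 = emb (lam j C).s) :=
  (hP.vr j C (by omega) hC (hF.not_sp hP (by omega) hC)).2.2.2
    (by rw [hhi j C hC hF]; omega)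

lemma top_of {A : Z n} (hA : Sub K a A) : (lam a A).top := by
  have h1 := corner_sub hP hB ha1 haK hhi (j := a - 1) (by omega) hA
  have h2 := corner_free hP hB ha1 haK hhi (j := a - 1) (by omega) hA
  have h3 := (hP.vr (a - 1) _ (by omega) h1 (h2.not_sp hP (by omega) h1)).2.2.1
  rw [par_corner hP hB ha1 haK hhi (by omega), show a - 1 + 1 = a by omega, Nat.sub_self,
    pow_zero, one_smul] at h3
  refine h3 ((hhi _ _ hA (free_high hP hB ha1 haK hhi _ _ (by omega) hA)).2 le_rfl) ?_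
  rw [hhi _ _ h1 h2]; omega

lemma G_iff : ∀ j C, j ≤ a → Sub K j C → Free K lam j C →
    ((lam j C).G ↔ (3:ℤ) ^ (a - j) ∣ C k0 + 1) := by
  refine down_ind haK (fun A hA _ => ?_) ?_
  · simpa using (hP.sr a A hA).2.1 (top_of hP hB ha1 haK hhi hA)
  · intro j C hj hC hF ih
    rw [(vrel hP hB ha1 haK hhi hj hC hF).1, ih, pos_two_iff, pow_sub_succ hj]
    simp only [par]
    constructor
    · rintro ⟨⟨m, h1⟩, h2⟩
      exact ⟨m, by rw [mul_assoc]; omega⟩
    · rintro ⟨m, h1⟩
      rw [mul_assoc] at h1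
      exact ⟨⟨m, by omega⟩, by omega⟩

lemma W_iff : ∀ j C, j ≤ a → Sub K j C → Free K lam j C →
    ((lam j C).W ↔ (lam a (anc (a - j) C)).W) := by
  refine down_ind haK (fun A _ _ => by simp) ?_
  intro j C hj hC hF ih
  rw [(vrel hP hB ha1 haK hhi hj hC hF).2.1, ih, ← anc_succ',
    show a - (j + 1) + 1 = a - j by omega]

open Classical in
lemma s_const {j : ℕ} (hj : j < a) {C : Z n} (hC : Sub K j C) (hF : Free K lam j C) :
    (lam j C).s = (lam j (((3:ℤ) ^ (a - j)) • anc (a - j) C)).s := by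
  have hA : Sub K a (anc (a - j) C) := by
    have := hC.anc (a - j) (by omega)
    rwa [show j + (a - j) = a by omega] at this
  refine carpet (Tj_ctr lam j) (fun C => (lam j C).s) (a - j) _ (fun D k h1 h2 h3 h4 => ?_) C rfl
    (hF.fr (by omega))
  have s1 : Sub K j D := sub_of_anc (i := a - j) (by
    rw [h1, show j + (a - j) = a by omega]; exact hA)
  have s2 : Sub K j (D + e k) := sub_of_anc (i := a - j) (by
    rw [h2, show j + (a - j) = a by omega]; exact hA)
  have f1 := free_of_fr hP hB ha1 haK hhi hj.le s1 h3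
  have f2 := free_of_fr hP hB ha1 haK hhi hj.le s2 h4
  have h5 := (hrel hP s1 s2 f1 f2).2.2.1 (by rw [hhi _ _ s1 f1]; omega)
  rw [if_neg] at h5
  · exact (Fin.ext h5).symm
  · rintro ⟨rfl, h6, -⟩
    rw [G_iff hP hB ha1 haK hhi j D hj.le s1 f1] at h6
    obtain ⟨m, hm⟩ := h6
    have b1 := ((anc_eq_iff _ _ _).1 h1) k
    have b2 := ((anc_eq_iff _ _ _).1 h2) k
    simp only [Pi.add_apply, e_same] at b2
    rw [hm] at b2
    have hp : (0:ℤ) < 3 ^ (a - j) := by positivity
    have c1 : m < anc (a - j) C k + 1 := by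
      by_contra hh; push Not at hh; nlinarith [b2.2]
    have c2 : anc (a - j) C k < m := by
      by_contra hh; push Not at hh; nlinarith [b1.1]
    omega

lemma cin_iff : ∀ j, j ≤ a → ∀ C, Sub K j C → Free K lam j C →
    ((lam j C).cin ↔ (lam a (anc (a - j) C)).W ∧
      ∀ i, i < j → (lam i (((3:ℤ) ^ (a - i)) • anc (a - j) C)).s.val + 1 = 6 ^ n) := by
  intro j
  induction j with
  | zero =>
    intro _ C hC hF
    rw [(hB.low C hC).2, W_iff hP hB ha1 haK hhi 0 C (by omega) hC hF]; simp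
  | succ j ih =>
    intro hj C hC hF
    have hpar : par ((3:ℤ) • C) = C := by
      have := par_add_smul 0 C
      rwa [zero_add, par_zero, zero_add] at this
    have s1 : Sub K j ((3:ℤ) • C) := sub_of_anc (i := 1) (by
      rw [anc_succ, anc_zero, hpar]; exact hC)
    have f1 : Free K lam j ((3:ℤ) • C) := free_split (h := 1)
      (fr_of_dvd (Tj_ctr lam j) (l := k0) (C k0) (by simp))
      (by rw [anc_succ, anc_zero, hpar]; exact hF)
    have h1 := (vrel hP hB ha1 haK hhi (by omega) s1 f1).2.2.1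
    have h2 : anc (a - j) ((3:ℤ) • C) = anc (a - (j + 1)) C := by
      rw [show a - j = a - (j + 1) + 1 by omega, anc_succ', hpar]
    rw [hpar] at h1
    rw [h1, ih (by omega) _ s1 f1, s_const hP hB ha1 haK hhi (by omega) s1 f1, h2]
    constructor
    · rintro ⟨⟨h3, h4⟩, h5⟩
      refine ⟨h3, fun i hi => ?_⟩
      rcases Nat.lt_succ_iff_lt_or_eq.1 hi with hi | rfl
      · exact h4 i hi
      · exact h5
    · rintro ⟨h3, h4⟩
      exact ⟨⟨h3, fun i hi => h4 i (by omega)⟩, h4 j (by omega)⟩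

open Classical in
lemma cross {j : ℕ} (hj : j < a) {A : Z n} {k : Fin n} (hA : Sub K a A) (hA' : Sub K a (A + e k)) :
    (lam j (((3:ℤ) ^ (a - j)) • (A + e k))).s.val =
      if k = k0 ∧ (lam a A).W ∧ ∀ i, i < j → (lam i (((3:ℤ) ^ (a - i)) • A)).s.val + 1 = 6 ^ n
      then ((lam j (((3:ℤ) ^ (a - j)) • A)).s.val + 1) % 6 ^ n
      else (lam j (((3:ℤ) ^ (a - j)) • A)).s.val := by
  obtain ⟨l, hl⟩ := exists_ne k
  set C := ((3:ℤ) ^ (a - j)) • (A + e k) - e k with hCdef
  have h1 : anc (a - j) C = A := anc_smul_sub _ _ _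
  have s1 : Sub K j C := sub_of_anc (i := a - j) (by
    rw [h1, show j + (a - j) = a by omega]; exact hA)
  have f1 : Free K lam j C := free_of_fr hP hB ha1 haK hhi hj.le s1
    (fr_of_dvd (Tj_ctr lam j) (l := l) (A l) (by simp [hCdef, e_ne hl]))
  have e1 : C + e k = ((3:ℤ) ^ (a - j)) • (A + e k) := by simp [hCdef]
  have s2 := corner_sub hP hB ha1 haK hhi hj.le hA'
  have f2 := corner_free hP hB ha1 haK hhi hj.le hA'
  rw [← e1] at s2 f2
  have h5 := (hrel hP s1 s2 f1 f2).2.2.1 (by rw [hhi _ _ s1 f1]; omega)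
  rw [e1, s_const hP hB ha1 haK hhi hj s1 f1, cin_iff hP hB ha1 haK hhi j hj.le C s1 f1,
    G_iff hP hB ha1 haK hhi j C hj.le s1 f1, h1] at h5
  rw [h5]
  congr 1
  apply propext
  refine and_congr_right fun hk => and_iff_right ?_
  subst hk
  exact ⟨A k + 1, by simp [hCdef]; ring⟩

lemma g_chain (hs : (lam K 0).sp) : ∀ (N : ℕ) (A : Z n), Sub K a A →
    l1 (((3:ℤ) ^ (K - a)) • one - A) = N → (lam a A).g →
    ∃ A', Sub K a A' ∧ (lam a A').st ∧ ∀ j, j < a →
      (lam j (((3:ℤ) ^ (a - j)) • A')).s = (lam j (((3:ℤ) ^ (a - j)) • A)).s := by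
  intro N
  induction N using Nat.strong_induction_on with
  | _ N ih =>
    intro A hA hN hg
    rcases (hP.sr a A hA).2.2.2.2.2.2 hg with ⟨-, h1⟩ | ⟨k, hk, h1, h2⟩
    · exact ⟨A, hA, h1, fun _ _ => rfl⟩
    · have fA := free_high hP hB ha1 haK hhi _ _ (by omega) hA
      rw [flag_p hP k a A haK hA fA] at h2
      have hb := (sub_iff.1 hA).2
      have h3 : A k + 1 < 3 ^ (K - a) := by
        have := hb k
        have h4 : A k + 1 ≠ 3 ^ (K - a) := fun h =>
          h2 ⟨(((hP.sr K 0 (sub_root K)).1 hs).2 k).2, h⟩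
        omega
      have hA' : Sub K a (A + e k) := by
        rw [sub_iff]
        refine ⟨haK, fun l => ?_⟩
        have := hb l
        rw [Pi.add_apply, e_apply]; split_ifs with h
        · subst h; omega
        · omega
      have hg' := (hrel hP hA hA' fA
        (free_high hP hB ha1 haK hhi _ _ (by omega) hA')).2.2.2.2 hg h1
      obtain ⟨A', h5, h6, h7⟩ := ih (l1 (((3:ℤ) ^ (K - a)) • one - (A + e k))) (by
        rw [← hN]
        unfold l1
        refine Finset.sum_lt_sum (fun l _ => ?_) ⟨k, mem_univ _, ?_⟩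
        · have := hb l
          simp only [Pi.sub_apply, Pi.add_apply, Pi.smul_apply, one, smul_eq_mul, mul_one, e_apply]
          split_ifs with h
          · subst h; omega
          · omega
        · simp only [Pi.sub_apply, Pi.add_apply, Pi.smul_apply, one, smul_eq_mul, mul_one, e_same]
          omega) _ hA' rfl hg'
      refine ⟨A', h5, h6, fun j hj => ?_⟩
      rw [h7 j hj]
      apply Fin.ext
      rw [cross hP hB ha1 haK hhi hj hA hA', if_neg (fun h => hk h.1)]

lemma st_chain : ∀ j, j ≤ a → ∀ C, Sub K j C → Free K lam j C → (lam j C).st →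
    ∃ c, Sub K 0 c ∧ Free K lam 0 c ∧ anc j c = C ∧ (lam 0 c).st ∧
      ∀ i, i < j → (lam i (anc i c)).d.1 = emb (lam i (anc i c)).s := by
  intro j
  induction j with
  | zero => intro _ C hC hF hst; exact ⟨C, hC, hF, by simp, hst, by simp⟩
  | succ j ih =>
    intro hj C hC hF hst
    let D : Z n := fun k => 3 * C k + ((lam (j + 1) C).ch k).val
    have hv : ∀ k, (((lam (j + 1) C).ch k).val : ℤ) < 3 := fun k => by
      have := ZMod.val_lt ((lam (j + 1) C).ch k); omega
    have hpar : par D = C := by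
      funext k; have := hv k; simp only [par, D]; omega
    have hpos : pos D = (lam (j + 1) C).ch := by
      funext k; simp only [pos, D]; push_cast
      have : (3 : ZMod 3) = 0 := rfl
      rw [this]; simp
    have s1 : Sub K j D := sub_of_anc (i := 1) (by rw [anc_succ, anc_zero, hpar]; exact hC)
    have hns : ¬ (lam j D).sp := by
      intro h
      have := hP.spc j D (by omega) s1 h
      rw [hpar] at this
      exact this.2.2 ⟨hst, by rw [← hpos]; exact this.1⟩
    have f1 : Free K lam j D := free_of hns (by rw [hpar]; exact hF)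
    have hv := vrel hP hB ha1 haK hhi (by omega) s1 f1
    have hst' : (lam j D).st := hv.2.2.2.1.2 (by rw [hpar]; exact ⟨hst, hpos.symm⟩)
    obtain ⟨c, h1, h2, h3, h4, h5⟩ := ih (by omega) D s1 f1 hst'
    refine ⟨c, h1, h2, by rw [anc_succ, h3, hpar], h4, fun i hi => ?_⟩
    rcases Nat.lt_succ_iff_lt_or_eq.1 hi with hi | rfl
    · exact h5 i hi
    · rw [h3]; exact hv.2.2.2.2 hst'

open Classical in
lemma all_values (hs : (lam K 0).sp) (y : ℕ) (hy : y < (6 ^ n) ^ a) :
    ∃ A, Sub K a A ∧ (lam a A).g ∧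
      ∑ j ∈ range a, (lam j (((3:ℤ) ^ (a - j)) • A)).s.val * (6 ^ n) ^ j = y := by
  have hroot := ((hP.sr K 0 (sub_root K)).1 hs).2
  let L : ℕ → Z n := fun t => (t : ℤ) • e k0
  have hL : ∀ t, L (t + 1) = L t + e k0 := fun t => by simp only [L]; push_cast; rw [add_smul, one_smul]
  have hLs : ∀ t : ℕ, (t : ℤ) < 3 ^ (K - a) → Sub K a (L t) := fun t ht => by
    rw [sub_iff]
    refine ⟨haK, fun k => ?_⟩
    have : (0:ℤ) < 3 ^ (K - a) := by positivity
    simp only [L, Pi.smul_apply, smul_eq_mul, e_apply]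
    split_ifs <;> omega
  let V : ℕ → ℕ := fun t => ∑ j ∈ range a, (lam j (((3:ℤ) ^ (a - j)) • L t)).s.val * (6 ^ n) ^ j
  let Good : ℕ → Prop := fun y => ∃ t : ℕ, (t : ℤ) < 3 ^ (K - a) ∧ (lam a (L t)).W ∧ V t = y
  let c : ℕ → ℕ → Prop := fun t j => (lam a (L t)).W ∧
    ∀ i, i < j → (lam i (((3:ℤ) ^ (a - i)) • L t)).s.val + 1 = 6 ^ n
  have hc : ∀ t j, c t (j + 1) ↔ c t j ∧ (lam j (((3:ℤ) ^ (a - j)) • L t)).s.val + 1 = 6 ^ n := by
    intro t j
    constructor
    · rintro ⟨h3, h4⟩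
      exact ⟨⟨h3, fun i hi => h4 i (by omega)⟩, h4 j (by omega)⟩
    · rintro ⟨⟨h3, h4⟩, h5⟩
      refine ⟨h3, fun i hi => ?_⟩
      rcases Nat.lt_succ_iff_lt_or_eq.1 hi with hi | rfl
      · exact h4 i hi
      · exact h5
  have hcin : ∀ t : ℕ, (t : ℤ) < 3 ^ (K - a) → ((lam a (L t)).cin ↔ c t a) := fun t ht => by
    have := cin_iff hP hB ha1 haK hhi a le_rfl _ (hLs t ht)
      (free_high hP hB ha1 haK hhi _ _ (by omega) (hLs t ht))
    rwa [Nat.sub_self, anc_zero] at this
  have hlast : ∀ t : ℕ, c t a → V t + 1 = (6 ^ n) ^ a := fun t h => by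
    have := counter_step (6 ^ n) (fun j => (lam j (((3:ℤ) ^ (a - j)) • L t)).s.val) (fun _ => 0)
      (lam a (L t)).W (c t) (fun j => Fin.is_lt _) (by simp [c]) a (fun j _ => hc t j)
      (fun j hj => by
        rw [if_pos ⟨h.1, fun i hi => h.2 i (by omega)⟩, h.2 j hj, Nat.mod_self])
    rw [if_pos h, if_pos h.1] at this
    simp only [zero_mul, sum_const_zero, zero_add] at this
    exact this.symm
  have hstep : ∀ t : ℕ, ((t + 1 : ℕ) : ℤ) < 3 ^ (K - a) → ¬ c t a →
      V (t + 1) = V t + if (lam a (L t)).W then 1 else 0 := fun t ht h => by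
    have := counter_step (6 ^ n) (fun j => (lam j (((3:ℤ) ^ (a - j)) • L t)).s.val)
      (fun j => (lam j (((3:ℤ) ^ (a - j)) • L (t + 1))).s.val)
      (lam a (L t)).W (c t) (fun j => Fin.is_lt _) (by simp [c]) a (fun j _ => hc t j)
      (fun j hj => by
        rw [hL, cross hP hB ha1 haK hhi hj (hLs t (by push_cast at ht; omega))
          (by rw [← hL]; exact hLs _ ht)]
        simp only [true_and, c])
    rw [if_neg h] at this
    exact this
  have hfin : ∀ t : ℕ, (t : ℤ) < 3 ^ (K - a) → c t a → (∀ y, y < V t → Good y) →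
      ∀ y, y < (6 ^ n) ^ a → Good y := by
    intro t ht h1 h2 y hy
    have := hlast t h1
    rcases lt_or_ge y (V t) with h3 | h3
    · exact h2 y h3
    · exact ⟨t, ht, h1.1, by omega⟩
  have inv : ∀ t : ℕ, (t : ℤ) < 3 ^ (K - a) →
      ((lam a (L t)).done → ∀ y, y < (6 ^ n) ^ a → Good y) ∧
      (¬ (lam a (L t)).done → ∀ y, y < V t → Good y) := by
    intro t
    induction t with
    | zero =>
      intro ht
      have hL0 : L 0 = 0 := by simp [L]
      have s0 := hLs 0 ht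
      refine ⟨fun h => ?_, fun _ y hy => ?_⟩
      · exfalso
        refine (hP.sr a _ s0).2.2.2.1 (top_of hP hB ha1 haK hhi s0) ?_ h
        rw [flag_m hP k0 a _ haK s0 (free_high hP hB ha1 haK hhi _ _ (by omega) s0)]
        exact ⟨(hroot k0).1, by simp [hL0]⟩
      · exfalso
        have : V 0 = 0 := by
          refine Finset.sum_eq_zero fun j hj => ?_
          have hj := Finset.mem_range.1 hj
          rw [hL0, smul_zero]
          have s1 : Sub K j (0 : Z n) := sub_zero' (by omega)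
          rw [(hP.sr j 0 s1).2.2.1 (by rw [hhi _ _ s1 (free_zero k0 j)]; omega) (by
            rw [flag_m hP k0 j _ (by omega) s1 (free_zero k0 j)]; exact ⟨(hroot k0).1, rfl⟩)]
          simp
        omega
    | succ t ih =>
      intro ht
      have ht' : (t : ℤ) < 3 ^ (K - a) := by push_cast at ht; omega
      have ih := ih ht'
      have s1 := hLs t ht'
      have s2 := hLs _ ht
      rw [hL] at s2
      have hd := (hrel hP s1 s2 (free_high hP hB ha1 haK hhi _ _ (by omega) s1)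
        (free_high hP hB ha1 haK hhi _ _ (by omega) s2)).2.2.2.1 (top_of hP hB ha1 haK hhi s1) rfl
      rw [← hL, hcin t ht'] at hd
      rw [hd]
      refine ⟨fun h => ?_, fun h y hy => ?_⟩
      · by_cases h1 : (lam a (L t)).done
        · exact ih.1 h1
        · exact hfin t ht' (h.resolve_left h1) (ih.2 h1)
      · push Not at h
        rw [hstep t ht h.2] at hy
        split_ifs at hy with hW
        · rcases lt_or_ge y (V t) with h3 | h3
          · exact ih.2 h.1 y h3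
          · exact ⟨t, ht', hW, by omega⟩
        · exact ih.2 h.1 y hy
  have hT : (((3 ^ (K - a) - 1 : ℕ) : ℤ)) + 1 = 3 ^ (K - a) := by
    have : 0 < 3 ^ (K - a) := by positivity
    rw [Nat.cast_sub (by omega)]; push_cast; ring
  have hG : Good y := by
    have ht : (((3 ^ (K - a) - 1 : ℕ) : ℤ)) < 3 ^ (K - a) := by omega
    have s1 := hLs _ ht
    have := (hP.sr a _ s1).2.2.2.2.1 (top_of hP hB ha1 haK hhi s1) (by
      rw [flag_p hP k0 a _ haK s1 (free_high hP hB ha1 haK hhi _ _ (by omega) s1)]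
      exact ⟨(hroot k0).2, by simp only [L, Pi.smul_apply, e_same, smul_eq_mul, mul_one]; exact hT⟩)
    by_cases h1 : (lam a (L (3 ^ (K - a) - 1))).done
    · exact (inv _ ht).1 h1 y hy
    · exact hfin _ ht ((hcin _ ht).1 (this.resolve_left h1)) ((inv _ ht).2 h1) y hy
  obtain ⟨t, ht, hW, hV⟩ := hG
  have s1 := hLs t ht
  refine ⟨L t, s1, (hP.sr a _ s1).2.2.2.2.2.1 (top_of hP hB ha1 haK hhi s1) hW fun k hk => ?_, hV⟩
  rw [flag_m hP k a _ haK s1 (free_high hP hB ha1 haK hhi _ _ (by omega) s1)]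
  exact ⟨(hroot k).1, by simp [L, e_ne hk]⟩

lemma cover_aux (hs : (lam K 0).sp) (r : Z n) :
    ∃ c, Sub K 0 c ∧ (lam 0 c).st ∧ ∀ k, (6 : ℤ) ^ a ∣ x c k - r k := by
  set r' : Z n := r - (x 0 - Hs lam a 0) with hr'
  obtain ⟨A, hA, hg, hV⟩ := all_values hP hB ha1 haK hhi hs
    (∑ j ∈ range a, (dig r' j).val * (6 ^ n) ^ j) (digits_lt _ _ (fun j => Fin.is_lt _) a)
  have hd := digits_inj _ _ _ (fun j => Fin.is_lt _) (fun j => Fin.is_lt _) a hV
  obtain ⟨A', hA', hst, hs'⟩ := g_chain hP hB ha1 haK hhi hs _ A hA rfl hg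
  obtain ⟨c, h1, h2, h3, h4, h5⟩ := st_chain hP hB ha1 haK hhi a le_rfl A' hA'
    (free_high hP hB ha1 haK hhi _ _ (by omega) hA') hst
  refine ⟨c, h1, h4, fun k => ?_⟩
  have h6 : Hs lam a c k = r' k - 6 ^ a * (r' k / 6 ^ a) := by
    rw [← six_expand]
    simp only [Hs, Finset.sum_apply, Pi.smul_apply, smul_eq_mul]
    refine Finset.sum_congr rfl fun j hj => ?_
    have hj := Finset.mem_range.1 hj
    have s1 := h1.anc j (by omega)
    have f1 := h2.anc j
    rw [zero_add] at s1 f1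
    rw [h5 j hj, s_const hP hB ha1 haK hhi hj s1 f1, ← anc_add, show j + (a - j) = a by omega, h3,
      hs' j hj, Fin.ext (hd j hj), emb_dig]
  obtain ⟨m, hm⟩ := rigid hP hB haK h1 h2 k
  refine ⟨m - r' k / 6 ^ a, ?_⟩
  simp only [Pi.sub_apply, hr'] at hm h6 ⊢
  rw [mul_sub]; linarith

end Cover

theorem cover [Nontrivial (Fin n)] (hP : (sys k0).Pyr K lam) (hB : Base K lam x)
    (hs : (lam K 0).sp) : ∃ a,
      (∀ c, Sub K 0 c → (∀ j, j < a → ¬ (lam j (anc j c)).sp) → Free K lam 0 c) ∧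
      ∀ r : Z n, ∃ c, Sub K 0 c ∧ (lam 0 c).st ∧ ∀ k, (6 : ℤ) ^ a ∣ x c k - r k := by
  obtain ⟨a, ha1, haK, hhi⟩ := exists_level hP hB hs
  refine ⟨a, fun c hc h => free_of_fr hP hB ha1 haK hhi (by omega) hc fun i hi hT => ?_,
    cover_aux hP hB ha1 haK hhi hs⟩
  exact h i (by omega) (by simpa using hT.1)

theorem exists_not_st [Nontrivial (Fin n)] (hP : (sys k0).Pyr 1 lam) (hB : Base 1 lam x) :
    ∃ c, ¬ (lam 0 c).st := by
  by_contra h
  push Not at h
  have s0 : Sub 1 0 (0 : Z n) := sub_zero' (by omega)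
  have s1 : Sub 1 0 (e k0) := by
    rw [sub_iff]; refine ⟨by omega, fun k => ?_⟩
    rw [e_apply]; split_ifs <;> simp
  have p0 : pos (0 : Z n) = 0 := by funext k; simp [pos]
  have p1 : pos (e k0) = ep k0 := by
    have := pos_add_e 0 k0; rwa [zero_add, p0, zero_add] at this
  have n0 : ¬ (lam 0 0).sp := fun hs => zero_ne_ctr k0 (p0 ▸ (hP.spc 0 0 (by omega) s0 hs).1)
  have n1 : ¬ (lam 0 (e k0)).sp := fun hs => ep_ne_ctr k0 (p1 ▸ (hP.spc 0 _ (by omega) s1 hs).1)
  have a0 := (((hP.vr 0 0 (by omega) s0 n0).2.2.2 (hB.low 0 s0).1).2.2.2.1.1 (h 0)).2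
  have a1 := (((hP.vr 0 _ (by omega) s1 n1).2.2.2 (hB.low _ s1).1).2.2.2.1.1 (h _)).2
  rw [(s1.par (by omega)).root] at a1
  rw [par_zero, a1, p0, p1] at a0
  exact ep_ne_zero k0 a0

end Pool.Agent.MP_c4ca5b_lc
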