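import Pool.Agent.MP_c4ca5b_lc.Glue
import Pool.Agent.MP_c4ca5b_lc.Odometer

set_option linter.unusedSectionVars false

namespace Pool.Agent.MP_c4ca5b_lc

open Finset Filter Topology

variable {n : ℕ}

noncomputable def seqRec {α : Type} [Inhabited α] (st : ℕ → (ℕ → α) → α) (s : ℕ) : α :=
  st s (fun t => if _h : t < s then seqRec st t else default)
termination_by s

lemma exists_seq {α : Type} [Inhabited α] (Self : ℕ → α → Prop) (Pair : ℕ → ℕ → α → α → Prop)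
    (H : ∀ s (f : ℕ → α), (∀ t, t < s → Self t (f t)) →
      (∀ t t', t < t' → t' < s → Pair t t' (f t) (f t')) →
      ∃ d, Self s d ∧ ∀ t, t < s → Pair t s (f t) d) :
    ∃ f : ℕ → α, (∀ s, Self s (f s)) ∧ ∀ t s, t < s → Pair t s (f t) (f s) := by
  choose! st hst using H
  have key : ∀ s, Self s (seqRec st s) ∧ ∀ t, t < s → Pair t s (seqRec st t) (seqRec st s) := by
    intro s
    induction s using Nat.strong_induction_on with
    | _ s ih =>
      have := hst s (fun t => if _h : t < s then seqRec st t else default)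
        (fun t ht => by simp only [ht, dif_pos]; exact (ih t ht).1)
        (fun t t' h1 h2 => by
          simp only [h2, h1.trans h2, dif_pos]; exact (ih t' h2).2 t h1)
      have e1 : seqRec st s = st s (fun t => if _h : t < s then seqRec st t else default) := by
        rw [seqRec]
      rw [← e1] at this
      exact ⟨this.1, fun t ht => by simpa only [ht, dif_pos] using this.2 t ht⟩
  exact ⟨seqRec st, fun s => (key s).1, fun t s h => (key s).2 t h⟩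

lemma exists_bound (g : ℕ → ℤ) (s : ℕ) (b : ℤ) : ∃ S, b ≤ S ∧ ∀ t, t < s → g t ≤ S := by
  induction s with
  | zero => exact ⟨b, le_rfl, by simp⟩
  | succ s ih =>
    obtain ⟨S, h1, h2⟩ := ih
    refine ⟨max S (g s), h1.trans (le_max_left _ _), fun t ht => ?_⟩
    rcases Nat.lt_succ_iff_lt_or_eq.1 ht with ht | rfl
    · exact (h2 t ht).trans (le_max_left _ _)
    · exact le_max_right _ _

lemma six_digits : ∀ (a : ℕ) (x : ℤ) (d : ℕ → ℤ), (∀ j, 0 ≤ d j ∧ d j < 6) →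
    (6:ℤ) ^ a ∣ x - ∑ j ∈ range a, 6 ^ j * d j → ∀ j, j < a → x / 6 ^ j % 6 = d j := by
  intro a
  induction a with
  | zero => intro _ _ _ _ j hj; omega
  | succ a ih =>
    rintro x d hd ⟨m, hm⟩ j hj
    rw [sum_range_succ'] at hm
    have h1 : ∑ k ∈ range a, 6 ^ (k + 1) * d (k + 1) = 6 * ∑ k ∈ range a, 6 ^ k * d (k + 1) := by
      rw [Finset.mul_sum]; exact Finset.sum_congr rfl fun k _ => by ring
    rw [h1, pow_zero, one_mul, pow_succ', mul_assoc] at hm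
    have h0 := hd 0
    rcases j with _ | j
    · simp only [pow_zero, Int.ediv_one]; omega
    · rw [pow_succ', ← Int.ediv_ediv_of_nonneg (by norm_num)]
      exact ih (x / 6) (fun j => d (j + 1)) (fun j => hd _) ⟨m, by omega⟩ j (by omega)

section Dyn

variable {X : Type} [TopologicalSpace X] [AddAction (Fin n → ℤ) X]
  [ContinuousConstVAdd (Fin n → ℤ) X]

lemma open_pre {U : Set X} (hU : IsOpen U) (v : Z n) : IsOpen {x : X | v +ᵥ x ∈ U} :=
  hU.preimage (continuous_const_vadd v)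

lemma far_return (hT : TT n X) (k0 : Fin n) (a : ℕ) (r : Z n) {U V : Set X} (hU : IsOpen U)
    (hV : IsOpen V) (hUn : U.Nonempty) (hVn : V.Nonempty) (B : ℤ) :
    ∃ v : Z n, (∀ k, (6:ℤ) ^ a ∣ v k - r k) ∧ B ≤ v k0 ∧ ∃ x ∈ U, v +ᵥ x ∈ V := by
  obtain ⟨v0, h1, x0, h2, h3⟩ := hT a r U V hU hV hUn hVn
  have hU' : IsOpen (U ∩ {x : X | v0 +ᵥ x ∈ V}) := hU.inter (open_pre hV v0)
  set b : ℕ := (B - v0 k0).toNat with hb
  obtain ⟨l, h4, x, h5, h6⟩ := hT (a + b + 1) (((6:ℤ) ^ (a + b)) • e k0) _ _ hU' hU'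
    ⟨x0, h2, h3⟩ ⟨x0, h2, h3⟩
  have h7 : ∀ k, (6:ℤ) ^ a ∣ l k := fun k => by
    have := ((pow_dvd_pow (6:ℤ) (by omega : a ≤ a + b + 1)).trans (h4 k)).add
      (((pow_dvd_pow (6:ℤ) (by omega : a ≤ a + b))).mul_right (e k0 k))
    simpa using this
  have h8 : B - v0 k0 ≤ 6 ^ (a + b) := by
    have h9 : a + b < 6 ^ (a + b) := Nat.lt_pow_self (by norm_num)
    have h10 : ((a + b : ℕ) : ℤ) < 6 ^ (a + b) := by exact_mod_cast h9
    omega
  obtain ⟨m, hm⟩ := h4 k0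
  simp only [Pi.smul_apply, e_same, smul_eq_mul, mul_one] at hm
  have hp : (0:ℤ) < 6 ^ (a + b) := by positivity
  rw [pow_succ] at hm
  rcases le_or_gt 0 m with h9 | h9
  · refine ⟨v0 + l, fun k => ?_, ?_, x, h5.1, by rw [add_vadd]; exact h6.2⟩
    · obtain ⟨t, ht⟩ := (h1 k).add (h7 k)
      exact ⟨t, by simp only [Pi.add_apply]; linarith⟩
    · simp only [Pi.add_apply]; nlinarith
  · refine ⟨v0 - l, fun k => ?_, ?_, l +ᵥ x, h6.1, by
      rw [← add_vadd, sub_add_cancel]; exact h5.2⟩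
    · obtain ⟨t, ht⟩ := (h1 k).sub (h7 k)
      exact ⟨t, by simp only [Pi.sub_apply]; linarith⟩
    · simp only [Pi.sub_apply]; nlinarith

lemma stations (hT : TT n X) (k0 : Fin n) (a : ℕ) (r : ℕ → Z n) (Γ : ℤ) {W V : Set X}
    (hW : IsOpen W) (hV : IsOpen V) (hWn : W.Nonempty) (hVn : V.Nonempty) (N : ℕ) :
    ∃ (W' : Set X) (v : ℕ → Z n), IsOpen W' ∧ W'.Nonempty ∧ W' ⊆ W ∧
      (∀ i, i < N → (∀ k, (6:ℤ) ^ a ∣ v i k - r i k) ∧ ∀ x ∈ W', v i +ᵥ x ∈ V) ∧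
      ∀ i i', i < i' → i' < N → v i k0 + Γ ≤ v i' k0 := by
  induction N with
  | zero => exact ⟨W, fun _ => 0, hW, hWn, le_rfl, by simp, by simp⟩
  | succ N ih =>
    obtain ⟨W', v, h1, h2, h3, h4, h5⟩ := ih
    obtain ⟨B, -, hB⟩ := exists_bound (fun i => v i k0 + Γ) N 0
    obtain ⟨w, h6, h7, x, h8, h9⟩ := far_return hT k0 a (r N) h1 hV h2 hVn B
    refine ⟨W' ∩ {x : X | w +ᵥ x ∈ V}, Function.update v N w, h1.inter (open_pre hV w),
      ⟨x, h8, h9⟩, Set.inter_subset_left.trans h3, fun i hi => ?_, fun i i' hi hi' => ?_⟩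
    · rcases Nat.lt_succ_iff_lt_or_eq.1 hi with hi | rfl
      · rw [Function.update_of_ne hi.ne]
        exact ⟨(h4 i hi).1, fun x hx => (h4 i hi).2 x hx.1⟩
      · rw [Function.update_self]
        exact ⟨h6, fun x hx => hx.2⟩
    · rw [Function.update_of_ne (by omega : i ≠ N)]
      rcases Nat.lt_succ_iff_lt_or_eq.1 hi' with hi' | rfl
      · rw [Function.update_of_ne hi'.ne]; exact h5 i i' hi hi'
      · rw [Function.update_self]; exact (hB i hi).trans h7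

lemma decide_all {ι : Type} (T : Finset ι) (O : ι → Set X) (hO : ∀ i ∈ T, IsOpen (O i))
    {W : Set X} (hW : IsOpen W) (hWn : W.Nonempty) :
    ∃ W' : Set X, IsOpen W' ∧ W'.Nonempty ∧ W' ⊆ W ∧
      ∀ i ∈ T, ∀ x ∈ W', ∀ y ∈ W', (x ∈ O i ↔ y ∈ O i) := by
  classical
  induction T using Finset.induction_on with
  | empty => exact ⟨W, hW, hWn, le_rfl, by simp⟩
  | insert i T _ ih =>
    obtain ⟨W', h1, h2, h3, h4⟩ := ih fun j hj => hO j (mem_insert_of_mem hj)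
    by_cases h5 : (W' ∩ O i).Nonempty
    · refine ⟨W' ∩ O i, h1.inter (hO i (mem_insert_self _ _)), h5,
        Set.inter_subset_left.trans h3, fun j hj x hx y hy => ?_⟩
      rcases mem_insert.1 hj with rfl | hj
      · exact iff_of_true hx.2 hy.2
      · exact h4 j hj x hx.1 y hy.1
    · refine ⟨W', h1, h2, h3, fun j hj x hx y hy => ?_⟩
      rcases mem_insert.1 hj with rfl | hj
      · exact iff_of_false (fun h => h5 ⟨x, hx, h⟩) (fun h => h5 ⟨y, hy, h⟩)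
      · exact h4 j hj x hx y hy

lemma sep_nhds [T2Space X] (T : Finset (Z n)) (x y : X) (h : ∀ w ∈ T, w +ᵥ y ≠ x) :
    ∃ U V : Set X, IsOpen U ∧ IsOpen V ∧ x ∈ U ∧ y ∈ V ∧ ∀ w ∈ T, ∀ y' ∈ V, w +ᵥ y' ∉ U := by
  classical
  induction T using Finset.induction_on with
  | empty => exact ⟨Set.univ, Set.univ, isOpen_univ, isOpen_univ, trivial, trivial, by simp⟩
  | insert w T _ ih =>
    obtain ⟨U, V, h1, h2, h3, h4, h5⟩ := ih fun j hj => h j (mem_insert_of_mem hj)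
    obtain ⟨A, B, h6, h7, h8, h9, h10⟩ := t2_separation (h w (mem_insert_self _ _))
    refine ⟨U ∩ B, V ∩ {y : X | w +ᵥ y ∈ A}, h1.inter h7, h2.inter (open_pre h6 w), ⟨h3, h9⟩,
      ⟨h4, h8⟩, fun j hj y' hy' hU => ?_⟩
    rcases mem_insert.1 hj with rfl | hj
    · exact Set.disjoint_left.1 h10 hy'.2 hU.2
    · exact h5 j hj y' hy'.1 hU.1

structure Stage (n : ℕ) (X : Type) : Type where
  U : Set X
  V : Set X
  x : X
  K : ℕ
  a : ℕ
  S : ℤ
  v : ℕ → Z n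

structure Stage.Self (k0 : Fin n) (W : ℕ → Set X) (s : ℕ) (d : Stage n X) : Prop where
  oU : IsOpen d.U
  oV : IsOpen d.V
  xU : d.x ∈ d.U
  nV : d.V.Nonempty
  UW : d.U ⊆ W s
  s0 : Rw n ≤ d.S
  a1 : 1 ≤ d.a
  aK : d.a + 3 ≤ d.K
  kk : kst n ≤ d.K
  bd : Bd n ≤ 3 ^ (d.K - 2)
  sep : ∀ y ∈ d.U, ∀ w : Z n, w ≠ 0 → nb w (2 * Rp n s d.K d.S) → w +ᵥ y ∉ d.U
  avoid : ∀ y ∈ d.V, ∀ w : Z n, nb w (rho n d.K) → w +ᵥ y ∉ d.U
  vin : ∀ i, i < (6 ^ n) ^ d.a → nb (d.v i) (3 ^ (d.K - 2))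
  vgap : ∀ i i', i < i' → i' < (6 ^ n) ^ d.a → d.v i k0 + 8 * 3 ^ d.a ≤ d.v i' k0
  vdig : ∀ i, i < (6 ^ n) ^ d.a → ∀ j, j < d.a → ∀ k, d.v i k / 6 ^ j % 6 = emb (dg n i j) k

structure Stage.Pair (t s : ℕ) (c d : Stage n X) : Prop where
  ss : c.S + 2 * Rp n t c.K c.S ≤ d.S
  aa : c.K + 2 ≤ d.a
  VV : d.V ⊆ c.V
  dec : ∀ y ∈ d.U, ∀ w : Z n, nb w (Rp n s d.K d.S) → (w +ᵥ y ∈ c.U ↔ w +ᵥ d.x ∈ c.U)
  st : ∀ i, i < (6 ^ n) ^ d.a → d.v i +ᵥ d.x ∈ c.V

lemma exists_stage [T2Space X] (hT : TT n X) (hf : IsFree n X) (k0 : Fin n) {W : ℕ → Set X}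
    (hW : ∀ s, IsOpen (W s) ∧ (W s).Nonempty) (s : ℕ) (f : ℕ → Stage n X)
    (h1 : ∀ t, t < s → Stage.Self k0 W t (f t))
    (h2 : ∀ t t', t < t' → t' < s → Stage.Pair t t' (f t) (f t')) :
    ∃ d, Stage.Self k0 W s d ∧ ∀ t, t < s → Stage.Pair t s (f t) d := by
  classical
  obtain ⟨V0, hV1, hV2, hV3⟩ : ∃ V0 : Set X, IsOpen V0 ∧ V0.Nonempty ∧
      ∀ t, t < s → V0 ⊆ (f t).V := by
    rcases s with _ | s
    · exact ⟨W 0, (hW 0).1, (hW 0).2, by simp⟩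
    · refine ⟨(f s).V, (h1 s (by omega)).oV, (h1 s (by omega)).nV, fun t ht => ?_⟩
      rcases Nat.lt_succ_iff_lt_or_eq.1 ht with ht | rfl
      · exact (h2 t s ht (by omega)).VV
      · exact le_rfl
  obtain ⟨a, ha1, ha2⟩ : ∃ a : ℕ, 1 ≤ a ∧ ∀ t, t < s → (f t).K + 2 ≤ a := by
    obtain ⟨A, h3, h4⟩ := exists_bound (fun t => ((f t).K + 2 : ℕ)) s 1
    exact ⟨A.toNat, by omega, fun t ht => by have := h4 t ht; omega⟩
  obtain ⟨S, hS1, hS2⟩ := exists_bound (fun t => (f t).S + 2 * Rp n t (f t).K (f t).S) s (Rw n)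
  obtain ⟨W1, v, hW1, hW1n, hW1s, hv1, hv2⟩ := stations hT k0 a
    (fun i k => ∑ j ∈ range a, 6 ^ j * emb (dg n i j) k) (8 * 3 ^ a) (hW s).1 hV1 (hW s).2 hV2
    ((6 ^ n) ^ a)
  obtain ⟨B, hB1, hB2⟩ := exists_bound (fun i => (l1 (v i) : ℤ)) ((6 ^ n) ^ a) (Bd n)
  obtain ⟨K, hK1, hK2, hK3⟩ : ∃ K : ℕ, a + 3 ≤ K ∧ kst n ≤ K ∧ B ≤ 3 ^ (K - 2) := by
    refine ⟨B.toNat + a + kst n + 3, by omega, by omega, ?_⟩
    have h3 : B.toNat + a + kst n + 3 - 2 < 3 ^ (B.toNat + a + kst n + 3 - 2) :=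
      Nat.lt_pow_self (by norm_num)
    have h4 : ((B.toNat + a + kst n + 3 - 2 : ℕ) : ℤ) < 3 ^ (B.toNat + a + kst n + 3 - 2) := by
      exact_mod_cast h3
    omega
  obtain ⟨W2, hW2, hW2n, hW2s, hdec⟩ := decide_all
    (range s ×ˢ (finite_nb (n := n) (Rp n s K S)).toFinset)
    (fun r => {x : X | r.2 +ᵥ x ∈ (f r.1).U})
    (fun r hr => open_pre (h1 r.1 (mem_range.1 (mem_product.1 hr).1)).oU r.2) hW1 hW1n
  obtain ⟨u, -, hu, x, hx, hux⟩ := far_return hT k0 0 0 hW2 hV1 hW2n hV2 (rho n K + 1)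
  obtain ⟨U1, V1, a1, a2, a3, a4, a5⟩ := sep_nhds (finite_nb (n := n) (rho n K)).toFinset x (u +ᵥ x)
    (fun w hw => by
      rw [← add_vadd]
      refine hf _ _ fun h3 => ?_
      have h4 := (Set.Finite.mem_toFinset _).1 hw k0
      have h5 := congrFun h3 k0
      simp only [Pi.add_apply, Pi.zero_apply] at h5
      rw [abs_le] at h4
      omega)
  obtain ⟨U2, V2, b1, b2, b3, b4, b5⟩ := sep_nhds
    ((finite_nb (n := n) (2 * Rp n s K S)).toFinset.erase 0) x x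
    (fun w hw => hf _ _ (ne_of_mem_erase hw))
  refine ⟨⟨W2 ∩ U1 ∩ (U2 ∩ V2), V0 ∩ V1, x, K, a, S, v⟩, ⟨(hW2.inter a1).inter (b1.inter b2),
    hV1.inter a2, ⟨⟨hx, a3⟩, b3, b4⟩, ⟨_, hux, a4⟩, fun y hy => hW1s (hW2s hy.1.1), hS1, ha1, hK1,
    hK2, hB1.trans hK3, fun y hy w hw hw' hU => ?_, fun y hy w hw hU => ?_, fun i hi k => ?_, hv2,
    fun i hi j hj k => ?_⟩, fun t ht => ⟨hS2 t ht, ha2 t ht, fun y hy => hV3 t ht hy.1,
      fun y hy w hw => ?_, fun i hi => hV3 t ht ((hv1 i hi).2 x (hW2s hx))⟩⟩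
  · exact b5 w (mem_erase.2 ⟨hw, (Set.Finite.mem_toFinset _).2 hw'⟩) y hy.2.2 hU.2.1
  · exact a5 w ((Set.Finite.mem_toFinset _).2 hw) y hy.2 hU.1.2
  · have h3 := hB2 i hi
    have h4 : (v i k).natAbs ≤ l1 (v i) :=
      Finset.single_le_sum (f := fun k => (v i k).natAbs) (fun _ _ => Nat.zero_le _) (mem_univ k)
    show |v i k| ≤ 3 ^ (K - 2)
    rw [Int.abs_eq_natAbs]; omega
  · exact six_digits a _ (fun j => emb (dg n i j) k) (fun j => emb_bound _ _) ((hv1 i hi).1 k) j hj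
  · exact hdec (t, w) (mem_product.2 ⟨mem_range.2 ht, (Set.Finite.mem_toFinset _).2 hw⟩) y
      hy.1.1 x hx

theorem main_solved [PolishSpace X] [Nonempty X] [Nontrivial (Fin n)] (hT : TT n X)
    (hf : IsFree n X) (k0 : Fin n) : HasBaireLabelling (mainLCL k0) X := by
  classical
  obtain ⟨W, hW, hWb⟩ : ∃ W : ℕ → Set X, (∀ s, IsOpen (W s) ∧ (W s).Nonempty) ∧
      ∀ O : Set X, IsOpen O → O.Nonempty → ∃ s, W s ⊆ O := by
    obtain ⟨b, hb1, hb2, hb3⟩ := TopologicalSpace.exists_countable_basis X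
    obtain ⟨W, rfl⟩ := hb1.exists_eq_range (by
      obtain ⟨t, ht, -⟩ := hb3.exists_subset_of_mem_open (Set.mem_univ (Classical.arbitrary X))
        isOpen_univ
      exact ⟨t, ht⟩)
    refine ⟨W, fun s => ⟨hb3.isOpen ⟨s, rfl⟩, Set.nonempty_iff_ne_empty.2 fun h => hb2 ⟨s, h⟩⟩,
      fun O hO ⟨x, hx⟩ => ?_⟩
    obtain ⟨_, ⟨s, rfl⟩, -, h⟩ := hb3.exists_subset_of_mem_open hx hO
    exact ⟨s, h⟩
  have : Inhabited (Stage n X) := ⟨⟨∅, ∅, Classical.arbitrary X, 0, 0, 0, fun _ => 0⟩⟩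
  obtain ⟨f, hs, hp⟩ := exists_seq (Stage.Self k0 W) Stage.Pair (exists_stage hT hf k0 hW)
  let p : Plan n := ⟨fun s => (f s).K, fun s => (f s).a, fun s => (f s).S, fun s => (f s).v,
    fun s t => {w | w +ᵥ (f s).x ∈ (f t).U}⟩
  have hsep : ∀ t (x : X) (w w' : Z n), w +ᵥ x ∈ (f t).U → w' +ᵥ x ∈ (f t).U →
      nb (w - w') (2 * Rp n t (f t).K (f t).S) → w = w' := by
    intro t x w w' h1 h2 h3
    by_contra h4
    exact (hs t).sep _ h2 _ (sub_ne_zero.2 h4) h3 (by rwa [← add_vadd, sub_add_cancel])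
  have hOK : p.OK k0 := by
    refine ⟨⟨fun t => (hs t).s0, fun t s h => (hp t s h).ss, fun t s h => ?_⟩,
      fun t s h => (hp t s h).aa, fun s => (hs s).a1, fun s => (hs s).aK, fun s => (hs s).kk,
      fun s t w hw w' hw' => hsep t _ w w' hw hw', fun s t w hw t' ht y hy => ?_,
      fun s => (hs s).vin, fun s => (hs s).vgap, fun s => (hs s).vdig,
      fun s t i w ht hi hw h => ?_⟩
    · have := (hp t s h).aa; have := (hs s).aK
      simp only [p]; omega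
    · have := (hp t' t ht).dec _ hw y hy
      rw [← add_vadd, add_comm y w] at this
      exact this
    · exact (hs t).avoid _ ((hp t s ht).st i hi) _ h.comm (by rwa [← add_vadd, sub_add_cancel])
  let Occ : X → ℕ → Z n → Prop := fun x s w => w +ᵥ x ∈ (f s).U ∧ nb w (3 ^ ((f s).K - 2))
  let F : X → Lab n := fun x =>
    if h : ∃ r : ℕ × Z n, Occ x r.1 r.2 then p.zz k0 h.choose.1 (-h.choose.2) else default
  have key : ∀ x s w t w', Occ x s w → Occ x t w' → t ≤ s → p.zz k0 s (-w) = p.zz k0 t (-w') := by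
    intro x s w t w' h1 h2 ht
    have h3 : (3:ℤ) ^ ((f t).K - 2) ≤ 3 ^ (f s).K := pow_le_pow_right₀ (by norm_num) (by
      rcases ht.lt_or_eq with h4 | h4
      · have := hOK.pr.kk _ _ h4; simp only [p] at this; omega
      · rw [h4]; omega)
    have h4 : (3:ℤ) ^ ((f s).K - 2) ≤ 3 ^ (f s).K := pow_le_pow_right₀ (by norm_num) (by omega)
    have h5 : nb (w' - w) (Rp n s (f s).K (f s).S) := (h2.2.sub h1.2).mono (by
      have := rho_pos n (f s).K
      have := hOK.pr.rho_le s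
      simp only [p] at this; omega)
    rcases ht.lt_or_eq with ht | rfl
    · have h6 := ((hp t s ht).dec _ h1.1 _ h5).1 (by rw [← add_vadd, sub_add_cancel]; exact h2.1)
      rw [← hOK.zz_copy ht h6 h2.2.neg]
      congr 1; abel
    · have := hOK.pr.Rpos t
      rw [hsep t x w' w h2.1 h1.1 (h5.mono (by simp only [p] at this; omega))]
  have hF : ∀ x s w, Occ x s w → F x = p.zz k0 s (-w) := by
    intro x s w h1
    have hex : ∃ r : ℕ × Z n, Occ x r.1 r.2 := ⟨(s, w), h1⟩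
    simp only [F]
    rw [dif_pos hex]
    rcases le_total s hex.choose.1 with h2 | h2
    · exact key x _ _ _ _ hex.choose_spec h1 h2
    · exact (key x _ _ _ _ h1 hex.choose_spec h2).symm
  let G : Set X := {x | ∃ (s : ℕ) (w : Z n), w +ᵥ x ∈ (f s).U ∧ nb w (3 ^ ((f s).K - 2) - Bd n)}
  have hopen : ∀ Q : ℕ → Z n → Prop, IsOpen {x : X | ∃ (s : ℕ) (w : Z n), w +ᵥ x ∈ (f s).U ∧ Q s w} := by
    intro Q
    simp only [Set.ofPred_exists]
    refine isOpen_iUnion fun s => isOpen_iUnion fun w => ?_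
    by_cases hQ : Q s w
    · simp only [hQ, and_true]; exact open_pre (hs s).oU w
    · simp [hQ]
  have hG : G ∈ residual X := by
    refine residual_of_dense_open (hopen _) (dense_iff_inter_open.2 fun O hO hOn => ?_)
    obtain ⟨s, h1⟩ := hWb O hO hOn
    refine ⟨(f s).x, h1 ((hs s).UW (hs s).xU), s, 0, by rw [zero_vadd]; exact (hs s).xU,
      nb_zero (by have := (hs s).bd; omega)⟩
  refine ⟨F, fun l => ?_, {x | ∀ v : Z n, v +ᵥ x ∈ G}, ?_, fun v y hy w => ?_, fun y hy => ?_⟩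
  · refine (hopen fun s w => nb w (3 ^ ((f s).K - 2)) ∧ p.zz k0 s (-w) = l).baireMeasurableSet.congr
      ?_
    filter_upwards [hG] with x hx
    obtain ⟨s, w, h1, h2⟩ := hx
    have h3 : Occ x s w := ⟨h1, h2.mono (by have := Bd_pos n; omega)⟩
    apply propext
    constructor
    · rintro ⟨s', w', h4, h5, h6⟩
      exact (hF x s' w' ⟨h4, h5⟩).trans h6
    · intro h4
      exact ⟨s, w, h1, h3.2, (hF x s w h3).symm.trans h4⟩
  · exact eventually_countable_forall.2 fun v =>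
      (tendsto_residual_of_isOpenMap (continuous_const_vadd v) (isOpenMap_vadd v)).eventually hG
  · rw [← add_vadd]; exact hy _
  · obtain ⟨s, w, h1, h2⟩ := hy 0
    rw [zero_vadd] at h1
    refine (mainLCL_iff k0 fun v => F (v +ᵥ y)).2 ((hOK.zz_rule (s := s) h2.neg).local
      fun v hv => ?_)
    rw [hF (v +ᵥ y) s (w - v) ⟨by rwa [← add_vadd, sub_add_cancel], by simpa using h2.sub hv⟩]
    congr 1; abel

end Dyn

end Pool.Agent.MP_c4ca5b_lc
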